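import Pool.Agent.LibEX36.P1

/-!
[EX36 AR] Arithmetic. `q < r` coprime, `b = r / q`, `s = r % q` (`1 ≤ s < q`). `p = 2`, `q ≥ 3`: `a = s + b - 1`; `p = 3`, `q ≥ 5`, `q`, `r` odd: `s + b` is odd (`r = b q + s`), `a = (s + b - 1)/2`.
`b = 1`: `belyi_one` (`a e = s`, `a ≤ q`). `b ≥ 2`: `belyi_many`; `p = 2`: `3 (a - 1) < r` iff `2 s < b (q - 3) + 6`, true as `s ≤ q - 1`, `b ≥ 2`; `p = 3`: `5 (a - 1) < r` iff `3 s < b (2 q - 5) + 15`.
`s' = r - p a`: `p = 2`: `b (q - 2) - s + 2`; `p = 3`: `(b (2 q - 3) - s + 3) / 2`. `2 ≤ s ∨ 2 ≤ s'`: `p = 2`: `b = 1`: `s ≥ 2` or `s' = q - 1 ≥ 2`; `b ≥ 2`: `s' ≥ q - 1`. `p = 3`: `s' ≥ 2` always.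
-/

namespace Pool.Agent.LibEX36

open Polynomial
open Pool.Agent.LibBH2
open Pool.Agent.LibCHd (FunF)

theorem exists_belyi (K : Type) [Field K] [IsAlgClosed K] [CharZero K] {p q r : ℕ}
    (hp : p = 2 ∧ 3 ≤ q ∨ p = 3 ∧ 5 ≤ q ∧ Odd q ∧ Odd r) (hqr : q < r) (hc : Nat.Coprime q r) :
    ∃ s b s' a : ℕ, Bel K p q s b s' a ∧ s + q * b = r ∧ s' + p * a = r ∧ a * (p - 1) + 1 = s + b ∧
      (2 ≤ s ∨ 2 ≤ s') := by
  have hq3 : 3 ≤ q := by omega
  have hq1 : 1 ≤ q := by omega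
  obtain ⟨b, s, hr, hs, hb⟩ : ∃ b s : ℕ, r = s + q * b ∧ s < q ∧ 1 ≤ b := by
    refine ⟨r / q, r % q, (Nat.mod_add_div r q).symm, Nat.mod_lt _ (by omega), ?_⟩
    exact (Nat.one_le_div_iff (by omega)).2 hqr.le
  have hs1 : 1 ≤ s := by
    rcases Nat.eq_zero_or_pos s with h | h
    · exfalso
      rw [h, Nat.zero_add] at hr
      rw [hr] at hc
      have h2 := Nat.Coprime.eq_one_of_dvd hc (Dvd.intro _ rfl)
      omega
    · exact h
  rcases hp with ⟨rfl, -⟩ | ⟨rfl, hq5, hqo, hro⟩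
  · rcases Nat.lt_or_ge b 2 with hb2 | hb2
    · obtain rfl : b = 1 := by omega
      refine ⟨s, 1, q - s, s, ?_, by omega, by omega, by omega, by omega⟩
      have h := belyi_one K (e := 1) (q := q) (a := s) le_rfl hq1 hs1 hs.le
      rw [Nat.mul_one] at h
      exact h
    · obtain ⟨k, rfl⟩ : ∃ k, b = k + 2 := ⟨b - 2, by omega⟩
      obtain ⟨j, rfl⟩ : ∃ j, q = j + 3 := ⟨q - 3, by omega⟩
      have hexp : (j + 3) * (k + 2) = j * k + 2 * j + 3 * k + 6 := by ring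
      rw [hexp] at hr
      refine ⟨s, k + 2, r - 2 * (s + k + 1), s + k + 1, ?_, by rw [hexp]; omega, by omega, by omega, by omega⟩
      refine belyi_many K (e := 1) le_rfl hq1 (by omega) (by omega) ?_ ?_
      · rw [hexp]; omega
      · rw [hexp]; omega
  · have hsb : Odd (s + b) := by
      rw [hr] at hro
      obtain ⟨t, rfl⟩ := hqo
      rw [Nat.odd_iff] at hro ⊢
      have h1 : (2 * t + 1) * b = 2 * (t * b) + b := by ring
      rw [h1] at hro
      omega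
    obtain ⟨a, ha⟩ := hsb
    rcases Nat.lt_or_ge b 2 with hb2 | hb2
    · obtain rfl : b = 1 := by omega
      refine ⟨s, 1, q - a, a, ?_, by omega, by omega, by omega, by omega⟩
      have h := belyi_one K (e := 2) (q := q) (a := a) (by omega) hq1 (by omega) (by omega)
      have h2 : a * 2 = s := by omega
      rw [h2] at h
      exact h
    · obtain ⟨k, rfl⟩ : ∃ k, b = k + 2 := ⟨b - 2, by omega⟩
      obtain ⟨j, rfl⟩ : ∃ j, q = j + 5 := ⟨q - 5, by omega⟩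
      have hexp : (j + 5) * (k + 2) = j * k + 2 * j + 5 * k + 10 := by ring
      rw [hexp] at hr
      refine ⟨s, k + 2, r - 3 * a, a, ?_, by rw [hexp]; omega, by omega, by omega, by omega⟩
      refine belyi_many K (e := 2) (by omega) hq1 (by omega) (by omega) ?_ ?_
      · rw [hexp]; omega
      · rw [hexp]; omega

end Pool.Agent.LibEX36
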