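import Pool.Agent.LibCW77.V0

/-!
# LibEX36: existence of polynomials with given ramification over three points (helper36)
Page: PAGE3_29b22a_helper36.md
-/

namespace Pool.Agent.LibEX36

open Polynomial
open Pool.Agent.LibBH2
open Pool.Agent.LibCHd (FunF)

variable {K : Type} [Field K]

/-- monic polynomial with given roots -/
noncomputable def PA {s : ℕ} (al : Fin s → K) : K[X] := ∏ i, (X - C (al i))

/-- `Q = A B ^ q` -/
noncomputable def QQ (q : ℕ) {s b : ℕ} (al : Fin s → K) (be : Fin b → K) : K[X] := PA al * PA be ^ q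

/-- `R = A' B + q A B'`, so `Q' = B ^ (q - 1) R` -/
noncomputable def RR (q : ℕ) {s b : ℕ} (al : Fin s → K) (be : Fin b → K) : K[X] :=
  derivative (PA al) * PA be + (q : K[X]) * PA al * derivative (PA be)

/-- `Q` has `b` roots of multiplicity `q`, `s` simple roots, `a` other critical points `c i` of multiplicity `e`, with the
values `v i` -/
structure Sol (e q : ℕ) {s b a : ℕ} (al : Fin s → K) (be : Fin b → K) (c : Fin a → K) (v : Fin a → K) : Prop where
  nrm : ∑ i, al i + (q : K) * ∑ i, be i = 0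
  der : RR q al be = C ((s + q * b : ℕ) : K) * PA c ^ e
  val : ∀ i, (QQ q al be).eval (c i) = v i

/-- there is a solution with `v i = 1` and `c i` different for `i < j`, for all different values `v i`, `i ≥ j` -/
def Claim (e q s b a j : ℕ) : Prop :=
  ∀ (K : Type) [Field K] [IsAlgClosed K] [CharZero K] (v : Fin a → K), (∀ i, v i ≠ 0) →
    (∀ i : Fin a, (i : ℕ) < j → v i = 1) → (∀ i : Fin a, j ≤ (i : ℕ) → v i ≠ 1) →
    (∀ i i' : Fin a, j ≤ (i : ℕ) → j ≤ (i' : ℕ) → v i = v i' → i = i') →
    ∃ (al : Fin s → K) (be : Fin b → K) (c : Fin a → K), Sol e q al be c v ∧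
      ∀ i i' : Fin a, (i : ℕ) < j → (i' : ℕ) < j → c i = c i' → i = i'

end Pool.Agent.LibEX36
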