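import Pool.Agent.LibEX36.E0a

/-!
[EX36 E0] `pa_monic`, `pa_deg`, `pa_eval`, `qq_deg`: standard. `qq_deriv`: product rule, `(A B^q)' = B^(q-1) R`.
`sol_zero`: values zero => everything zero. Proof: `Q' = C n * B^(q-1) * ∏ (X - c_i)^e`, a product over `I = Fin b × Fin (q-1) ⊕ Fin a × Fin e` of
`X - γ`, all these `γ` are zeros of `Q` (for `Fin b × Fin (q - 1)` as `q ≥ 1`; `crit_one` with exponent one; `Fin a × Fin e` is nonempty), so all `γ` are equal to one `z`, `Q' = C n (X - z)^(n-1)` (`n - 1 = b (q - 1) + a e`), `Q(z) = 0`, so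
`Q = (X - z)^n` (the difference has derivative `0` and a zero); all `al i`, `be i` are roots of `Q` (`q ≥ 1`), so equal to `z`; `nrm`: `n z = 0`.
-/

open scoped Classical

namespace Pool.Agent.LibEX36

open Polynomial
open Pool.Agent.LibBH2
open Pool.Agent.LibCHd (FunF)

variable {K : Type} [Field K]

theorem pa_monic {s : ℕ} (al : Fin s → K) : (PA al).Monic :=
  monic_prod_of_monic _ _ fun i _ => monic_X_sub_C (al i)

theorem pa_deg {s : ℕ} (al : Fin s → K) : (PA al).natDegree = s := by
  unfold PA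
  rw [natDegree_prod_of_monic _ _ fun i _ => monic_X_sub_C (al i)]
  simp

theorem pa_eval {s : ℕ} (al : Fin s → K) (x : K) : (PA al).eval x = 0 ↔ ∃ i, x = al i := by
  unfold PA
  rw [eval_prod, Finset.prod_eq_zero_iff]
  simp [sub_eq_zero]

theorem qq_deg {q s b : ℕ} (al : Fin s → K) (be : Fin b → K) : (QQ q al be).Monic ∧ (QQ q al be).natDegree = s + q * b := by
  refine ⟨(pa_monic al).mul ((pa_monic be).pow q), ?_⟩
  unfold QQ
  rw [(pa_monic al).natDegree_mul ((pa_monic be).pow q), (pa_monic be).natDegree_pow, pa_deg, pa_deg]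

theorem qq_deriv {q s b : ℕ} (hq : 1 ≤ q) (al : Fin s → K) (be : Fin b → K) :
    derivative (QQ q al be) = PA be ^ (q - 1) * RR q al be := by
  unfold QQ RR
  rw [derivative_mul, derivative_pow]
  have h : PA be ^ q = PA be ^ (q - 1) * PA be := by
    rw [← pow_succ]
    congr 1
    omega
  rw [h]
  simp only [map_natCast]
  ring

theorem sol_zero [CharZero K] {e q s b a : ℕ} (he : 1 ≤ e) (hq : 1 ≤ q) (ha : 1 ≤ a) (h : a * e + 1 = s + b)
    {al : Fin s → K} {be : Fin b → K} {c : Fin a → K} (hs : Sol e q al be c (fun _ => 0)) :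
    al = (fun _ => 0) ∧ be = (fun _ => 0) ∧ c = (fun _ => 0) := by
  have hae : 1 ≤ a * e := Nat.mul_pos ha he
  have hbq : b * (q - 1) + b = q * b := by
    obtain ⟨k, rfl⟩ : ∃ k, q = k + 1 := ⟨q - 1, by omega⟩
    simp only [Nat.add_sub_cancel]
    ring
  have hn : b * (q - 1) + a * e + 1 = s + q * b := by omega
  have hn0 : ((s + q * b : ℕ) : K) ≠ 0 := by
    rw [Nat.cast_ne_zero]
    omega
  let γ : (Fin b × Fin (q - 1)) ⊕ (Fin a × Fin e) → K := Sum.elim (fun x => be x.1) (fun x => c x.1)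
  have hprod : ∏ i, (X - C (γ i)) = PA be ^ (q - 1) * PA c ^ e := by
    rw [Fintype.prod_sum_type, Fintype.prod_prod_type, Fintype.prod_prod_type]
    simp only [γ, Sum.elim_inl, Sum.elim_inr, Finset.prod_const, Finset.card_univ, Fintype.card_fin,
      Finset.prod_pow]
    rfl
  have hder : derivative (QQ q al be) = C ((s + q * b : ℕ) : K) * (∏ i, (X - C (γ i))) ^ 1 := by
    rw [qq_deriv hq, hs.der, hprod, pow_one]
    ring
  have hbe : ∀ i, (QQ q al be).eval (be i) = 0 := fun i => by
    unfold QQ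
    rw [eval_mul, eval_pow, (pa_eval be (be i)).2 ⟨i, rfl⟩, zero_pow (by omega), mul_zero]
  have hal : ∀ i, (QQ q al be).eval (al i) = 0 := fun i => by
    unfold QQ
    rw [eval_mul, (pa_eval al (al i)).2 ⟨i, rfl⟩, zero_mul]
  have hval : ∀ i, (QQ q al be).eval (γ i) = 0 := by
    rintro (⟨i, j⟩ | ⟨i, j⟩)
    · exact hbe i
    · exact hs.val i
  have hone := crit_one (K := K) (I := (Fin b × Fin (q - 1)) ⊕ (Fin a × Fin e)) (e := 1) le_rfl
    (γ := γ) hn0 hder hval
  obtain ⟨z, hz⟩ : ∃ z, z = c ⟨0, ha⟩ := ⟨_, rfl⟩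
  have hγ : ∀ i, γ i = z := fun i => by
    rw [hone i (Sum.inr (⟨0, ha⟩, ⟨0, he⟩)), hz]
    rfl
  have hQz : (QQ q al be).eval z = 0 := by
    rw [← hγ (Sum.inr (⟨0, ha⟩, ⟨0, he⟩))]
    exact hval _
  have hder2 : derivative (QQ q al be) = derivative ((X - C z) ^ (s + q * b)) := by
    rw [hder, Finset.prod_congr rfl (fun i _ => by rw [hγ i]), Finset.prod_const, Finset.card_univ,
      Fintype.card_sum, Fintype.card_prod, Fintype.card_prod, Fintype.card_fin, Fintype.card_fin,
      Fintype.card_fin, Fintype.card_fin, derivative_pow, pow_one]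
    have : s + q * b - 1 = b * (q - 1) + a * e := by omega
    rw [this]
    simp
  have hQ : QQ q al be = (X - C z) ^ (s + q * b) := by
    have h1 : derivative (QQ q al be - (X - C z) ^ (s + q * b)) = 0 := by
      rw [derivative_sub, hder2, sub_self]
    have h2 := natDegree_eq_zero_of_derivative_eq_zero h1
    obtain ⟨w, hw⟩ := natDegree_eq_zero.1 h2
    have h3 : w = 0 := by
      have h4 := congrArg (eval z) hw
      rw [eval_C, eval_sub, hQz, eval_pow, eval_sub, eval_X, eval_C, sub_self, zero_pow (by omega),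
        sub_zero] at h4
      exact h4
    rw [h3, map_zero] at hw
    exact (sub_eq_zero.1 hw.symm)
  have hroot : ∀ x, (QQ q al be).eval x = 0 → x = z := fun x hx => by
    rw [hQ, eval_pow, eval_sub, eval_X, eval_C] at hx
    exact sub_eq_zero.1 (pow_eq_zero_iff (by omega) |>.1 hx)
  have hal' : ∀ i, al i = z := fun i => hroot _ (hal i)
  have hbe' : ∀ i, be i = z := fun i => hroot _ (hbe i)
  have hz0 : z = 0 := by
    have h1 := hs.nrm
    rw [Finset.sum_congr rfl (fun i _ => hal' i), Finset.sum_congr rfl (fun i _ => hbe' i)] at h1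
    simp only [Finset.sum_const, Finset.card_univ, Fintype.card_fin, nsmul_eq_mul] at h1
    have h2 : ((s + q * b : ℕ) : K) * z = 0 := by
      push_cast
      linear_combination h1
    exact (mul_eq_zero.1 h2).resolve_left hn0
  refine ⟨funext fun i => (hal' i).trans hz0, funext fun i => (hbe' i).trans hz0, funext fun i => ?_⟩
  exact (hroot _ (hs.val i)).trans hz0

end Pool.Agent.LibEX36
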