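import Pool.Agent.LibEX36.Defs

/-!
[EX36 E0a] A polynomial all of whose critical points are zeros has one zero. `crit_one`: `F' = C κ * ∏ (X - γ i) ^ e`, `κ ≠ 0`, `e ≥ 1`,
`F(γ i) = 0` for all `i` (finite index type): all `γ i` are equal. Proof: for a value `z` of `γ` let `m = #{i : γ i = z}`; the multiplicity of `z` in
`F'` is `e m`, so in `F` it is `e m + 1` (`Polynomial.derivative_rootMultiplicity_of_root`, characteristic zero), `F ≠ 0`, and
`∑_z (e m_z + 1) ≤ deg F = e #I + 1` (sum over the different values `z`; `Polynomial.card_roots'`), so there is at most one value.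
-/

open scoped Classical

namespace Pool.Agent.LibEX36

open Polynomial
open Pool.Agent.LibBH2
open Pool.Agent.LibCHd (FunF)

variable {K : Type} [Field K]

theorem crit_one [CharZero K] {I : Type} [Fintype I] {e : ℕ} (he : 1 ≤ e) {γ : I → K} {κ : K} (hκ : κ ≠ 0) {F : K[X]}
    (hd : derivative F = C κ * (∏ i, (X - C (γ i))) ^ e) (hF : ∀ i, F.eval (γ i) = 0) (i i' : I) : γ i = γ i' := by
  obtain ⟨s, hs⟩ : ∃ s : Multiset K, s = Finset.univ.val.map γ := ⟨_, rfl⟩
  have hmem : ∀ j : I, γ j ∈ s := fun j => by
    rw [hs]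
    exact Multiset.mem_map.2 ⟨j, Finset.mem_univ_val j, rfl⟩
  have hP : ∏ i, (X - C (γ i)) = (s.map fun a => X - C a).prod := by
    rw [hs, Multiset.map_map]
    rfl
  have hP0 : (∏ i, (X - C (γ i))) ≠ 0 :=
    (monic_prod_of_monic _ _ fun i _ => monic_X_sub_C (γ i)).ne_zero
  have hd0 : derivative F ≠ 0 := by
    rw [hd]
    exact mul_ne_zero (C_ne_zero.2 hκ) (pow_ne_zero _ hP0)
  have hF0 : F ≠ 0 := by
    rintro rfl
    exact hd0 derivative_zero
  have hroots : (derivative F).roots = e • s := by
    rw [hd, roots_C_mul _ hκ, roots_pow, hP, roots_multiset_prod_X_sub_C]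
  have hdeg : (derivative F).natDegree = e * Multiset.card s := by
    rw [hd, natDegree_C_mul hκ, natDegree_pow, hP, natDegree_multiset_prod_X_sub_C_eq_card]
  have hpos : 0 < F.natDegree := by
    rw [Nat.pos_iff_ne_zero]
    intro h0
    exact hd0 (derivative_of_natDegree_zero h0)
  have hdegF : F.natDegree ≤ e * Multiset.card s + 1 := by
    have h1 := degree_derivative_eq F hpos
    have h2 := natDegree_eq_of_degree_eq_some h1
    omega
  have hcount : ∀ z ∈ s.toFinset, F.roots.count z = (e • s).count z + 1 := by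
    intro z hz
    have hz' : z ∈ s := Multiset.mem_toFinset.1 hz
    have hroot : F.IsRoot z := by
      rw [hs] at hz'
      obtain ⟨j, -, rfl⟩ := Multiset.mem_map.1 hz'
      exact hF j
    have h1 := derivative_rootMultiplicity_of_root hroot
    have h2 : 0 < F.rootMultiplicity z := (rootMultiplicity_pos hF0).2 hroot
    rw [count_roots, ← hroots, count_roots, h1]
    omega
  have hsub : s.toFinset ⊆ F.roots.toFinset := by
    intro z hz
    have h1 := hcount z hz
    rw [Multiset.mem_toFinset, ← Multiset.count_pos]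
    omega
  have h1 : ∑ z ∈ s.toFinset, F.roots.count z ≤ Multiset.card F.roots := by
    rw [← Multiset.toFinset_sum_count_eq F.roots]
    exact Finset.sum_le_sum_of_subset hsub
  have h2 : ∑ z ∈ s.toFinset, F.roots.count z = e * Multiset.card s + s.toFinset.card := by
    rw [Finset.sum_congr rfl hcount, Finset.sum_add_distrib, Finset.sum_const, smul_eq_mul, mul_one,
      ← Multiset.toFinset_nsmul s e (by omega), Multiset.toFinset_sum_count_eq, Multiset.card_nsmul]
  have h3 := card_roots' F
  have h4 : s.toFinset.card ≤ 1 := by omega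
  exact Finset.card_le_one.1 h4 _ (Multiset.mem_toFinset.2 (hmem i)) _
    (Multiset.mem_toFinset.2 (hmem i'))

end Pool.Agent.LibEX36
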