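import Pool.Agent.LibEX36.E1a
import Pool.Agent.LibHP2.G6b

/-!
[EX36 E1] Existence of a solution for all values. `LibHP.G6b_common_zero` (or `G6b_homogeneous_system_has_zero`): at most `N` forms of positive degree in `N + 1` variables have a nontrivial common zero.
Variables: `al` (`s`), `be` (`b`), `c` (`a`), and `x0`: `N + 1 = s + b + a + 1`. Forms (`n = s + q b`):
* `∑ al + q ∑ be`, degree `1`;
* for `i < s + b - 1 = a e` the coefficient of `X^i` in `R - n ∏ (X - c_l)^e`, of degree `a e - i`;
* for `i : Fin a` the value `Q(c_i) - v_i x0^n`, of degree `n`.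
Number: `1 + a e + a = s + b + a = N`. Work in `M[X]`, `M = MvPolynomial (Fin (N + 1)) K`, with `A = ∏ (X - C (X_i))` and so on: call `F ∈ M[X]` graded of degree
`d` if `natDegree F ≤ d` and `F.coeff i` is homogeneous of degree `d - i` for all `i ≤ d`; closed under products (degrees add), sums, `derivative` (degree `d - 1`), multiplication by constants of `K`; `X - C (X_i)` is graded of degree one;
`F.eval (X_i)` is homogeneous of degree `d`. Evaluation `MvPolynomial.eval x : M → K` maps all this to the polynomials over `K` (`Polynomial.map`).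
A nontrivial zero with `x0 = 0` would be a nontrivial solution with the values `0` (the coefficient of `X^(a e)` in `R` is `n`, the same as in `n ∏ (X - c)^e`, and both have degree `≤ a e`), against `sol_zero`. So `x0 ≠ 0`; multiply all
coordinates by `x0⁻¹` (`sol_scale`, the values become `x0⁻¹ ^ n * (v_i x0^n) = v_i`).
-/

open scoped Classical

namespace Pool.Agent.LibEX36

open Polynomial
open Pool.Agent.LibBH2
open Pool.Agent.LibCHd (FunF)

variable {K : Type} [Field K]

section E1graded

variable {σ : Type} {K : Type} [Field K]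

/-- graded of degree `d` -/
private def E1_Gr (d : ℕ) (F : Polynomial (MvPolynomial σ K)) : Prop :=
  (∀ i j, i + j = d → (F.coeff i).IsHomogeneous j) ∧ ∀ i, d < i → F.coeff i = 0

private lemma E1_zero (d : ℕ) : E1_Gr d (0 : Polynomial (MvPolynomial σ K)) := by
  constructor
  · intro i j _
    rw [Polynomial.coeff_zero]
    exact MvPolynomial.isHomogeneous_zero _ _ _
  · intro i _
    rw [Polynomial.coeff_zero]

private lemma E1_mul {d₁ d₂ d : ℕ} {F G : Polynomial (MvPolynomial σ K)} (hF : E1_Gr d₁ F) (hG : E1_Gr d₂ G)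
    (hd : d₁ + d₂ = d) : E1_Gr d (F * G) := by
  constructor
  · intro i j hij
    rw [Polynomial.coeff_mul]
    refine MvPolynomial.IsHomogeneous.sum _ _ _ ?_
    rintro ⟨u, w⟩ huw
    replace huw := Finset.HasAntidiagonal.mem_antidiagonal.1 huw
    dsimp only at huw ⊢
    by_cases hu : d₁ < u
    · rw [hF.2 u hu, zero_mul]
      exact MvPolynomial.isHomogeneous_zero _ _ _
    by_cases hw : d₂ < w
    · rw [hG.2 w hw, mul_zero]
      exact MvPolynomial.isHomogeneous_zero _ _ _
    have := (hF.1 u (d₁ - u) (by omega)).mul (hG.1 w (d₂ - w) (by omega))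
    rwa [show d₁ - u + (d₂ - w) = j by omega] at this
  · intro i hi
    rw [Polynomial.coeff_mul]
    refine Finset.sum_eq_zero ?_
    rintro ⟨u, w⟩ huw
    replace huw := Finset.HasAntidiagonal.mem_antidiagonal.1 huw
    dsimp only at huw ⊢
    by_cases hu : d₁ < u
    · rw [hF.2 u hu, zero_mul]
    · rw [hG.2 w (by omega), mul_zero]

private lemma E1_add {d : ℕ} {F G : Polynomial (MvPolynomial σ K)} (hF : E1_Gr d F) (hG : E1_Gr d G) :
    E1_Gr d (F + G) := by
  constructor
  · intro i j hij
    rw [Polynomial.coeff_add]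
    exact (hF.1 i j hij).add (hG.1 i j hij)
  · intro i hi
    rw [Polynomial.coeff_add, hF.2 i hi, hG.2 i hi, add_zero]

private lemma E1_sub {d : ℕ} {F G : Polynomial (MvPolynomial σ K)} (hF : E1_Gr d F) (hG : E1_Gr d G) :
    E1_Gr d (F - G) := by
  constructor
  · intro i j hij
    rw [Polynomial.coeff_sub]
    exact (hF.1 i j hij).sub (hG.1 i j hij)
  · intro i hi
    rw [Polynomial.coeff_sub, hF.2 i hi, hG.2 i hi, sub_zero]

private lemma E1_const (κ : K) : E1_Gr (σ := σ) 0 (Polynomial.C (MvPolynomial.C κ)) := by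
  constructor
  · intro i j hij
    obtain rfl : i = 0 := by omega
    obtain rfl : j = 0 := by omega
    rw [Polynomial.coeff_C_zero]
    exact MvPolynomial.isHomogeneous_C _ _
  · intro i hi
    exact Polynomial.coeff_C_of_ne_zero (by omega)

private lemma E1_one : E1_Gr (σ := σ) (K := K) 0 1 := by
  have := E1_const (σ := σ) (1 : K)
  rwa [map_one, map_one] at this

private lemma E1_lin (t : σ) : E1_Gr (K := K) 1 (Polynomial.X - Polynomial.C (MvPolynomial.X t)) := by
  constructor
  · intro i j hij
    rcases Nat.eq_zero_or_pos i with rfl | hi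
    · obtain rfl : j = 1 := by omega
      rw [Polynomial.coeff_sub, Polynomial.coeff_X_zero, Polynomial.coeff_C_zero, zero_sub]
      exact (MvPolynomial.isHomogeneous_X _ _).neg
    · obtain rfl : i = 1 := by omega
      obtain rfl : j = 0 := by omega
      rw [Polynomial.coeff_sub, Polynomial.coeff_X_one, Polynomial.coeff_C_of_ne_zero one_ne_zero, sub_zero]
      exact MvPolynomial.isHomogeneous_one _ _
  · intro i hi
    rw [Polynomial.coeff_sub, Polynomial.coeff_C_of_ne_zero (by omega), Polynomial.coeff_X,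
      if_neg (by omega), sub_zero]

private lemma E1_prod {ι : Type} (t : Finset ι) {F : ι → Polynomial (MvPolynomial σ K)}
    (hF : ∀ i ∈ t, E1_Gr 1 (F i)) : E1_Gr t.card (∏ i ∈ t, F i) := by
  classical
  induction t using Finset.induction_on with
  | empty => simpa using E1_one
  | insert i t hi ih =>
    rw [Finset.prod_insert hi, Finset.card_insert_of_notMem hi]
    exact E1_mul (hF i (Finset.mem_insert_self _ _)) (ih fun j hj => hF j (Finset.mem_insert_of_mem hj))
      (by omega)

private lemma E1_pow {d : ℕ} {F : Polynomial (MvPolynomial σ K)} (hF : E1_Gr d F) (k : ℕ) :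
    E1_Gr (d * k) (F ^ k) := by
  induction k with
  | zero => simpa using E1_one
  | succ k ih =>
    rw [pow_succ]
    exact E1_mul ih hF (by ring)

private lemma E1_der {d₁ d₂ d : ℕ} {F G : Polynomial (MvPolynomial σ K)} (hF : E1_Gr d₁ F) (hG : E1_Gr d₂ G)
    (hd : d₁ + d₂ = d + 1) : E1_Gr d (Polynomial.derivative F * G) := by
  rcases Nat.eq_zero_or_pos d₁ with rfl | hd₁
  · have h0 : Polynomial.derivative F = 0 := by
      ext1 i
      rw [Polynomial.coeff_derivative, hF.2 (i + 1) (by omega), zero_mul, Polynomial.coeff_zero]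
    rw [h0, zero_mul]
    exact E1_zero _
  · obtain ⟨d₁', rfl⟩ := Nat.exists_eq_succ_of_ne_zero hd₁.ne'
    have h1 : E1_Gr d₁' (Polynomial.derivative F) := by
      constructor
      · intro i j hij
        rw [Polynomial.coeff_derivative]
        have h1 := hF.1 (i + 1) j (by omega)
        have h2 : ((i : MvPolynomial σ K) + 1) = MvPolynomial.C ((i : K) + 1) := by simp
        rw [h2]
        have h3 := h1.mul (MvPolynomial.isHomogeneous_C σ ((i : K) + 1))
        rwa [add_zero] at h3
      · intro i hi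
        rw [Polynomial.coeff_derivative, hF.2 (i + 1) (by omega), zero_mul]
    exact E1_mul h1 hG (by omega)

private lemma E1_eval {d : ℕ} {F : Polynomial (MvPolynomial σ K)} (hF : E1_Gr d F) (t : σ) :
    (F.eval (MvPolynomial.X t)).IsHomogeneous d := by
  rw [Polynomial.eval_eq_sum_range]
  refine MvPolynomial.IsHomogeneous.sum _ _ _ ?_
  intro i _
  by_cases hi : d < i
  · rw [hF.2 i hi, zero_mul]
    exact MvPolynomial.isHomogeneous_zero _ _ _
  · have := (hF.1 i (d - i) (by omega)).mul ((MvPolynomial.isHomogeneous_X K t).pow i)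
    rwa [show d - i + 1 * i = d by omega] at this

/-- `PA` over a commutative ring -/
private noncomputable def E1_P {R : Type} [CommRing R] {s : ℕ} (al : Fin s → R) : Polynomial R :=
  ∏ i, (Polynomial.X - Polynomial.C (al i))

/-- `RR` over a commutative ring -/
private noncomputable def E1_R {R : Type} [CommRing R] (q : ℕ) {s b : ℕ} (al : Fin s → R) (be : Fin b → R) :
    Polynomial R :=
  Polynomial.derivative (E1_P al) * E1_P be + (q : Polynomial R) * E1_P al * Polynomial.derivative (E1_P be)

private lemma E1_P_map {R R' : Type} [CommRing R] [CommRing R'] (φ : R →+* R') {s : ℕ} (al : Fin s → R) :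
    (E1_P al).map φ = E1_P (fun i => φ (al i)) := by
  unfold E1_P
  rw [Polynomial.map_prod]
  refine Finset.prod_congr rfl fun i _ => ?_
  rw [Polynomial.map_sub, Polynomial.map_X, Polynomial.map_C]

private lemma E1_R_map {R R' : Type} [CommRing R] [CommRing R'] (φ : R →+* R') (q : ℕ) {s b : ℕ}
    (al : Fin s → R) (be : Fin b → R) :
    (E1_R q al be).map φ = E1_R q (fun i => φ (al i)) (fun i => φ (be i)) := by
  unfold E1_R
  rw [Polynomial.map_add, Polynomial.map_mul, Polynomial.map_mul, Polynomial.map_mul,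
    ← Polynomial.derivative_map, ← Polynomial.derivative_map, E1_P_map, E1_P_map, Polynomial.map_natCast]

private lemma E1_P_gr {s : ℕ} (f : Fin s → σ) : E1_Gr (K := K) s (E1_P fun i => MvPolynomial.X (f i)) := by
  have := E1_prod (Finset.univ : Finset (Fin s)) (F := fun i =>
    (Polynomial.X - Polynomial.C (MvPolynomial.X (f i)) : Polynomial (MvPolynomial σ K)))
    (fun i _ => E1_lin _)
  rwa [Finset.card_univ, Fintype.card_fin] at this

private lemma E1_R_gr {q s b d : ℕ} (hd : s + b = d + 1) (f : Fin s → σ) (g : Fin b → σ) :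
    E1_Gr (K := K) d (E1_R q (fun i => MvPolynomial.X (f i)) (fun i => MvPolynomial.X (g i))) := by
  unfold E1_R
  refine E1_add (E1_der (E1_P_gr f) (E1_P_gr g) hd) ?_
  have h1 : ((q : Polynomial (MvPolynomial σ K)) * E1_P (fun i => MvPolynomial.X (f i)) *
      Polynomial.derivative (E1_P fun i => MvPolynomial.X (g i))) =
      Polynomial.C (MvPolynomial.C (q : K)) * (Polynomial.derivative (E1_P fun i => MvPolynomial.X (g i)) *
        E1_P (fun i => MvPolynomial.X (f i))) := by
    simp only [map_natCast]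
    ring
  rw [h1]
  exact E1_mul (E1_const _) (E1_der (d := d) (E1_P_gr g) (E1_P_gr f) (by omega)) (by omega)

end E1graded

theorem sol_exists [IsAlgClosed K] [CharZero K] {e q s b a : ℕ} (he : 1 ≤ e) (hq : 1 ≤ q) (ha : 1 ≤ a)
    (h : a * e + 1 = s + b) (v : Fin a → K) :
    ∃ (al : Fin s → K) (be : Fin b → K) (c : Fin a → K), Sol e q al be c v := by
  classical
  have hn : 1 ≤ s + q * b := by
    rcases Nat.eq_zero_or_pos s with rfl | hs
    · have hb : 1 ≤ b := by omega
      have := Nat.mul_le_mul hq hb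
      omega
    · omega
  obtain ⟨N, hN⟩ : ∃ N, N = s + b + a := ⟨_, rfl⟩
  have E : ((Fin s ⊕ Fin b) ⊕ (Fin a ⊕ Unit)) ≃ Fin (N + 1) :=
    Fintype.equivFinOfCardEq (by simp; omega)
  obtain ⟨ea, hea⟩ : ∃ ea : Fin s → Fin (N + 1), ∀ i, ea i = E (Sum.inl (Sum.inl i)) := ⟨_, fun _ => rfl⟩
  obtain ⟨eb, heb⟩ : ∃ eb : Fin b → Fin (N + 1), ∀ i, eb i = E (Sum.inl (Sum.inr i)) := ⟨_, fun _ => rfl⟩
  obtain ⟨ec, hec⟩ : ∃ ec : Fin a → Fin (N + 1), ∀ i, ec i = E (Sum.inr (Sum.inl i)) := ⟨_, fun _ => rfl⟩
  obtain ⟨e0, he0⟩ : ∃ e0 : Fin (N + 1), e0 = E (Sum.inr (Sum.inr ())) := ⟨_, rfl⟩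
  set lin : MvPolynomial (Fin (N + 1)) K :=
    ∑ i, MvPolynomial.X (ea i) + MvPolynomial.C (q : K) * ∑ i, MvPolynomial.X (eb i) with hlin
  set D : Polynomial (MvPolynomial (Fin (N + 1)) K) :=
    E1_R q (fun i => MvPolynomial.X (ea i)) (fun i => MvPolynomial.X (eb i)) -
      Polynomial.C (MvPolynomial.C ((s + q * b : ℕ) : K)) * E1_P (fun i => MvPolynomial.X (ec i)) ^ e with hD
  set V : Fin a → MvPolynomial (Fin (N + 1)) K := fun i =>
    (E1_P (fun i => MvPolynomial.X (ea i)) * E1_P (fun i => MvPolynomial.X (eb i)) ^ q).eval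
      (MvPolynomial.X (ec i)) - MvPolynomial.C (v i) * MvPolynomial.X e0 ^ (s + q * b) with hV
  have hDgr : E1_Gr (a * e) D := by
    refine E1_sub (E1_R_gr h.symm ea eb) ?_
    exact E1_mul (E1_const _) (E1_pow (E1_P_gr ec) e) (by omega)
  have hVgr : ∀ i, (V i).IsHomogeneous (s + q * b) := by
    intro i
    refine MvPolynomial.IsHomogeneous.sub ?_ ?_
    · refine E1_eval ?_ (ec i)
      exact E1_mul (E1_P_gr ea) (E1_pow (E1_P_gr eb) q) (by rw [mul_comm])
    · have := (MvPolynomial.isHomogeneous_C (Fin (N + 1)) (v i)).mul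
        ((MvPolynomial.isHomogeneous_X K e0).pow (s + q * b))
      rwa [zero_add, one_mul] at this
  have hlingr : lin.IsHomogeneous 1 := by
    refine MvPolynomial.IsHomogeneous.add ?_ ?_
    · exact MvPolynomial.IsHomogeneous.sum _ _ _ fun i _ => MvPolynomial.isHomogeneous_X _ _
    · have := (MvPolynomial.isHomogeneous_C (Fin (N + 1)) (q : K)).mul
        (MvPolynomial.IsHomogeneous.sum (Finset.univ : Finset (Fin b)) (fun i => MvPolynomial.X (eb i)) 1
          fun i _ => MvPolynomial.isHomogeneous_X _ _)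
      rwa [zero_add] at this
  obtain ⟨S, hSdef⟩ : ∃ S : Finset (MvPolynomial (Fin (N + 1)) K),
      S = insert lin ((Finset.range (a * e)).image (fun i => D.coeff i) ∪ Finset.univ.image V) := ⟨_, rfl⟩
  have hScard : S.card ≤ N := by
    rw [hSdef]
    have h1 := Finset.card_insert_le lin ((Finset.range (a * e)).image (fun i => D.coeff i) ∪ Finset.univ.image V)
    have h2 := Finset.card_union_le ((Finset.range (a * e)).image (fun i => D.coeff i)) (Finset.univ.image V)
    have h3 := Finset.card_image_le (s := Finset.range (a * e)) (f := fun i => D.coeff i)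
    have h4 := Finset.card_image_le (s := (Finset.univ : Finset (Fin a))) (f := V)
    rw [Finset.card_range] at h3
    rw [Finset.card_univ, Fintype.card_fin] at h4
    omega
  have hhom : ∀ f ∈ S, ∃ d, 1 ≤ d ∧ f.IsHomogeneous d := by
    intro f hf
    rw [hSdef, Finset.mem_insert, Finset.mem_union, Finset.mem_image, Finset.mem_image] at hf
    rcases hf with rfl | ⟨i, hi, rfl⟩ | ⟨i, -, rfl⟩
    · exact ⟨1, le_rfl, hlingr⟩
    · rw [Finset.mem_range] at hi
      exact ⟨a * e - i, by omega, hDgr.1 i _ (by omega)⟩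
    · exact ⟨_, hn, hVgr i⟩
  obtain ⟨x, hx, hz⟩ := Pool.Agent.LibHP.G6b_common_zero K N S hScard hhom
  have hz1 : MvPolynomial.eval x lin = 0 := hz _ (by rw [hSdef]; exact Finset.mem_insert_self _ _)
  have hz2 : ∀ i < a * e, MvPolynomial.eval x (D.coeff i) = 0 := by
    intro i hi
    refine hz _ ?_
    rw [hSdef]
    exact Finset.mem_insert_of_mem (Finset.mem_union_left _ (Finset.mem_image.2 ⟨i, Finset.mem_range.2 hi, rfl⟩))
  have hz3 : ∀ i, MvPolynomial.eval x (V i) = 0 := by
    intro i
    refine hz _ ?_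
    rw [hSdef]
    exact Finset.mem_insert_of_mem (Finset.mem_union_right _ (Finset.mem_image.2 ⟨i, Finset.mem_univ _, rfl⟩))
  obtain ⟨al, hal⟩ : ∃ al : Fin s → K, al = fun i => x (ea i) := ⟨_, rfl⟩
  obtain ⟨be, hbe⟩ : ∃ be : Fin b → K, be = fun i => x (eb i) := ⟨_, rfl⟩
  obtain ⟨c, hcc⟩ : ∃ c : Fin a → K, c = fun i => x (ec i) := ⟨_, rfl⟩
  have hmal : (E1_P (fun i => MvPolynomial.X (ea i))).map (MvPolynomial.eval x) = PA al := by
    rw [E1_P_map, hal]
    simp only [MvPolynomial.eval_X]
    rfl
  have hmbe : (E1_P (fun i => MvPolynomial.X (eb i))).map (MvPolynomial.eval x) = PA be := by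
    rw [E1_P_map, hbe]
    simp only [MvPolynomial.eval_X]
    rfl
  have hmc : (E1_P (fun i => MvPolynomial.X (ec i))).map (MvPolynomial.eval x) = PA c := by
    rw [E1_P_map, hcc]
    simp only [MvPolynomial.eval_X]
    rfl
  have hmR : (E1_R q (fun i => MvPolynomial.X (ea i)) (fun i => MvPolynomial.X (eb i))).map
      (MvPolynomial.eval x) = RR q al be := by
    rw [E1_R_map, hal, hbe]
    simp only [MvPolynomial.eval_X]
    rfl
  have hDm : D.map (MvPolynomial.eval x) = RR q al be - C ((s + q * b : ℕ) : K) * PA c ^ e := by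
    rw [hD, Polynomial.map_sub, hmR, Polynomial.map_mul, Polynomial.map_pow, hmc, Polynomial.map_C,
      MvPolynomial.eval_C]
  have hRR : (RR q al be).natDegree ≤ a * e := by
    rw [← hmR]
    refine Polynomial.natDegree_le_iff_coeff_eq_zero.2 fun i hi => ?_
    rw [Polynomial.coeff_map, (E1_R_gr h.symm ea eb).2 i hi, map_zero]
  have hcM : (PA c ^ e).Monic := (pa_monic c).pow e
  have hcdeg : (PA c ^ e).natDegree = a * e := by
    rw [(pa_monic c).natDegree_pow, pa_deg, mul_comm]
  have hlead : (RR q al be).coeff (a * e) = ((s + q * b : ℕ) : K) := by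
    have h1 := qq_deriv hq al be
    obtain ⟨h2, h3⟩ := qq_deg (q := q) al be
    have hbM : (PA be ^ (q - 1)).Monic := (pa_monic be).pow _
    have hbdeg : (PA be ^ (q - 1)).natDegree = (q - 1) * b := by
      rw [(pa_monic be).natDegree_pow, pa_deg]
    have h4 : (PA be ^ (q - 1) * RR q al be).coeff ((q - 1) * b + a * e) =
        (PA be ^ (q - 1)).coeff ((q - 1) * b) * (RR q al be).coeff (a * e) :=
      Polynomial.coeff_mul_add_eq_of_natDegree_le hbdeg.le hRR
    have h5 : (PA be ^ (q - 1)).coeff ((q - 1) * b) = 1 := by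
      rw [← hbdeg]
      exact hbM.coeff_natDegree
    have h6 : (q - 1) * b + a * e + 1 = s + q * b := by
      obtain ⟨q', rfl⟩ := Nat.exists_eq_succ_of_ne_zero (show q ≠ 0 by omega)
      simp only [Nat.succ_eq_add_one, Nat.add_sub_cancel]
      rw [add_mul]
      omega
    rw [← h1, Polynomial.coeff_derivative, h6, h5, one_mul] at h4
    have h7 : (QQ q al be).coeff (s + q * b) = 1 := by
      rw [← h3]
      exact h2.coeff_natDegree
    rw [h7, one_mul] at h4
    rw [← h4, ← h6]
    push_cast
    ring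
  have hder : RR q al be = C ((s + q * b : ℕ) : K) * PA c ^ e := by
    ext i
    rw [Polynomial.coeff_C_mul]
    rcases lt_trichotomy i (a * e) with hi | hi | hi
    · have h1 := hz2 i hi
      rw [← Polynomial.coeff_map, hDm, Polynomial.coeff_sub, Polynomial.coeff_C_mul] at h1
      exact sub_eq_zero.1 h1
    · rw [hi, hlead]
      have h1 : (PA c ^ e).coeff (a * e) = 1 := by
        rw [← hcdeg]
        exact hcM.coeff_natDegree
      rw [h1, mul_one]
    · rw [Polynomial.coeff_eq_zero_of_natDegree_lt (lt_of_le_of_lt hRR hi),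
        Polynomial.coeff_eq_zero_of_natDegree_lt (by rw [hcdeg]; exact hi), mul_zero]
  have hnrm : ∑ i, al i + (q : K) * ∑ i, be i = 0 := by
    rw [hlin, map_add, map_sum, map_mul, map_sum, MvPolynomial.eval_C] at hz1
    simp only [MvPolynomial.eval_X] at hz1
    rw [hal, hbe]
    exact hz1
  have hval : ∀ i, (QQ q al be).eval (c i) = v i * x e0 ^ (s + q * b) := by
    intro i
    have h1 := hz3 i
    simp only [hV] at h1
    rw [map_sub, map_mul, map_pow, MvPolynomial.eval_C, MvPolynomial.eval_X, sub_eq_zero] at h1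
    rw [← h1]
    have h2 : ∀ (F : Polynomial (MvPolynomial (Fin (N + 1)) K)) (t : Fin (N + 1)),
        MvPolynomial.eval x (F.eval (MvPolynomial.X t)) = (F.map (MvPolynomial.eval x)).eval (x t) := by
      intro F t
      have h3 := Polynomial.eval_map_apply (MvPolynomial.eval x) (MvPolynomial.X t) (p := F)
      rw [MvPolynomial.eval_X] at h3
      exact h3.symm
    rw [h2, Polynomial.map_mul, Polynomial.map_pow, hmal, hmbe, hcc]
    rfl
  have hsol : Sol e q al be c (fun i => v i * x e0 ^ (s + q * b)) := ⟨hnrm, hder, hval⟩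
  have hx0 : x e0 ≠ 0 := by
    intro h0
    rw [h0, zero_pow (by omega)] at hsol
    simp only [mul_zero] at hsol
    obtain ⟨h1, h2, h3⟩ := sol_zero he hq ha h hsol
    apply hx
    funext j
    obtain ⟨j', rfl⟩ := E.surjective j
    rcases j' with (i | i) | (i | i)
    · have := congrFun h1 i
      rw [hal] at this
      simp only [hea] at this
      exact this
    · have := congrFun h2 i
      rw [hbe] at this
      simp only [heb] at this
      exact this
    · have := congrFun h3 i
      rw [hcc] at this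
      simp only [hec] at this
      exact this
    · rw [he0] at h0
      exact h0
  have hfin := sol_scale h hsol (inv_ne_zero hx0)
  have hvv : (fun i => (x e0)⁻¹ ^ (s + q * b) * (v i * x e0 ^ (s + q * b))) = v := by
    funext i
    rw [inv_pow]
    field_simp
  rw [hvv] at hfin
  exact ⟨_, _, _, hfin⟩

end Pool.Agent.LibEX36
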