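import Pool.Agent.LibEX36.E0

/-!
[EX36 E1a] Scaling: `Q_(λ al, λ be)(λ X) = λ^n Q(X)`. `PA (fun i => l * al i) = C (l ^ s) * (PA al).comp (C l⁻¹ * X)` (or `(PA al).scaleRoots l`), and the same for `be`, `c`; so
`RR q (l al) (l be) = C (l ^ (s + b - 1)) * (RR q al be).comp (C l⁻¹ * X)` (chain rule; `s + b = a e + 1 ≥ 1`) and `QQ = C (l ^ (s + q b)) * (QQ q al be).comp (C l⁻¹ * X)`.
-/

open scoped Classical

namespace Pool.Agent.LibEX36

open Polynomial
open Pool.Agent.LibBH2
open Pool.Agent.LibCHd (FunF)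

variable {K : Type} [Field K]

private theorem E1a_pa {s : ℕ} (al : Fin s → K) {l : K} (hl : l ≠ 0) :
    PA (fun i => l * al i) = C (l ^ s) * (PA al).comp (C l⁻¹ * X) := by
  have h1 : (C (l ^ s) : K[X]) = ∏ _i : Fin s, C l := by
    rw [Finset.prod_const, Finset.card_univ, Fintype.card_fin, map_pow]
  rw [h1]
  unfold PA
  rw [prod_comp, ← Finset.prod_mul_distrib]
  refine Finset.prod_congr rfl fun i _ => ?_
  rw [sub_comp, X_comp, C_comp, mul_sub, ← mul_assoc, ← C_mul, mul_inv_cancel₀ hl, C_1, one_mul, C_mul]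

private theorem E1a_ev {s : ℕ} (al : Fin s → K) (l x : K) :
    (PA (fun i => l * al i)).eval (l * x) = l ^ s * (PA al).eval x := by
  have h1 : l ^ s = ∏ _i : Fin s, l := by
    rw [Finset.prod_const, Finset.card_univ, Fintype.card_fin]
  rw [h1]
  unfold PA
  rw [eval_prod, eval_prod, ← Finset.prod_mul_distrib]
  refine Finset.prod_congr rfl fun i _ => ?_
  rw [eval_sub, eval_X, eval_C, eval_sub, eval_X, eval_C]
  ring

private theorem E1a_rr {q s b : ℕ} (al : Fin s → K) (be : Fin b → K) {l : K} (hl : l ≠ 0) :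
    RR q (fun i => l * al i) (fun i => l * be i) =
      C (l ^ s * l ^ b * l⁻¹) * (RR q al be).comp (C l⁻¹ * X) := by
  unfold RR
  rw [E1a_pa al hl, E1a_pa be hl]
  simp only [derivative_mul, derivative_C, derivative_comp, derivative_X, add_comp, mul_comp, natCast_comp,
    zero_mul, zero_add, mul_one, C_mul]
  ring

theorem sol_scale {e q s b a : ℕ} (h : a * e + 1 = s + b) {al : Fin s → K} {be : Fin b → K} {c : Fin a → K} {v : Fin a → K}
    (hs : Sol e q al be c v) {l : K} (hl : l ≠ 0) :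
    Sol e q (fun i => l * al i) (fun i => l * be i) (fun i => l * c i) (fun i => l ^ (s + q * b) * v i) := by
  refine ⟨?_, ?_, ?_⟩
  · rw [← Finset.mul_sum, ← Finset.mul_sum]
    have h1 := hs.nrm
    linear_combination l * h1
  · have h2 : l ^ s * l ^ b * l⁻¹ = l ^ (a * e) := by
      rw [← pow_add, ← h, pow_succ, mul_assoc, mul_inv_cancel₀ hl, mul_one]
    rw [E1a_rr al be hl, hs.der, E1a_pa c hl, mul_comp, C_comp, pow_comp, mul_pow, ← C_pow, ← pow_mul, h2]
    ring
  · intro i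
    have h1 := hs.val i
    unfold QQ at h1 ⊢
    rw [eval_mul, eval_pow] at h1 ⊢
    rw [E1a_ev, E1a_ev, ← h1]
    ring

end Pool.Agent.LibEX36
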