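import Pool.Agent.LibEX36.E0

/-!
[EX36 E2] If all values are `≠ 0`, then the roots `al`, `be` are different. A common value of two of them would be a root of `A' B + q A B'`
(`A B` has a double root there: both summands vanish), so equal to some `c i` (`der`, `n ≠ 0`), and `Q(c i) = 0 ≠ v i`.
-/

open scoped Classical

namespace Pool.Agent.LibEX36

open Polynomial
open Pool.Agent.LibBH2
open Pool.Agent.LibCHd (FunF)

variable {K : Type} [Field K]

private theorem E2_q {q s b : ℕ} (al : Fin s → K) (be : Fin b → K) (z : K) :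
    (QQ q al be).eval z = (PA al).eval z * (PA be).eval z ^ q := by
  simp [QQ]

private theorem E2_r {q s b : ℕ} (al : Fin s → K) (be : Fin b → K) (z : K) :
    (RR q al be).eval z = (derivative (PA al)).eval z * (PA be).eval z +
      (q : K) * (PA al).eval z * (derivative (PA be)).eval z := by
  simp [RR]

private theorem E2_root {s : ℕ} (al : Fin s → K) (x : Fin s) : (PA al).eval (al x) = 0 :=
  (pa_eval al (al x)).2 ⟨x, rfl⟩

private theorem E2_dbl {s : ℕ} (al : Fin s → K) {x y : Fin s} (hxy : x ≠ y) (h : al x = al y) :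
    (derivative (PA al)).eval (al x) = 0 := by
  have h1 : PA al = (X - C (al x)) * ∏ i ∈ Finset.univ.erase x, (X - C (al i)) := by
    rw [PA, Finset.mul_prod_erase Finset.univ (fun i => X - C (al i)) (Finset.mem_univ x)]
  have h2 : (∏ i ∈ Finset.univ.erase x, (X - C (al i))).eval (al x) = 0 := by
    rw [eval_prod]
    refine Finset.prod_eq_zero (i := y) ?_ ?_
    · exact Finset.mem_erase.2 ⟨hxy.symm, Finset.mem_univ y⟩
    · simp [h]
  rw [h1, derivative_mul, eval_add, eval_mul, eval_mul, h2]
  simp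

private theorem E2_key [CharZero K] {e q s b a : ℕ} (hq : 1 ≤ q) {al : Fin s → K} {be : Fin b → K} {c : Fin a → K}
    {v : Fin a → K} (hs : Sol e q al be c v) (hv : ∀ i, v i ≠ 0) (hn : s + q * b ≠ 0) {z : K}
    (hz : (PA al).eval z = 0 ∨ (PA be).eval z = 0) (hR : (RR q al be).eval z = 0) : False := by
  have h1 := hR
  rw [hs.der, eval_mul, eval_C, eval_pow] at h1
  have hn' : ((s + q * b : ℕ) : K) ≠ 0 := Nat.cast_ne_zero.2 hn
  have h2 : (PA c).eval z ^ e = 0 := (mul_eq_zero.1 h1).resolve_left hn'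
  have h3 : (PA c).eval z = 0 := by
    by_contra h3
    exact pow_ne_zero e h3 h2
  obtain ⟨i, hi⟩ := (pa_eval c z).1 h3
  apply hv i
  rw [← hs.val i, ← hi, E2_q]
  rcases hz with hz | hz
  · rw [hz, zero_mul]
  · rw [hz, zero_pow (by omega), mul_zero]

theorem sol_inj [CharZero K] {e q s b a : ℕ} (hq : 1 ≤ q) {al : Fin s → K} {be : Fin b → K} {c : Fin a → K}
    {v : Fin a → K} (hs : Sol e q al be c v) (hv : ∀ i, v i ≠ 0) : Function.Injective (Sum.elim al be) := by
  intro x y hxy
  by_contra hne
  have hs0 : ∀ x : Fin s, s + q * b ≠ 0 := fun x h => by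
    have := x.2
    omega
  have hb0 : ∀ x : Fin b, s + q * b ≠ 0 := fun x h => by
    have h1 := x.2
    have h2 : 1 * 1 ≤ q * b := Nat.mul_le_mul hq (by omega)
    omega
  rcases x with x | x <;> rcases y with y | y
  · have h : al x = al y := hxy
    have hxy' : x ≠ y := fun hh => hne (by rw [hh])
    refine E2_key hq hs hv (hs0 x) (z := al x) (Or.inl (E2_root al x)) ?_
    rw [E2_r, E2_dbl al hxy' h, E2_root al x]
    ring
  · have h : al x = be y := hxy
    refine E2_key hq hs hv (hs0 x) (z := al x) (Or.inl (E2_root al x)) ?_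
    have hb : (PA be).eval (al x) = 0 := by rw [h]; exact E2_root be y
    rw [E2_r, E2_root al x, hb]
    ring
  · have h : be x = al y := hxy
    refine E2_key hq hs hv (hs0 y) (z := al y) (Or.inl (E2_root al y)) ?_
    have hb : (PA be).eval (al y) = 0 := by rw [← h]; exact E2_root be x
    rw [E2_r, E2_root al y, hb]
    ring
  · have h : be x = be y := hxy
    have hxy' : x ≠ y := fun hh => hne (by rw [hh])
    refine E2_key hq hs hv (hb0 x) (z := be x) (Or.inr (E2_root be x)) ?_
    rw [E2_r, E2_dbl be hxy' h, E2_root be x]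
    ring

theorem sol_ne [CharZero K] {e q s b a : ℕ} (hq : 1 ≤ q) {al : Fin s → K} {be : Fin b → K} {c : Fin a → K}
    {v : Fin a → K} (hs : Sol e q al be c v) (hv : ∀ i, v i ≠ 0) (i : Fin a) :
    (PA al).eval (c i) ≠ 0 ∧ (PA be).eval (c i) ≠ 0 := by
  have h1 := hs.val i
  rw [E2_q] at h1
  refine ⟨fun h => hv i ?_, fun h => hv i ?_⟩
  · rw [← h1, h, zero_mul]
  · rw [← h1, h, zero_pow (by omega), mul_zero]

end Pool.Agent.LibEX36
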