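import Pool.Agent.LibEX36.E0

/-!
[EX36 E3] Reduction of polynomials and solutions at a place. `RP w F G`: coefficientwise reduction. Closed under products, sums, derivative, powers, `X - C`;
`val_add`, `val_mul`, `val_const`, `val_unique` of LibBH2/Place.lean. `rp_eval`: reduction of values. `sol_red`: the reduction of a solution is a solution.
-/

open scoped Classical

namespace Pool.Agent.LibEX36

open Polynomial
open Pool.Agent.LibBH2
open Pool.Agent.LibCHd (FunF)

variable {K : Type} [Field K] {L : Type} [Field L] [Algebra K L]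

/-- `G` is the reduction of `F` at `w`, coefficient by coefficient -/
def RP (w : Place K L) (F : L[X]) (G : K[X]) : Prop := ∀ i, w.Zer (F.coeff i - algebraMap K L (G.coeff i))

private theorem E3_sum {w : Place K L} {ι : Type} (S : Finset ι) {f : ι → L} {g : ι → K}
    (h : ∀ i ∈ S, w.Zer (f i - algebraMap K L (g i))) :
    w.Zer (∑ i ∈ S, f i - algebraMap K L (∑ i ∈ S, g i)) := by
  induction S using Finset.induction_on with
  | empty =>
    rw [Finset.sum_empty, Finset.sum_empty, map_zero, sub_zero]
    exact w.zer_zero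
  | insert j S hj ih =>
    rw [Finset.sum_insert hj, Finset.sum_insert hj]
    exact Place.val_add (h j (Finset.mem_insert_self j S))
      (ih fun i hi => h i (Finset.mem_insert_of_mem hi))

private theorem E3_zero (w : Place K L) : w.Zer ((0 : L) - algebraMap K L 0) := by
  rw [map_zero, sub_zero]
  exact w.zer_zero

private theorem E3_nat (w : Place K L) (n : ℕ) : w.Zer ((n : L) - algebraMap K L (n : K)) := by
  rw [map_natCast, sub_self]
  exact w.zer_zero

theorem rp_add {w : Place K L} {F F' : L[X]} {G G' : K[X]} (h : RP w F G) (h' : RP w F' G') : RP w (F + F') (G + G') := by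
  intro i
  rw [coeff_add, coeff_add]
  exact Place.val_add (h i) (h' i)

theorem rp_mul {w : Place K L} {F F' : L[X]} {G G' : K[X]} (h : RP w F G) (h' : RP w F' G') : RP w (F * F') (G * G') := by
  intro i
  rw [coeff_mul, coeff_mul]
  exact E3_sum _ fun x _ => Place.val_mul (h x.1) (h' x.2)

theorem rp_C {w : Place K L} {x : L} {c : K} (h : w.Zer (x - algebraMap K L c)) : RP w (C x) (C c) := by
  intro i
  rw [coeff_C, coeff_C]
  split_ifs
  · exact h
  · exact E3_zero w

private theorem E3_one (w : Place K L) : RP w 1 1 := by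
  have h := rp_C (w := w) (x := (1 : L)) (c := (1 : K)) (by
    rw [map_one, sub_self]
    exact w.zer_zero)
  rwa [C_1, C_1] at h

theorem rp_X (w : Place K L) : RP w X X := by
  intro i
  rw [coeff_X, coeff_X]
  split_ifs
  · rw [map_one, sub_self]
    exact w.zer_zero
  · exact E3_zero w

theorem rp_pow {w : Place K L} {F : L[X]} {G : K[X]} (h : RP w F G) (n : ℕ) : RP w (F ^ n) (G ^ n) := by
  induction n with
  | zero =>
    rw [pow_zero, pow_zero]
    exact E3_one w
  | succ n ih =>
    rw [pow_succ, pow_succ]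
    exact rp_mul ih h

theorem rp_prod {w : Place K L} {ι : Type} (S : Finset ι) {F : ι → L[X]} {G : ι → K[X]} (h : ∀ i ∈ S, RP w (F i) (G i)) :
    RP w (∏ i ∈ S, F i) (∏ i ∈ S, G i) := by
  induction S using Finset.induction_on with
  | empty =>
    rw [Finset.prod_empty, Finset.prod_empty]
    exact E3_one w
  | insert j S hj ih =>
    rw [Finset.prod_insert hj, Finset.prod_insert hj]
    exact rp_mul (h j (Finset.mem_insert_self j S)) (ih fun i hi => h i (Finset.mem_insert_of_mem hi))

theorem rp_deriv {w : Place K L} {F : L[X]} {G : K[X]} (h : RP w F G) : RP w (derivative F) (derivative G) := by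
  intro i
  rw [coeff_derivative, coeff_derivative]
  have h1 := E3_nat w (i + 1)
  rw [Nat.cast_succ, Nat.cast_succ] at h1
  exact Place.val_mul (h (i + 1)) h1

theorem rp_unique {w : Place K L} {F : L[X]} {G G' : K[X]} (h : RP w F G) (h' : RP w F G') : G = G' := by
  ext i
  exact Place.val_unique (h i) (h' i)

theorem rp_eval {w : Place K L} {F : L[X]} {G : K[X]} (h : RP w F G) {x : L} {c : K} (hx : w.Zer (x - algebraMap K L c)) :
    w.Zer (F.eval x - algebraMap K L (G.eval c)) := by
  obtain ⟨N, hN⟩ : ∃ N : ℕ, N = max F.natDegree G.natDegree + 1 := ⟨_, rfl⟩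
  have hF : F.natDegree < N := by
    have := le_max_left F.natDegree G.natDegree
    omega
  have hG : G.natDegree < N := by
    have := le_max_right F.natDegree G.natDegree
    omega
  rw [eval_eq_sum_range' hF, eval_eq_sum_range' hG]
  exact E3_sum _ fun i _ => Place.val_mul (h i) (Place.val_pow hx i)

private theorem E3_sub {w : Place K L} {F F' : L[X]} {G G' : K[X]} (h : RP w F G) (h' : RP w F' G') :
    RP w (F - F') (G - G') := by
  intro i
  rw [coeff_sub, coeff_sub]
  exact Place.val_sub (h i) (h' i)

private theorem E3_pa {w : Place K L} {s : ℕ} {al : Fin s → L} {al0 : Fin s → K}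
    (h1 : ∀ i, w.Zer (al i - algebraMap K L (al0 i))) : RP w (PA al) (PA al0) :=
  rp_prod _ fun i _ => E3_sub (rp_X w) (rp_C (h1 i))

private theorem E3_natp (w : Place K L) (q : ℕ) : RP w (q : L[X]) (q : K[X]) := by
  have h := rp_C (E3_nat w q)
  rwa [C_eq_natCast, C_eq_natCast] at h

theorem sol_red {w : Place K L} {e q s b a : ℕ} {al : Fin s → L} {be : Fin b → L} {c v : Fin a → L} {al0 : Fin s → K}
    {be0 : Fin b → K} {c0 v0 : Fin a → K} (hs : Sol e q al be c v) (h1 : ∀ i, w.Zer (al i - algebraMap K L (al0 i)))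
    (h2 : ∀ i, w.Zer (be i - algebraMap K L (be0 i))) (h3 : ∀ i, w.Zer (c i - algebraMap K L (c0 i)))
    (h4 : ∀ i, w.Zer (v i - algebraMap K L (v0 i))) : Sol e q al0 be0 c0 v0 := by
  refine ⟨?_, ?_, fun i => ?_⟩
  · have h5 := Place.val_add (E3_sum Finset.univ fun i _ => h1 i)
      (Place.val_mul (E3_nat w q) (E3_sum Finset.univ fun i _ => h2 i))
    rw [hs.nrm] at h5
    exact Place.val_unique h5 (E3_zero w)
  · have h5 : RP w (RR q al be) (RR q al0 be0) :=
      rp_add (rp_mul (rp_deriv (E3_pa h1)) (E3_pa h2))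
        (rp_mul (rp_mul (E3_natp w q) (E3_pa h1)) (rp_deriv (E3_pa h2)))
    have h6 : RP w (C ((s + q * b : ℕ) : L) * PA c ^ e) (C ((s + q * b : ℕ) : K) * PA c0 ^ e) :=
      rp_mul (rp_C (E3_nat w _)) (rp_pow (E3_pa h3) e)
    rw [← hs.der] at h6
    exact rp_unique h5 h6
  · have h5 : w.Zer ((QQ q al be).eval (c i) - algebraMap K L ((QQ q al0 be0).eval (c0 i))) :=
      rp_eval (rp_mul (E3_pa h1) (rp_pow (E3_pa h2) q)) (h3 i)
    rw [hs.val i] at h5
    exact Place.val_unique h5 (h4 i)

end Pool.Agent.LibEX36
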