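import Pool.Agent.LibEX36.E1a
import Pool.Agent.LibEX36.E3

/-!
[EX36 E4] Orders of the coordinates of a solution over a function field. If all values `v i` are `0` or have order `≥ m`, then all coordinates `z`
are `0` or `n * w.ord z ≥ m`, `n = s + q b`. Proof: otherwise let `u ≠ 0` be the coordinate (among all `al`, `be`, `c`) of smallest order; `n * w.ord u < m`; `sol_scale` with
`l = u⁻¹`: all coordinates are regular at `w`, the values have positive order (`Zer`); by `Pool.Agent.LibCHd.exists_val` (`j = AlgHom.id`, `FunF.trdeg` as in LibVT36/A3.lean; the hypothesis `hP` by `w.exists_uniformizer`) all coordinates have values in `K`; `sol_red`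
gives a solution over `K` with the values `0`, so all its coordinates are `0` (`sol_zero`), but the coordinate `u⁻¹ u = 1` has the value `1`.
`sol_vals`: if all `v i` have values `v0 i`, then all coordinates have values in `K` (regular by the first part with `m = 0`), and these are a solution with the values `v0`.
-/

open scoped Classical

namespace Pool.Agent.LibEX36

open Polynomial
open Pool.Agent.LibBH2
open Pool.Agent.LibCHd (FunF)

variable {K : Type} [Field K] {L : Type} [Field L] [Algebra K L]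

private theorem e4_val [IsAlgClosed K] (hL : FunF K 1 L) (w : Place K L) {x : L} (hx : w.Reg x) :
    ∃ c : K, w.Zer (x - algebraMap K L c) := by
  have h1 : Algebra.trdeg K L ≤ 1 := by
    rw [hL.trdeg]
    simp
  have h2 : ∃ m, w.ord ((AlgHom.id K L) m) ≠ 0 := by
    obtain ⟨t, ht⟩ := w.exists_uniformizer
    exact ⟨t, by simp [ht]⟩
  exact Pool.Agent.LibCHd.exists_val h1 (AlgHom.id K L) w h2 x hx

private theorem e4_all [IsAlgClosed K] [CharZero K] (hL : FunF K 1 L) (w : Place K L) {e q s b a : ℕ} (he : 1 ≤ e)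
    (hq : 1 ≤ q) (ha : 1 ≤ a) (h : a * e + 1 = s + b) {al : Fin s → L} {be : Fin b → L} {c v : Fin a → L}
    (hs : Sol e q al be c v) {m : ℤ} (hv : ∀ i, v i = 0 ∨ m ≤ w.ord (v i)) (i : Fin s ⊕ (Fin b ⊕ Fin a)) :
    Sum.elim al (Sum.elim be c) i = 0 ∨
      m ≤ (s + q * b : ℕ) * w.ord (Sum.elim al (Sum.elim be c) i) := by
  obtain ⟨z, hz⟩ : ∃ z : Fin s ⊕ (Fin b ⊕ Fin a) → L, z = Sum.elim al (Sum.elim be c) := ⟨_, rfl⟩
  rw [← hz]
  by_contra hcon
  push Not at hcon
  obtain ⟨hi0, him⟩ := hcon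
  have hne : (Finset.univ.filter fun j => z j ≠ 0).Nonempty := ⟨i, by simp [hi0]⟩
  obtain ⟨j, hj, hmin⟩ := Finset.exists_min_image _ (fun j => w.ord (z j)) hne
  have hj0 : z j ≠ 0 := (Finset.mem_filter.1 hj).2
  have hmin' : ∀ k, z k ≠ 0 → w.ord (z j) ≤ w.ord (z k) := fun k hk =>
    hmin k (Finset.mem_filter.2 ⟨Finset.mem_univ _, hk⟩)
  have hjm : ((s + q * b : ℕ) : ℤ) * w.ord (z j) < m :=
    lt_of_le_of_lt (mul_le_mul_of_nonneg_left (hmin' i hi0) (Int.natCast_nonneg _)) him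
  have hsc := sol_scale h hs (inv_ne_zero hj0)
  have hreg : ∀ k, w.Reg ((z j)⁻¹ * z k) := by
    intro k
    by_cases hk : z k = 0
    · exact Or.inl (by rw [hk, mul_zero])
    · refine Or.inr ?_
      rw [w.ord_mul _ _ (inv_ne_zero hj0) hk, w.ord_inv]
      have := hmin' k hk
      linarith
  choose z0 hz0 using fun k => e4_val hL w (hreg k)
  have hvz : ∀ k, w.Zer ((z j)⁻¹ ^ (s + q * b) * v k - algebraMap K L ((fun _ => (0 : K)) k)) := by
    intro k
    simp only [map_zero, sub_zero]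
    by_cases hk : v k = 0
    · exact Or.inl (by rw [hk, mul_zero])
    · refine Or.inr ?_
      rw [w.ord_mul _ _ (pow_ne_zero _ (inv_ne_zero hj0)) hk, w.ord_pow, w.ord_inv]
      have := (hv k).resolve_left hk
      linarith
  have hr := sol_red (al0 := fun k => z0 (Sum.inl k)) (be0 := fun k => z0 (Sum.inr (Sum.inl k)))
    (c0 := fun k => z0 (Sum.inr (Sum.inr k))) hsc
    (fun k => by have := hz0 (Sum.inl k); rw [hz] at this ⊢; exact this)
    (fun k => by have := hz0 (Sum.inr (Sum.inl k)); rw [hz] at this ⊢; exact this)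
    (fun k => by have := hz0 (Sum.inr (Sum.inr k)); rw [hz] at this ⊢; exact this) hvz
  obtain ⟨g1, g2, g3⟩ := sol_zero he hq ha h hr
  have hall : ∀ k, z0 k = 0 := by
    rintro (k | k | k)
    · exact congrFun g1 k
    · exact congrFun g2 k
    · exact congrFun g3 k
  have h5 := hz0 j
  rw [inv_mul_cancel₀ hj0, hall j, map_zero, sub_zero] at h5
  rcases h5 with h5 | h5
  · exact one_ne_zero h5
  · rw [w.ord_one] at h5
    exact lt_irrefl _ h5

theorem sol_bound [IsAlgClosed K] [CharZero K] (hL : FunF K 1 L) (w : Place K L) {e q s b a : ℕ} (he : 1 ≤ e) (hq : 1 ≤ q)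
    (ha : 1 ≤ a) (h : a * e + 1 = s + b) {al : Fin s → L} {be : Fin b → L} {c v : Fin a → L} (hs : Sol e q al be c v) {m : ℤ}
    (hv : ∀ i, v i = 0 ∨ m ≤ w.ord (v i)) :
    (∀ i, al i = 0 ∨ m ≤ (s + q * b : ℕ) * w.ord (al i)) ∧ (∀ i, be i = 0 ∨ m ≤ (s + q * b : ℕ) * w.ord (be i)) ∧
      ∀ i, c i = 0 ∨ m ≤ (s + q * b : ℕ) * w.ord (c i) := by
  have h1 := e4_all hL w he hq ha h hs hv
  exact ⟨fun i => h1 (Sum.inl i), fun i => h1 (Sum.inr (Sum.inl i)), fun i => h1 (Sum.inr (Sum.inr i))⟩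

theorem sol_vals [IsAlgClosed K] [CharZero K] (hL : FunF K 1 L) (w : Place K L) {e q s b a : ℕ} (he : 1 ≤ e) (hq : 1 ≤ q)
    (ha : 1 ≤ a) (h : a * e + 1 = s + b) {al : Fin s → L} {be : Fin b → L} {c v : Fin a → L} (hs : Sol e q al be c v)
    {v0 : Fin a → K} (hv : ∀ i, w.Zer (v i - algebraMap K L (v0 i))) :
    ∃ (al0 : Fin s → K) (be0 : Fin b → K) (c0 : Fin a → K), (∀ i, w.Zer (al i - algebraMap K L (al0 i))) ∧
      (∀ i, w.Zer (be i - algebraMap K L (be0 i))) ∧ (∀ i, w.Zer (c i - algebraMap K L (c0 i))) ∧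
      Sol e q al0 be0 c0 v0 := by
  have hv' : ∀ i, v i = 0 ∨ (0 : ℤ) ≤ w.ord (v i) := fun i => Place.reg_of_val (hv i)
  have h1 := sol_bound hL w he hq ha h hs hv'
  have hn : (0 : ℤ) < ((s + q * b : ℕ) : ℤ) := by
    have h2 : b ≤ q * b := Nat.le_mul_of_pos_left b hq
    have h3 : 0 < s + q * b := by omega
    exact_mod_cast h3
  have hreg : ∀ z : L, (z = 0 ∨ (0 : ℤ) ≤ ((s + q * b : ℕ) : ℤ) * w.ord z) → w.Reg z := by
    intro z hz
    rcases hz with hz | hz
    · exact Or.inl hz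
    · exact Or.inr (nonneg_of_mul_nonneg_right hz hn)
  choose al0 h2 using fun i => e4_val hL w (hreg _ (h1.1 i))
  choose be0 h3 using fun i => e4_val hL w (hreg _ (h1.2.1 i))
  choose c0 h4 using fun i => e4_val hL w (hreg _ (h1.2.2 i))
  exact ⟨al0, be0, c0, h2, h3, h4, sol_red hs h2 h3 h4 hv⟩

end Pool.Agent.LibEX36
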