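import Pool.Agent.LibEX36.E3

/-!
[EX36 E5a] Local expansion. `w` a place of `L`, a solution over `L` with residues `be0`, `c0` of `be`, `c`; `I` a set of indices, `o ∈ I`, `u ≠ 0` of positive order,
`γ i` the residue of `(c i - c o) / u` for `i ∈ I`; `c0 i ≠ c0 o` for `i ∉ I`; `B0(c0 o) ≠ 0`. Then `(v i - v o) / u ^ (e #I + 1)` has the residue `G(γ i)`, where
`G(0) = 0`, `G' = κ ∏_(i ∈ I) (X - γ i) ^ e`, `κ ≠ 0`.
Proof. In `L[X]`: `F = (QQ q al be).comp (C (c o) + C u * X) - C (v o)` has `F.eval ((c i - c o)/u) = v i - v o` and `F(0) = 0`;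
`F' = C u * ((PA be)^(q-1) * R)(c o + u X)` (`qq_deriv`, `der`) `= C (u ^ (e #I + 1)) * H`,
`H = C n * (PA be).comp(..)^(q-1) * ∏_(i ∉ I) (C (c o - c i) + C u * X)^e * ∏_(i ∈ I) (X - C ((c i - c o)/u))^e`. `H` reduces (`RP`, E3) to
`C κ * (∏_(i ∈ I) (X - C (γ i)))^e`, `κ = n B0(c0 o)^(q-1) ∏_(i ∉ I) (c0 o - c0 i)^e` (`u` has residue `0`, `(PA be).comp(..)` reduces to the constant `B0(c0 o)`).
Antiderivatives: `prim F = ∑ k, C (F.coeff k / (k+1)) * X^(k+1)` over `range (natDegree + 1)`; `derivative (prim F) = F`, `(prim F).eval 0 = 0`, `RP w F G → RP w (prim F) (prim G)`.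
`F - C (u^N) * prim H` has derivative `0` and value `0` at `0`, so it is `0` (characteristic zero). Evaluate.
-/

open scoped Classical

namespace Pool.Agent.LibEX36

open Polynomial
open Pool.Agent.LibBH2
open Pool.Agent.LibCHd (FunF)

variable {K : Type} [Field K] {L : Type} [Field L] [Algebra K L]

/-- antiderivative with value zero at zero, truncated at `N` -/
private noncomputable def E5a_prim {R : Type} [Field R] (N : ℕ) (F : R[X]) : R[X] :=
  ∑ k ∈ Finset.range N, C (F.coeff k / ((k : R) + 1)) * X ^ (k + 1)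

private lemma E5a_coeff_zero {R : Type} [Field R] (N : ℕ) (F : R[X]) : (E5a_prim N F).coeff 0 = 0 := by
  rw [E5a_prim, finsetSum_coeff]
  refine Finset.sum_eq_zero fun k _ => ?_
  rw [coeff_C_mul, coeff_X_pow, if_neg (by omega), mul_zero]

private lemma E5a_coeff_succ {R : Type} [Field R] (N : ℕ) (F : R[X]) (m : ℕ) :
    (E5a_prim N F).coeff (m + 1) = if m < N then F.coeff m / ((m : R) + 1) else 0 := by
  rw [E5a_prim, finsetSum_coeff]
  by_cases h : m < N
  · rw [if_pos h, Finset.sum_eq_single m]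
    · rw [coeff_C_mul, coeff_X_pow, if_pos rfl, mul_one]
    · intro k _ hk
      rw [coeff_C_mul, coeff_X_pow, if_neg (by omega), mul_zero]
    · intro h'
      exact absurd (Finset.mem_range.2 h) h'
  · rw [if_neg h]
    refine Finset.sum_eq_zero fun k hk => ?_
    rw [Finset.mem_range] at hk
    rw [coeff_C_mul, coeff_X_pow, if_neg (by omega), mul_zero]

private lemma E5a_deriv {R : Type} [Field R] [CharZero R] (N : ℕ) (F : R[X]) (hN : F.natDegree < N) :
    derivative (E5a_prim N F) = F := by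
  ext m
  rw [coeff_derivative, E5a_coeff_succ]
  by_cases h : m < N
  · rw [if_pos h, div_mul_cancel₀]
    exact_mod_cast Nat.succ_ne_zero m
  · rw [if_neg h, zero_mul, coeff_eq_zero_of_natDegree_lt (by omega)]

private lemma E5a_eval_zero {R : Type} [Field R] (N : ℕ) (F : R[X]) : (E5a_prim N F).eval 0 = 0 := by
  rw [← coeff_zero_eq_eval_zero, E5a_coeff_zero]

private lemma E5a_rp {w : Place K L} {F : L[X]} {G : K[X]} (h : RP w F G) (N : ℕ) :
    RP w (E5a_prim N F) (E5a_prim N G) := by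
  intro m
  rcases m with _ | m
  · rw [E5a_coeff_zero, E5a_coeff_zero, map_zero, sub_zero]
    exact Or.inl rfl
  · rw [E5a_coeff_succ, E5a_coeff_succ]
    by_cases hm : m < N
    · rw [if_pos hm, if_pos hm, div_eq_mul_inv, div_eq_mul_inv]
      have h1 := Place.val_const (v := w) (((m : K) + 1)⁻¹)
      have h2 := Place.val_mul (h m) h1
      have h3 : algebraMap K L (((m : K) + 1)⁻¹) = ((m : L) + 1)⁻¹ := by
        rw [map_inv₀, map_add, map_natCast, map_one]
      rwa [h3] at h2
    · rw [if_neg hm, if_neg hm, map_zero, sub_zero]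
      exact Or.inl rfl

private lemma E5a_lin {w : Place K L} {x u : L} {c : K} (hx : w.Zer (x - algebraMap K L c)) (hu : w.Zer u) :
    RP w (C x + C u * X) (C c) := by
  have h0 : w.Zer (u - algebraMap K L 0) := by rw [map_zero, sub_zero]; exact hu
  have h := rp_add (rp_C hx) (rp_mul (rp_C h0) (rp_X w))
  rwa [map_zero, zero_mul, add_zero] at h

private lemma E5a_sub {w : Place K L} {x y : L} {c d : K} (hx : w.Zer (x - algebraMap K L c))
    (hy : w.Zer (y - algebraMap K L d)) : w.Zer (x - y - algebraMap K L (c - d)) := by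
  have h := hx.sub hy
  have e : x - algebraMap K L c - (y - algebraMap K L d) = x - y - algebraMap K L (c - d) := by
    rw [map_sub]; ring
  rwa [e] at h

theorem local_exp [CharZero K] (w : Place K L) {e q s b a : ℕ} (hq : 1 ≤ q) (hn : 1 ≤ s + q * b) {al : Fin s → L}
    {be : Fin b → L} {c v : Fin a → L} (hs : Sol e q al be c v) {be0 : Fin b → K} {c0 : Fin a → K}
    (h2 : ∀ i, w.Zer (be i - algebraMap K L (be0 i))) (h3 : ∀ i, w.Zer (c i - algebraMap K L (c0 i)))
    (I : Finset (Fin a)) {o : Fin a} (ho : o ∈ I) {u : L} (hu : u ≠ 0) (hu' : w.Zer u) {γ : Fin a → K}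
    (hγ : ∀ i ∈ I, w.Zer ((c i - c o) / u - algebraMap K L (γ i))) (hI : ∀ i, i ∉ I → c0 i ≠ c0 o)
    (hB : (PA be0).eval (c0 o) ≠ 0) :
    ∃ (κ : K) (G : K[X]), κ ≠ 0 ∧ derivative G = C κ * (∏ i ∈ I, (X - C (γ i))) ^ e ∧ G.eval 0 = 0 ∧
      ∀ i ∈ I, w.Zer ((v i - v o) / u ^ (e * I.card + 1) - algebraMap K L (G.eval (γ i))) := by
  haveI : CharZero L := charZero_of_injective_algebraMap (algebraMap K L).injective
  set A : L[X] := C (c o) + C u * X with hA
  set PB : L[X] := ∏ j, (C (c o - be j) + C u * X) with hPB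
  set P1 : L[X] := ∏ i ∈ I, (X - C ((c i - c o) / u)) with hP1
  set P2 : L[X] := ∏ i ∈ Iᶜ, (C (c o - c i) + C u * X) with hP2
  set n : ℕ := s + q * b with hndef
  have eB : (PA be).comp A = PB := by
    rw [PA, prod_comp, hPB]
    refine Finset.prod_congr rfl fun j _ => ?_
    rw [sub_comp, X_comp, C_comp, hA, map_sub]
    ring
  have eC : (PA c).comp A = C (u ^ I.card) * (P1 * P2) := by
    rw [PA, prod_comp, ← Finset.prod_mul_prod_compl I, hP1, hP2, map_pow, ← Finset.prod_const, ← mul_assoc,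
      ← Finset.prod_mul_distrib]
    congr 1
    · refine Finset.prod_congr rfl fun i _ => ?_
      rw [sub_comp, X_comp, C_comp, hA, mul_sub, ← C_mul, mul_div_cancel₀ _ hu, map_sub]
      ring
    · refine Finset.prod_congr rfl fun i _ => ?_
      rw [sub_comp, X_comp, C_comp, hA, map_sub]
      ring
  set H : L[X] := PB ^ (q - 1) * (C (n : L) * (P1 ^ e * P2 ^ e)) with hH
  set F : L[X] := (QQ q al be).comp A - C (v o) with hF
  have dA : derivative A = C u := by
    rw [hA, derivative_add, derivative_C, zero_add, derivative_C_mul, derivative_X, mul_one]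
  have dF : derivative F = C (u ^ (e * I.card + 1)) * H := by
    rw [hF, derivative_sub, derivative_C, sub_zero, derivative_comp, dA, qq_deriv hq, hs.der, mul_comp, pow_comp, eB,
      mul_comp, C_comp, pow_comp, eC, hH, ← hndef]
    have e3 : (C (u ^ (e * I.card + 1)) : L[X]) = C u * C (u ^ I.card) ^ e := by
      rw [← map_pow, ← map_mul, ← pow_mul, mul_comm I.card e, pow_succ']
    rw [e3, mul_pow, mul_pow]
    ring
  set B0 : K := (PA be0).eval (c0 o) with hB0
  set D0 : K := ∏ i ∈ Iᶜ, (c0 o - c0 i) with hD0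
  set κ : K := B0 ^ (q - 1) * ((n : K) * D0 ^ e) with hκ
  have rB : RP w PB (C B0) := by
    have h : RP w PB (∏ j, C (c0 o - be0 j)) := rp_prod Finset.univ fun j _ => E5a_lin (E5a_sub (h3 o) (h2 j)) hu'
    have e1 : C B0 = ∏ j, C (c0 o - be0 j) := by
      rw [hB0, PA, eval_prod, map_prod]
      refine Finset.prod_congr rfl fun j _ => ?_
      rw [eval_sub, eval_X, eval_C]
    rwa [e1]
  have r1 : RP w P1 (∏ i ∈ I, (X - C (γ i))) := by
    refine rp_prod I fun i hi => ?_
    have h := rp_add (rp_X w) (rp_mul (rp_C (Place.val_const (v := w) (-1 : K))) (rp_C (hγ i hi)))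
    have e1 : (X : L[X]) + C (algebraMap K L (-1)) * C ((c i - c o) / u) = X - C ((c i - c o) / u) := by
      rw [map_neg, map_one, map_neg, map_one]; ring
    have e2 : (X : K[X]) + C (-1 : K) * C (γ i) = X - C (γ i) := by
      rw [map_neg, map_one]; ring
    rwa [e1, e2] at h
  have r2 : RP w P2 (C D0) := by
    have h : RP w P2 (∏ i ∈ Iᶜ, C (c0 o - c0 i)) :=
      rp_prod (Iᶜ) fun i _ => E5a_lin (E5a_sub (h3 o) (h3 i)) hu'
    rwa [hD0, map_prod]
  have rn : RP w (C (n : L)) (C (n : K)) := by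
    have h := Place.val_const (v := w) ((n : ℕ) : K)
    rw [map_natCast] at h
    refine rp_C ?_
    rw [map_natCast]
    exact h
  have rH : RP w H (C κ * (∏ i ∈ I, (X - C (γ i))) ^ e) := by
    have h := rp_mul (rp_pow rB (q - 1)) (rp_mul rn (rp_mul (rp_pow r1 e) (rp_pow r2 e)))
    have e1 : C B0 ^ (q - 1) * (C (n : K) * ((∏ i ∈ I, (X - C (γ i))) ^ e * C D0 ^ e)) =
        C κ * (∏ i ∈ I, (X - C (γ i))) ^ e := by
      rw [hκ]
      simp only [map_mul, map_pow]
      ring
    rwa [e1] at h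
  set N : ℕ := max H.natDegree (C κ * (∏ i ∈ I, (X - C (γ i))) ^ e : K[X]).natDegree + 1 with hN
  have hκ0 : κ ≠ 0 := by
    have h1 : (n : K) ≠ 0 := by
      have : n ≠ 0 := by omega
      exact_mod_cast this
    have h2 : D0 ≠ 0 := by
      rw [hD0, Finset.prod_ne_zero_iff]
      intro i hi
      exact sub_ne_zero.2 (hI i (Finset.mem_compl.1 hi)).symm
    exact mul_ne_zero (pow_ne_zero _ hB) (mul_ne_zero h1 (pow_ne_zero _ h2))
  refine ⟨κ, E5a_prim N (C κ * (∏ i ∈ I, (X - C (γ i))) ^ e), hκ0, ?_, ?_, ?_⟩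
  · exact E5a_deriv N _ (by rw [hN]; exact Nat.lt_succ_of_le (le_max_right _ _))
  · exact E5a_eval_zero N _
  have hP : derivative (E5a_prim N H) = H :=
    E5a_deriv N _ (by rw [hN]; exact Nat.lt_succ_of_le (le_max_left _ _))
  have hF0 : F.eval 0 = 0 := by
    rw [hF, eval_sub, eval_comp, eval_C, hA, eval_add, eval_C, eval_mul, eval_X, mul_zero, add_zero, hs.val, sub_self]
  have hFP : F = C (u ^ (e * I.card + 1)) * E5a_prim N H := by
    have hd : derivative (F - C (u ^ (e * I.card + 1)) * E5a_prim N H) = 0 := by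
      rw [derivative_sub, derivative_C_mul, hP, dF, sub_self]
    have hdeg := derivative_eq_zero.1 hd
    have hC := eq_C_of_natDegree_eq_zero hdeg
    have hv : (F - C (u ^ (e * I.card + 1)) * E5a_prim N H).eval 0 = 0 := by
      rw [eval_sub, eval_mul, E5a_eval_zero, mul_zero, hF0, sub_zero]
    rw [hC, eval_C] at hv
    rw [hv, map_zero] at hC
    exact sub_eq_zero.1 hC
  intro i hi
  have hy : F.eval ((c i - c o) / u) = v i - v o := by
    rw [hF, eval_sub, eval_comp, eval_C, hA, eval_add, eval_C, eval_mul, eval_C, eval_X, mul_div_cancel₀ _ hu,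
      add_sub_cancel, hs.val]
  have hy2 : (v i - v o) / u ^ (e * I.card + 1) = (E5a_prim N H).eval ((c i - c o) / u) := by
    rw [← hy, hFP, eval_mul, eval_C, mul_div_cancel_left₀ _ (pow_ne_zero _ hu)]
  rw [hy2]
  exact rp_eval (E5a_rp rH N) (hγ i hi)

end Pool.Agent.LibEX36
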