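import Pool.Agent.LibEX36.E2
import Pool.Agent.LibEX36.E4
import Pool.Agent.LibEX36.E5a

/-!
[EX36 E5] Clusters. `J` the indices with value `1`, `c` different on `J`; `o ∉ J`, `v o ≠ 1` with residue `1`; all other values are constants `≠ 1`. Then the residues `c0` of the `c i`,
`i ∈ insert o J`, are different, or `w.ord (v o - 1) ≤ (2 e + 1) * ∑ i ∈ J, w.ord (c o - c i)`.
Proof. `v0 i` = residue of `v i` (`1` on `insert o J`); `sol_vals`: residues `al0, be0, c0'`, `c0' = c0` (`val_unique`), `Sol` over `K`. Suppose `i ≠ i'` in `insert o J`,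
`c0 i = c0 i'`. `I = {m | c0 m = c0 i}`; for `m ∈ I`: `v0 m = Q0(c0 m) = v0 i = 1`, so `m ∈ insert o J`. For `m ≠ m'` in `I`: `c m ≠ c m'` (both in `J`, or the values `v o ≠ 1`
differ). Choose `(m1, m2)`, `m1 ≠ m2` in `I`, with `μ = w.ord (c m1 - c m2)` minimal (`Finset.exists_min_image`), `u = c m1 - c m2`, `μ > 0`. All `(c m - c o') / u`, `m, o' ∈ I`, are
regular, so have values (`exists_val`, as in E4). `B0(c0 o') ≠ 0` as `Q0(c0 o') = 1` (`sol_ne` for the solution over `K` with values `v0 ≠ 0`; or from `val`).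
Case `o ∉ I`: `local_exp` with the centre `m1`: `v m - v m1 = 0` for `m ∈ I`, so `G(γ m) = 0` for all `m ∈ I`; `crit_one` (index type `I`): all `γ m` are equal, but
`γ m1 = 0`, `γ m2 = -1`. Contradiction.
Case `o ∈ I`: centre `o`. If `w.ord (v o - 1) > N μ`, `N = e #I + 1`, then again `G(γ m) = 0` for all `m ∈ I` (`m = o`: `γ o = 0`, `G(0) = 0`), and `γ m1 - γ m2 = 1`: contradiction with
`crit_one`. So `w.ord (v o - 1) ≤ N μ`; `∑_(i ∈ J) w.ord (c o - c i) ≥ (#I - 1) μ` (terms with `i ∈ I`, the others are `≥ 0` by regularity), and `(2e+1)(#I - 1) ≥ e #I + 1` as `#I ≥ 2`.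
(`e ≥ 1`, `al`, `be`, `c` regular.) The hypotheses `v i ≠ 0` are needed only for `sol_ne`.
-/

open scoped Classical

namespace Pool.Agent.LibEX36

open Polynomial
open Pool.Agent.LibBH2
open Pool.Agent.LibCHd (FunF)

variable {K : Type} [Field K] {L : Type} [Field L] [Algebra K L]

theorem e5_exv [IsAlgClosed K] (hL : FunF K 1 L) (w : Place K L) {f : L} (hr : w.Reg f) :
    ∃ c : K, w.Zer (f - algebraMap K L c) := by
  obtain ⟨t, ht⟩ := w.exists_uniformizer
  exact Pool.Agent.LibCHd.exists_val (by rw [hL.trdeg]; simp) (AlgHom.id K L) w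
    ⟨t, by simp [ht]⟩ f hr

/-- the contradiction: all `G (γ i) = 0` and two values of `γ` differ -/
theorem e5_crit [CharZero K] {a e : ℕ} (he : 1 ≤ e) (I : Finset (Fin a)) {γ : Fin a → K} {κ : K} (hκ : κ ≠ 0)
    {G : K[X]} (hd : derivative G = C κ * (∏ i ∈ I, (X - C (γ i))) ^ e) (hF : ∀ i ∈ I, G.eval (γ i) = 0)
    {i i' : Fin a} (hi : i ∈ I) (hi' : i' ∈ I) : γ i = γ i' := by
  have h := crit_one (I := I) he (γ := fun i => γ i) hκ (F := G)
    (by rw [hd, ← Finset.prod_coe_sort]) (fun i => hF i i.2) ⟨i, hi⟩ ⟨i', hi'⟩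
  exact h

theorem cluster [IsAlgClosed K] [CharZero K] (hL : FunF K 1 L) (w : Place K L) {e q s b a : ℕ} (he : 1 ≤ e) (hq : 1 ≤ q)
    (ha : 1 ≤ a) (h : a * e + 1 = s + b) {al : Fin s → L} {be : Fin b → L} {c v : Fin a → L} (hs : Sol e q al be c v)
    (J : Finset (Fin a)) {o : Fin a} (ho : o ∉ J) (hv1 : ∀ i ∈ J, v i = 1)
    (hJ : ∀ i ∈ J, ∀ i' ∈ J, c i = c i' → i = i') (ht : w.Zer (v o - 1)) (ht' : v o ≠ 1)
    (hvc : ∀ i, i ∉ J → i ≠ o → ∃ l : K, l ≠ 0 ∧ l ≠ 1 ∧ v i = algebraMap K L l) {c0 : Fin a → K}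
    (hc0 : ∀ i, w.Zer (c i - algebraMap K L (c0 i))) :
    (∀ i ∈ insert o J, ∀ i' ∈ insert o J, c0 i = c0 i' → i = i') ∨
      w.ord (v o - 1) ≤ (2 * e + 1 : ℕ) * ∑ i ∈ J, w.ord (c o - c i) := by
  -- the residues of the values
  have hex : ∀ i, ∃ x : K, w.Zer (v i - algebraMap K L x) ∧ x ≠ 0 ∧ (i ∈ insert o J → x = 1) ∧
      (i ∉ insert o J → x ≠ 1) := by
    intro i
    by_cases hi : i ∈ insert o J
    · refine ⟨1, ?_, one_ne_zero, fun _ => rfl, fun h => absurd hi h⟩
      rw [map_one]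
      rcases Finset.mem_insert.1 hi with rfl | hi
      · exact ht
      · rw [hv1 i hi, sub_self]
        exact w.zer_zero
    · have h1 : i ≠ o := fun h => hi (h ▸ Finset.mem_insert_self _ _)
      have h2 : i ∉ J := fun h => hi (Finset.mem_insert_of_mem h)
      obtain ⟨l, hl0, hl1, hl⟩ := hvc i h2 h1
      exact ⟨l, by rw [hl]; exact Place.val_const l, hl0, fun h => absurd h hi, fun _ => hl1⟩
  choose v0 hv0 hv00 hv01 hv02 using hex
  obtain ⟨al0, be0, c0', _, hbe0, hc0', hS⟩ := sol_vals hL w he hq ha h hs hv0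
  have hcc : c0' = c0 := funext fun i => Place.val_unique (hc0' i) (hc0 i)
  subst hcc
  have hB : ∀ i, (PA be0).eval (c0' i) ≠ 0 := fun i => (sol_ne hq hS hv00 i).2
  have hn : 1 ≤ s + q * b := by
    have : b ≤ q * b := Nat.le_mul_of_pos_left b hq
    omega
  by_cases hinj : ∀ i ∈ insert o J, ∀ i' ∈ insert o J, c0' i = c0' i' → i = i'
  · exact Or.inl hinj
  right
  push Not at hinj
  obtain ⟨i, hi, i', hi', hii, hne⟩ := hinj
  -- the cluster
  obtain ⟨I, hI⟩ : ∃ I : Finset (Fin a), I = Finset.univ.filter fun m => c0' m = c0' i := ⟨_, rfl⟩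
  have hmem : ∀ m, m ∈ I ↔ c0' m = c0' i := fun m => by rw [hI]; simp
  have hIJ : ∀ m ∈ I, m ∈ insert o J := by
    intro m hm
    by_contra hcon
    have h1 := hS.val m
    have h2 := hS.val i
    rw [(hmem m).1 hm] at h1
    have h3 : v0 m = v0 i := h1.symm.trans h2
    exact hv02 m hcon (h3.trans (hv01 i hi))
  have hcne : ∀ m ∈ I, ∀ m' ∈ I, m ≠ m' → c m ≠ c m' := by
    intro m hm m' hm' hmm hc
    rcases Finset.mem_insert.1 (hIJ m hm) with h1 | h1 <;>
      rcases Finset.mem_insert.1 (hIJ m' hm') with h2 | h2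
    · exact hmm (h1.trans h2.symm)
    · apply ht'
      rw [← h1, ← hs.val m, hc, hs.val m', hv1 m' h2]
    · apply ht'
      rw [← h2, ← hs.val m', ← hc, hs.val m, hv1 m h1]
    · exact hmm (hJ m h1 m' h2 hc)
  have hzer : ∀ m ∈ I, ∀ m' ∈ I, w.Zer (c m - c m') := by
    intro m hm m' hm'
    have h1 := Place.val_sub (hc0' m) (hc0' m')
    rw [(hmem m).1 hm, (hmem m').1 hm', sub_self, map_zero, sub_zero] at h1
    exact h1
  -- the minimal pair
  have hpi : (i, i') ∈ (I ×ˢ I).filter fun x => x.1 ≠ x.2 :=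
    Finset.mem_filter.2 ⟨Finset.mem_product.2 ⟨(hmem i).2 rfl, (hmem i').2 hii.symm⟩, hne⟩
  obtain ⟨⟨m1, m2⟩, hm12, hmin⟩ := Finset.exists_min_image ((I ×ˢ I).filter fun x => x.1 ≠ x.2)
    (fun x => w.ord (c x.1 - c x.2)) ⟨_, hpi⟩
  simp only [Finset.mem_filter, Finset.mem_product] at hm12
  obtain ⟨⟨hm1, hm2⟩, hm⟩ := hm12
  have hu : c m1 - c m2 ≠ 0 := sub_ne_zero.2 (hcne m1 hm1 m2 hm2 hm)
  have huz := hzer m1 hm1 m2 hm2
  have hμ : 0 < w.ord (c m1 - c m2) := huz.resolve_left hu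
  have hmin' : ∀ m ∈ I, ∀ m' ∈ I, m ≠ m' → w.ord (c m1 - c m2) ≤ w.ord (c m - c m') := by
    intro m hm m' hm' hmm
    exact hmin (m, m') (by simp only [Finset.mem_filter, Finset.mem_product]; exact ⟨⟨hm, hm'⟩, hmm⟩)
  have hreg : ∀ m ∈ I, ∀ m' ∈ I, w.Reg ((c m - c m') / (c m1 - c m2)) := by
    intro m hm m' hm'
    by_cases hmm : m = m'
    · subst hmm
      rw [sub_self, zero_div]
      exact w.reg_zero
    · right
      rw [w.ord_div _ _ (sub_ne_zero.2 (hcne m hm m' hm' hmm)) hu]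
      have := hmin' m hm m' hm' hmm
      omega
  -- for each centre the residues
  have hγ : ∀ z ∈ I, ∃ γ : Fin a → K, ∀ i ∈ I,
      w.Zer ((c i - c z) / (c m1 - c m2) - algebraMap K L (γ i)) := by
    intro z hz
    have : ∀ i, ∃ x : K, i ∈ I → w.Zer ((c i - c z) / (c m1 - c m2) - algebraMap K L x) := by
      intro i
      by_cases hi : i ∈ I
      · obtain ⟨x, hx⟩ := e5_exv hL w (hreg i hi z hz)
        exact ⟨x, fun _ => hx⟩
      · exact ⟨0, fun h => absurd h hi⟩
    choose γ hγ using this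
    exact ⟨γ, fun i hi => hγ i hi⟩
  -- all values of `G` zero is impossible
  have hkey : ∀ z ∈ I, ¬ ∀ m ∈ I, w.Zer ((v m - v z) / (c m1 - c m2) ^ (e * I.card + 1)) := by
    intro z hz hall
    obtain ⟨γ, hγ⟩ := hγ z hz
    have hIz : ∀ i, i ∉ I → c0' i ≠ c0' z := by
      intro i hi hiz
      exact hi ((hmem i).2 (hiz.trans ((hmem z).1 hz)))
    obtain ⟨κ, G, hκ, hd, _, hG⟩ := local_exp w hq hn hs hbe0 hc0' I hz hu huz hγ hIz (hB z)
    have hG0 : ∀ m ∈ I, G.eval (γ m) = 0 := by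
      intro m hm
      have h1 := (hall m hm).sub (hG m hm)
      rw [sub_sub_cancel] at h1
      exact (w.zer_const_iff _).1 h1
    have h1 := e5_crit he I hκ hd hG0 hm1 hm2
    have h2 := Place.val_sub (hγ m1 hm1) (hγ m2 hm2)
    rw [h1, sub_self, map_zero, sub_zero] at h2
    have h3 : (c m1 - c z) / (c m1 - c m2) - (c m2 - c z) / (c m1 - c m2) = 1 := by
      rw [← sub_div]
      rw [sub_sub_sub_cancel_right, div_self hu]
    rw [h3] at h2
    rcases h2 with h2 | h2
    · exact one_ne_zero h2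
    · rw [w.ord_one] at h2
      exact lt_irrefl _ h2
  by_cases hoI : o ∈ I
  · -- centre `o`
    have hle : w.ord (v o - 1) ≤ (e * I.card + 1 : ℕ) * w.ord (c m1 - c m2) := by
      by_contra hcon
      push Not at hcon
      apply hkey o hoI
      intro m hm
      by_cases hmo : m = o
      · subst hmo
        rw [sub_self, zero_div]
        exact w.zer_zero
      · have hmJ : m ∈ J := (Finset.mem_insert.1 (hIJ m hm)).resolve_left hmo
        rw [hv1 m hmJ]
        right
        have h1 : (1 : L) - v o = -(v o - 1) := by ring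
        have h2 : v o - 1 ≠ 0 := sub_ne_zero.2 ht'
        rw [w.ord_div _ _ (by rw [h1]; exact neg_ne_zero.2 h2) (pow_ne_zero _ hu), h1, w.ord_neg,
          w.ord_pow]
        omega
    refine hle.trans ?_
    -- the sum
    have hreg2 : ∀ i ∈ J, 0 ≤ w.ord (c o - c i) := by
      intro i _
      have h1 := (Place.reg_of_val (hc0' o)).sub (Place.reg_of_val (hc0' i))
      rcases h1 with h1 | h1
      · rw [h1, w.ord_zero]
      · exact h1
    have hsub : I.erase o ⊆ J := by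
      intro m hm
      obtain ⟨h1, h2⟩ := Finset.mem_erase.1 hm
      exact (Finset.mem_insert.1 (hIJ m h2)).resolve_left h1
    have h1 : ∑ i ∈ I.erase o, w.ord (c o - c i) ≤ ∑ i ∈ J, w.ord (c o - c i) :=
      Finset.sum_le_sum_of_subset_of_nonneg hsub fun i hi _ => hreg2 i hi
    have h2 : ((I.erase o).card : ℤ) * w.ord (c m1 - c m2) ≤ ∑ i ∈ I.erase o, w.ord (c o - c i) := by
      have := Finset.card_nsmul_le_sum (I.erase o) (fun i => w.ord (c o - c i)) (w.ord (c m1 - c m2))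
        (fun m hm => by
          obtain ⟨h1, h2⟩ := Finset.mem_erase.1 hm
          exact hmin' o hoI m h2 (Ne.symm h1))
      simpa [nsmul_eq_mul] using this
    have h3 : (I.erase o).card + 1 = I.card := Finset.card_erase_add_one hoI
    have h4 : 2 ≤ I.card := by
      have hs2 : ({m1, m2} : Finset (Fin a)) ⊆ I := by
        intro x hx
        rcases Finset.mem_insert.1 hx with rfl | hx
        · exact hm1
        · rw [Finset.mem_singleton.1 hx]; exact hm2
      have := Finset.card_le_card hs2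
      rwa [Finset.card_pair hm] at this
    have h5 : ((e * I.card + 1 : ℕ) : ℤ) ≤ (2 * e + 1 : ℕ) * ((I.erase o).card : ℤ) := by
      have h6 : e * I.card + 1 ≤ (2 * e + 1) * (I.erase o).card := by
        obtain ⟨k, hk⟩ : ∃ k, (I.erase o).card = k + 1 := ⟨(I.erase o).card - 1, by omega⟩
        have hk2 : I.card = k + 2 := by omega
        rw [hk, hk2]
        nlinarith [Nat.zero_le (e * k), Nat.zero_le k]
      exact_mod_cast h6
    calc ((e * I.card + 1 : ℕ) : ℤ) * w.ord (c m1 - c m2)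
        ≤ ((2 * e + 1 : ℕ) * ((I.erase o).card : ℤ)) * w.ord (c m1 - c m2) :=
          mul_le_mul_of_nonneg_right h5 hμ.le
      _ = (2 * e + 1 : ℕ) * (((I.erase o).card : ℤ) * w.ord (c m1 - c m2)) := by ring
      _ ≤ (2 * e + 1 : ℕ) * ∑ i ∈ J, w.ord (c o - c i) :=
          mul_le_mul_of_nonneg_left (h2.trans h1) (by positivity)
  · exfalso
    apply hkey m1 hm1
    intro m hm
    have hJm : ∀ m ∈ I, v m = 1 := by
      intro m hm
      rcases Finset.mem_insert.1 (hIJ m hm) with h1 | h1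
      · exact absurd (h1 ▸ hm) hoI
      · exact hv1 m h1
    rw [hJm m hm, hJm m1 hm1, sub_self, zero_div]
    exact w.zer_zero

end Pool.Agent.LibEX36
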