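import Pool.Agent.LibEX36.Defs
import Pool.Agent.LibCHd.B5

/-!
[EX36 E6a] A finite set of elements of `AlgebraicClosure (RatFunc K)` is contained in a function field of one variable with the variable `t`: `L = IntermediateField.adjoin (RatFunc K) S`, `i = L.val`;
it is finite over `K(t)` (all elements of `S` are algebraic over `K(t)`).
-/

open scoped Classical

namespace Pool.Agent.LibEX36

open Polynomial
open Pool.Agent.LibBH2
open Pool.Agent.LibCHd (FunF)

variable {K : Type} [Field K]

theorem exists_L (K : Type) [Field K] (S : Finset (AlgebraicClosure (RatFunc K))) :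
    ∃ (L : Type) (_ : Field L) (_ : Algebra K L) (i : L →ₐ[K] AlgebraicClosure (RatFunc K)) (t : L), FunF K 1 L ∧
      Transcendental K t ∧ i t = algebraMap (RatFunc K) (AlgebraicClosure (RatFunc K)) RatFunc.X ∧ ∀ z ∈ S, ∃ y, i y = z := by
  let E := AlgebraicClosure (RatFunc K)
  let L : IntermediateField (RatFunc K) E := IntermediateField.adjoin (RatFunc K) (S : Set E)
  have hfin : FiniteDimensional (RatFunc K) L := by
    have _ : Finite (S : Set E) := inferInstance
    exact IntermediateField.finiteDimensional_adjoin fun x _ => Algebra.IsIntegral.isIntegral x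
  have _ : IsScalarTower K (RatFunc K) L := inferInstance
  let ι : RatFunc K →ₐ[K] L := IsScalarTower.toAlgHom K (RatFunc K) L
  have hι : ι.toRingHom.Finite := by
    have h1 : ι.toRingHom = algebraMap (RatFunc K) L := rfl
    rw [h1, RingHom.finite_algebraMap]
    exact hfin
  refine ⟨L, inferInstance, inferInstance, L.val.restrictScalars K, ι RatFunc.X,
    Pool.Agent.LibCHd.funF_one ι hι, ?_, ?_, ?_⟩
  · intro h
    exact RatFunc.transcendental_X ((isAlgebraic_algHom_iff ι ι.toRingHom.injective).1 h)
  · rfl
  · intro z hz
    exact ⟨⟨z, IntermediateField.subset_adjoin _ _ hz⟩, rfl⟩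

end Pool.Agent.LibEX36
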