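import Pool.Agent.LibEX36.Defs

/-!
[EX36 E6c] Counting zeros and poles. `t` transcendental, `f i ≠ 0` for `i ∈ J`; `n w(f i) ≥ min 0 (w t)` at all places; `w(t - 1) ≤ m ∑_(i ∈ J) w(f i)` at the zeros of `t - 1`. Then `n ≤ m #J`. Proof: `S` a finite set of places
with all zeros and poles of `t`, `t - 1`, `f i` (`Pool.Agent.LibHL77.sum_zeros'` gives the finite set of zeros of a transcendental element, applied to the element and its inverse;
`Pool.Agent.LibEnd77.Val8.transcendental_inv`; an algebraic element is in `K`, order `0`). `dg = dg K t > 0`. `∑_S max 0 (w (t-1)) = dg` (`deg_zero` of LibCW77/V0.lean), `∑_S max 0 (-w t) = dg` (`deg_pole`), and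
`∑_S max 0 (w (f i)) = ∑_S max 0 (- w (f i))` (`deg_zero` with `a = 0`, `deg_pole`; both `0` if `f i ∈ K`). So `n dg ≤ n m ∑_i ∑_S max 0 (w (f i)) = m ∑_i ∑_S n max 0 (-w (f i)) ≤ m ∑_i ∑_S max 0 (-w t) = m #J dg`.
(`dg > 0`: `finrank` of a finite extension; if `n = 0` trivial.)
-/

open scoped Classical

namespace Pool.Agent.LibEX36

open Polynomial
open Pool.Agent.LibBH2
open Pool.Agent.LibCHd (FunF)

variable {K : Type} [Field K]

private theorem E6c_fin [IsAlgClosed K] [CharZero K] {L : Type} [Field L] [Algebra K L] (hL : FunF K 1 L) (φ : L) :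
    ∃ T : Finset (Place K L), ∀ w : Place K L, w.ord φ ≠ 0 → w ∈ T := by
  by_cases ha : IsAlgebraic K φ
  · exact ⟨∅, fun w hw => absurd (Pool.Agent.LibHL77.Z1_ord_alg w ha) hw⟩
  obtain ⟨A, hA, -⟩ := Pool.Agent.LibHL77.sum_zeros' hL φ ha
  obtain ⟨B, hB, -⟩ := Pool.Agent.LibHL77.sum_zeros' hL φ⁻¹ (Pool.Agent.LibEnd77.Val8.transcendental_inv ha)
  refine ⟨A ∪ B, fun w hw => ?_⟩
  rw [Finset.mem_union, hA, hB, w.ord_inv]
  omega

private theorem E6c_bal [IsAlgClosed K] [CharZero K] {L : Type} [Field L] [Algebra K L] (hL : FunF K 1 L) (φ : L)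
    (S : Finset (Place K L)) (hS : ∀ w : Place K L, w.ord φ ≠ 0 → w ∈ S) :
    ∑ w ∈ S, max 0 (w.ord φ) = ∑ w ∈ S, max 0 (- w.ord φ) := by
  by_cases ha : IsAlgebraic K φ
  · refine Finset.sum_congr rfl fun w _ => ?_
    rw [Pool.Agent.LibHL77.Z1_ord_alg w ha, neg_zero]
  have h1 := Pool.Agent.LibCW77.deg_zero hL φ ha 0 S (fun w hw => hS w (by
    rw [map_zero, sub_zero] at hw
    omega))
  have h2 := Pool.Agent.LibCW77.deg_pole hL φ ha S (fun w hw => hS w (by omega))
  simp only [map_zero, sub_zero] at h1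
  rw [h1, h2]

theorem count [IsAlgClosed K] [CharZero K] {L : Type} [Field L] [Algebra K L] (hL : FunF K 1 L) {t : L}
    (ht : Transcendental K t) {ι : Type} (J : Finset ι) (f : ι → L) (hf : ∀ i ∈ J, f i ≠ 0) {n m : ℕ}
    (hp : ∀ w : Place K L, ∀ i ∈ J, min 0 (w.ord t) ≤ n * w.ord (f i))
    (hz : ∀ w : Place K L, 0 < w.ord (t - 1) → w.ord (t - 1) ≤ m * ∑ i ∈ J, w.ord (f i)) : n ≤ m * J.card := by
  choose T hT using fun φ : L => E6c_fin hL φ
  set S : Finset (Place K L) := T (t - 1) ∪ T t ∪ J.biUnion (fun i => T (f i)) with hSdef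
  have hS1 : ∀ w : Place K L, w.ord (t - 1) ≠ 0 → w ∈ S := fun w hw => by
    rw [hSdef, Finset.mem_union, Finset.mem_union]
    exact Or.inl (Or.inl (hT _ w hw))
  have hS2 : ∀ w : Place K L, w.ord t ≠ 0 → w ∈ S := fun w hw => by
    rw [hSdef, Finset.mem_union, Finset.mem_union]
    exact Or.inl (Or.inr (hT _ w hw))
  have hS3 : ∀ i ∈ J, ∀ w : Place K L, w.ord (f i) ≠ 0 → w ∈ S := fun i hi w hw => by
    rw [hSdef, Finset.mem_union]
    exact Or.inr (Finset.mem_biUnion.2 ⟨i, hi, hT _ w hw⟩)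
  set d : ℤ := (Pool.Agent.LibCW77.dg K t : ℤ) with hd
  have hdpos : 0 < d := by
    haveI := Pool.Agent.LibEnd77.Val8.finite_adjoin (Pool.Agent.LibHL77.Z1_ff hL) ht
    have : 0 < Module.finrank (IntermediateField.adjoin K {t}) L := Module.finrank_pos
    rw [hd, Pool.Agent.LibCW77.dg]
    exact_mod_cast this
  have e1 : ∑ w ∈ S, max 0 (w.ord (t - 1)) = d := by
    have h := Pool.Agent.LibCW77.deg_zero hL t ht 1 S (fun w hw => hS1 w (by
      rw [map_one] at hw
      omega))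
    simp only [map_one] at h
    exact h
  have e2 : ∑ w ∈ S, max 0 (- w.ord t) = d :=
    Pool.Agent.LibCW77.deg_pole hL t ht S (fun w hw => hS2 w (by omega))
  have i1 : ∀ w ∈ S, max 0 (w.ord (t - 1)) ≤ m * ∑ i ∈ J, max 0 (w.ord (f i)) := by
    intro w _
    have h0 : 0 ≤ (m : ℤ) * ∑ i ∈ J, max 0 (w.ord (f i)) :=
      mul_nonneg (by positivity) (Finset.sum_nonneg fun i _ => le_max_left _ _)
    rcases le_or_gt (w.ord (t - 1)) 0 with h | h
    · rw [max_eq_left h]
      exact h0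
    · rw [max_eq_right h.le]
      refine (hz w h).trans ?_
      gcongr
      exact le_max_right _ _
  have i2 : ∀ i ∈ J, (n : ℤ) * ∑ w ∈ S, max 0 (w.ord (f i)) ≤ d := by
    intro i hi
    rw [E6c_bal hL (f i) S (hS3 i hi), Finset.mul_sum, ← e2]
    refine Finset.sum_le_sum fun w _ => ?_
    have h := hp w i hi
    have hn : 0 ≤ (n : ℤ) := by positivity
    rcases le_or_gt (- w.ord (f i)) 0 with h1 | h1
    · rw [max_eq_left h1, mul_zero]
      exact le_max_left _ _
    · rw [max_eq_right h1.le]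
      have h2 : (n : ℤ) * - w.ord (f i) = -(n * w.ord (f i)) := by ring
      rw [h2]
      rcases min_cases (0 : ℤ) (w.ord t) with ⟨h3, h4⟩ | ⟨h3, h4⟩
      · rw [h3] at h
        exact (neg_nonpos.2 h).trans (le_max_left _ _)
      · rw [h3] at h
        exact (neg_le_neg h).trans (le_max_right _ _)
  have k1 : (n : ℤ) * d ≤ (m * J.card : ℤ) * d := by
    calc (n : ℤ) * d = n * ∑ w ∈ S, max 0 (w.ord (t - 1)) := by rw [e1]
      _ ≤ n * ∑ w ∈ S, (m * ∑ i ∈ J, max 0 (w.ord (f i)) : ℤ) := by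
          gcongr with w hw
          exact i1 w hw
      _ = m * ∑ i ∈ J, (n * ∑ w ∈ S, max 0 (w.ord (f i)) : ℤ) := by
          rw [← Finset.mul_sum, Finset.sum_comm, ← Finset.mul_sum]
          ring
      _ ≤ m * ∑ i ∈ J, d := by
          gcongr with i hi
          exact i2 i hi
      _ = (m * J.card : ℤ) * d := by
          rw [Finset.sum_const, nsmul_eq_mul]
          ring
  have k2 := le_of_mul_le_mul_right k1 hdpos
  exact_mod_cast k2

end Pool.Agent.LibEX36
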