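import Pool.Agent.LibEX36.E5
import Pool.Agent.LibEX36.E1
import Pool.Agent.LibEX36.E6a
import Pool.Agent.LibEX36.E6c

/-!
[EX36 E6] One more value becomes `1`. Given `K`, `v` (as in `Claim (j+1)`), `E = AlgebraicClosure (RatFunc K)`, `t = X`: `v' i = algebraMap (v i)` for `i ≠ j`, `v' j = t`. `Claim j` for `E`, `v'`: a
solution `al, be, c` over `E`, `c` different for `i < j` (`t` is transcendental over `K`: not `0`, `1`, not an `algebraMap`). `exists_L` for the coordinates: a solution over `L` (`i` injective:
`nrm`, `der`, `val` come back from `E`; map of polynomials: `Polynomial.map`, `map_injective`), values `v'' i = algebraMap K L (v i)` (`i ≠ j`), `v'' j = t`.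
Suppose the conclusion fails. `J = {i | i < j}` (`#J = j`), `o = j`. For every `w` with `0 < w.ord (t - 1)`: `sol_vals` (residues `v`): residues `al0, be0, c0`, a solution over `K` with the values `v`; by assumption `c0` is not injective on `i < j + 1`,
so `cluster` gives `w.ord (t-1) ≤ (2e+1) ∑_(i∈J) w.ord (c j - c i)`. `count` with `f i = c j - c i` (`≠ 0` since `Q(c j) = t ≠ 1 = Q(c i)`), `n = s + q b`, `m = 2e+1`; `hp` by `sol_bound` with `m = min 0 (w.ord t)`
(order of a difference; cases of zero elements). So `s + q b ≤ (2e+1) j`: contradiction.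
-/

open scoped Classical

namespace Pool.Agent.LibEX36

open Polynomial
open Pool.Agent.LibBH2
open Pool.Agent.LibCHd (FunF)

private theorem E6_map_PA {L E : Type} [Field L] [Field E] (i : L →+* E) {s : ℕ} (al : Fin s → L) :
    (PA al).map i = PA (fun k => i (al k)) := by
  simp only [PA, Polynomial.map_prod, Polynomial.map_sub, Polynomial.map_X, Polynomial.map_C]

private theorem E6_map_QQ {L E : Type} [Field L] [Field E] (i : L →+* E) (q : ℕ) {s b : ℕ} (al : Fin s → L)
    (be : Fin b → L) : (QQ q al be).map i = QQ q (fun k => i (al k)) (fun k => i (be k)) := by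
  simp only [QQ, Polynomial.map_mul, Polynomial.map_pow, E6_map_PA]

private theorem E6_map_RR {L E : Type} [Field L] [Field E] (i : L →+* E) (q : ℕ) {s b : ℕ} (al : Fin s → L)
    (be : Fin b → L) : (RR q al be).map i = RR q (fun k => i (al k)) (fun k => i (be k)) := by
  simp only [RR, Polynomial.map_add, Polynomial.map_mul, Polynomial.map_natCast, ← Polynomial.derivative_map,
    E6_map_PA]

/-- a solution comes back from a larger field -/
private theorem E6_sol_back {L E : Type} [Field L] [Field E] (i : L →+* E) {e q s b a : ℕ} {al : Fin s → L}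
    {be : Fin b → L} {c v : Fin a → L}
    (hs : Sol e q (fun k => i (al k)) (fun k => i (be k)) (fun k => i (c k)) (fun k => i (v k))) :
    Sol e q al be c v := by
  refine ⟨?_, ?_, ?_⟩
  · apply i.injective
    rw [map_zero, ← hs.nrm]
    simp only [map_add, map_mul, map_sum, map_natCast]
  · apply Polynomial.map_injective i i.injective
    rw [E6_map_RR, hs.der, Polynomial.map_mul, Polynomial.map_pow, Polynomial.map_C, E6_map_PA]
    simp only [map_natCast]
  · intro k
    apply i.injective
    have h1 := hs.val k
    rw [← h1, ← E6_map_QQ, Polynomial.eval_map_apply]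

theorem claim_step {e q s b a j : ℕ} (he : 1 ≤ e) (hq : 1 ≤ q) (ha : 1 ≤ a) (h : a * e + 1 = s + b) (hj : j < a)
    (hn : (2 * e + 1) * j < s + q * b) (hc : Claim e q s b a j) : Claim e q s b a (j + 1) := by
  intro K _ _ _ v hv0 hv1 hvn hvi
  by_contra hcon
  set o : Fin a := ⟨j, hj⟩ with ho
  have hoj : ∀ k : Fin a, k ≠ o → (k : ℕ) ≠ j := fun k hk hkj => hk (Fin.ext hkj)
  set T : AlgebraicClosure (RatFunc K) :=
    algebraMap (RatFunc K) (AlgebraicClosure (RatFunc K)) RatFunc.X with hT
  have hTt : Transcendental K T := by
    have h1 : Transcendental K (RatFunc.X : RatFunc K) := RatFunc.transcendental_X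
    exact (transcendental_algebraMap_iff (algebraMap (RatFunc K) (AlgebraicClosure (RatFunc K))).injective).2 h1
  have hTne : ∀ x : K, T ≠ algebraMap K (AlgebraicClosure (RatFunc K)) x := by
    intro x hx
    exact hTt (hx ▸ isAlgebraic_algebraMap x)
  have hainj : Function.Injective (algebraMap K (AlgebraicClosure (RatFunc K))) :=
    (algebraMap K (AlgebraicClosure (RatFunc K))).injective
  have : CharZero (AlgebraicClosure (RatFunc K)) := charZero_of_injective_algebraMap hainj
  obtain ⟨al', be', c', hs', hinj'⟩ := hc (AlgebraicClosure (RatFunc K))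
    (fun k => if k = o then T else algebraMap K (AlgebraicClosure (RatFunc K)) (v k))
    (by
      intro k
      by_cases hk : k = o
      · simp only [hk, if_true]
        have := hTne 0
        rwa [map_zero] at this
      · simp only [hk, if_false]
        intro h0
        exact hv0 k (hainj (by rw [h0, map_zero])))
    (by
      intro k hk
      have hk' : k ≠ o := by rintro rfl; exact lt_irrefl _ hk
      simp only [hk', if_false]
      rw [hv1 k (by omega), map_one])
    (by
      intro k hk
      by_cases hk' : k = o
      · simp only [hk', if_true]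
        have := hTne 1
        rwa [map_one] at this
      · simp only [hk', if_false]
        intro h0
        exact hvn k (by have := hoj k hk'; omega) (hainj (by rw [h0, map_one])))
    (by
      intro k k' hk hk' hkk
      by_cases h1 : k = o <;> by_cases h2 : k' = o
      · rw [h1, h2]
      · simp only [h1, h2, if_true, if_false] at hkk
        exact absurd hkk (hTne _)
      · simp only [h1, h2, if_true, if_false] at hkk
        exact absurd hkk.symm (hTne _)
      · simp only [h1, h2, if_false] at hkk
        exact hvi k k' (by have := hoj k h1; omega) (by have := hoj k' h2; omega) (hainj hkk))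
  obtain ⟨L, _, _, i, t, hL, ht, hit, hS⟩ := exists_L K
    (Finset.univ.image al' ∪ Finset.univ.image be' ∪ Finset.univ.image c')
  have hal : ∀ k, ∃ y, i y = al' k := fun k => hS _ (by
    simp only [Finset.mem_union, Finset.mem_image, Finset.mem_univ, true_and]
    exact Or.inl (Or.inl ⟨k, rfl⟩))
  have hbe : ∀ k, ∃ y, i y = be' k := fun k => hS _ (by
    simp only [Finset.mem_union, Finset.mem_image, Finset.mem_univ, true_and]
    exact Or.inl (Or.inr ⟨k, rfl⟩))
  have hcc : ∀ k, ∃ y, i y = c' k := fun k => hS _ (by
    simp only [Finset.mem_union, Finset.mem_image, Finset.mem_univ, true_and]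
    exact Or.inr ⟨k, rfl⟩)
  choose al hal using hal
  choose be hbe using hbe
  choose c hcc using hcc
  have hLne : ∀ x : K, t ≠ algebraMap K L x := by
    intro x hx
    exact ht (hx ▸ isAlgebraic_algebraMap x)
  have ht1 : t ≠ 1 := by
    have := hLne 1
    rwa [map_one] at this
  set V : Fin a → L := fun k => if k = o then t else algebraMap K L (v k) with hV
  have hVo : V o = t := by simp only [hV, if_true]
  have hVk : ∀ k, k ≠ o → V k = algebraMap K L (v k) := fun k hk => by simp only [hV, hk, if_false]
  have hs : Sol e q al be c V := by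
    refine E6_sol_back (i : L →+* AlgebraicClosure (RatFunc K)) ?_
    have e1 : (fun k => (i : L →+* AlgebraicClosure (RatFunc K)) (al k)) = al' := funext hal
    have e2 : (fun k => (i : L →+* AlgebraicClosure (RatFunc K)) (be k)) = be' := funext hbe
    have e3 : (fun k => (i : L →+* AlgebraicClosure (RatFunc K)) (c k)) = c' := funext hcc
    have e4 : (fun k => (i : L →+* AlgebraicClosure (RatFunc K)) (V k)) =
        fun k => if k = o then T else algebraMap K (AlgebraicClosure (RatFunc K)) (v k) := by
      funext k
      by_cases hk : k = o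
      · subst hk
        change i (V o) = _
        rw [hVo, hit]
        simp only [if_true]
        exact hT.symm
      · change i (V k) = _
        rw [hVk k hk, AlgHom.commutes]
        simp only [hk, if_false]
    rw [e1, e2, e3, e4]
    exact hs'
  set J : Finset (Fin a) := Finset.univ.filter (fun k : Fin a => (k : ℕ) < j) with hJdef
  have hJmem : ∀ k, k ∈ J ↔ (k : ℕ) < j := fun k => by
    rw [hJdef, Finset.mem_filter]
    exact ⟨fun hk => hk.2, fun hk => ⟨Finset.mem_univ _, hk⟩⟩
  have hJcard : J.card = j := by
    have h1 : J = (Finset.range j).attachFin (fun m hm => (Finset.mem_range.1 hm).trans hj) := by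
      ext k
      rw [hJmem, Finset.mem_attachFin, Finset.mem_range]
    rw [h1, Finset.card_attachFin, Finset.card_range]
  have hoJ : o ∉ J := by
    rw [hJmem]
    exact lt_irrefl _
  have hJo : ∀ k ∈ J, k ≠ o := by
    rintro k hk rfl
    exact hoJ hk
  have hV1 : ∀ k ∈ J, V k = 1 := by
    intro k hk
    rw [hVk k (hJo k hk), hv1 k (by have := (hJmem k).1 hk; omega), map_one]
  have hf : ∀ k ∈ J, c o - c k ≠ 0 := by
    intro k hk h0
    have h1 := hs.val o
    have h2 := hs.val k
    rw [sub_eq_zero.1 h0, h2, hV1 k hk, hVo] at h1
    exact ht1 h1.symm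
  have hp : ∀ w : Place K L, ∀ k ∈ J, min 0 (w.ord t) ≤ ((s + q * b : ℕ) : ℤ) * w.ord (c o - c k) := by
    intro w k hk
    have hb := (sol_bound hL w he hq ha h hs (m := min 0 (w.ord t)) (by
      intro k'
      right
      by_cases hk' : k' = o
      · rw [hk', hVo]; exact min_le_right _ _
      · rw [hVk k' hk', w.ord_const _ (hv0 k')]; exact min_le_left _ _)).2.2
    have hne := hf k hk
    have hneg : c o - c k = c o + -c k := sub_eq_add_neg _ _
    rcases hb o with h1 | h1
    · rcases hb k with h2 | h2
      · exact absurd (by rw [h1, h2, sub_zero]) hne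
      · rw [h1, zero_sub, w.ord_neg]; exact h2
    · rcases hb k with h2 | h2
      · rw [h2, sub_zero]; exact h1
      · by_cases h3 : c o = 0
        · rw [h3, zero_sub, w.ord_neg]; exact h2
        · by_cases h4 : c k = 0
          · rw [h4, sub_zero]; exact h1
          · have h5 := w.ord_add (c o) (-c k) h3 (neg_ne_zero.2 h4) (by rw [← hneg]; exact hne)
            rw [← hneg, w.ord_neg] at h5
            have hn0 : (0 : ℤ) ≤ ((s + q * b : ℕ) : ℤ) := Int.natCast_nonneg _
            rcases min_le_iff.1 h5 with h6 | h6
            · exact h1.trans (mul_le_mul_of_nonneg_left h6 hn0)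
            · exact h2.trans (mul_le_mul_of_nonneg_left h6 hn0)
  have hz : ∀ w : Place K L, 0 < w.ord (t - 1) →
      w.ord (t - 1) ≤ ((2 * e + 1 : ℕ) : ℤ) * ∑ k ∈ J, w.ord (c o - c k) := by
    intro w hw
    have hvz : ∀ k, w.Zer (V k - algebraMap K L (v k)) := by
      intro k
      by_cases hk : k = o
      · rw [hk, hVo, hv1 o (by rw [ho]; exact Nat.lt_succ_self j), map_one]
        exact Or.inr hw
      · rw [hVk k hk, sub_self]; exact w.zer_zero
    obtain ⟨al0, be0, c0, _, _, hz3, hs0⟩ := sol_vals hL w he hq ha h hs hvz
    rcases cluster hL w he hq ha h hs J hoJ hV1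
      (fun k hk k' hk' hkk => hinj' k k' ((hJmem k).1 hk) ((hJmem k').1 hk') (by rw [← hcc, ← hcc, hkk]))
      (by rw [hVo]; exact Or.inr hw) (by rw [hVo]; exact ht1)
      (by
        intro k hk hk'
        refine ⟨v k, hv0 k, hvn k ?_, hVk k hk'⟩
        rw [hJmem] at hk
        have := hoj k hk'
        omega) hz3 with h1 | h1
    · exfalso
      apply hcon
      refine ⟨al0, be0, c0, hs0, fun k k' hk hk' hkk => h1 k ?_ k' ?_ hkk⟩
      · by_cases hko : k = o
        · rw [hko]; exact Finset.mem_insert_self _ _
        · exact Finset.mem_insert_of_mem ((hJmem k).2 (by have := hoj k hko; omega))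
      · by_cases hko : k' = o
        · rw [hko]; exact Finset.mem_insert_self _ _
        · exact Finset.mem_insert_of_mem ((hJmem k').2 (by have := hoj k' hko; omega))
    · rw [hVo] at h1
      exact h1
  have hfin := count hL ht J (fun k => c o - c k) hf hp hz
  rw [hJcard] at hfin
  omega

end Pool.Agent.LibEX36
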