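import Pool.Agent.LibEX36.E6

/-!
[EX36 E8] The polynomials. `claim_all`: induction (`Claim 0` is `sol_exists`; `claim_step`). `belyi_many`: `v i = 1` for all `i`: `A = PA al`, `B = PA be`, `D = PA c`; `c` is injective.
`A B` squarefree: `sol_inj`. `(X - c i)^(e+1) ∣ Q - 1` (value `0` and `(X - c i)^e ∣ Q'`, characteristic zero), the `c i` are different, so `D^(e+1) ∣ Q - 1`; `C'` the quotient, monic.
`C' D` squarefree: the multiplicity of `c i` in `Q'` is exactly `e` (`B(c i) ≠ 0`, `sol_ne`), so in `Q - 1` exactly `e + 1`, `C'(c i) ≠ 0`; a double root `z` of `C'` is a root of `Q'`, `Q(z) = 1`, so not a root of `B` (`q ≥ 1`),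
so `z = c i`: contradiction. (Squarefree of a product of coprime squarefree; over the algebraically closed `K`: no multiple root, e.g. `Separable`.)
-/

open scoped Classical

namespace Pool.Agent.LibEX36

open Polynomial
open Pool.Agent.LibBH2
open Pool.Agent.LibCHd (FunF)

/-- `A B ^ q - κ = C D ^ p`, everything monic, `A B` and `C D` without double roots, the degrees of `A`, `B`, `C`, `D` are `s`, `b`, `s'`, `a` -/
def Bel (K : Type) [Field K] (p q s b s' a : ℕ) : Prop :=
  ∃ (A B D E : K[X]) (κ : K), κ ≠ 0 ∧ A.Monic ∧ B.Monic ∧ D.Monic ∧ E.Monic ∧ Squarefree (A * B) ∧ Squarefree (E * D) ∧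
    A.natDegree = s ∧ B.natDegree = b ∧ E.natDegree = s' ∧ D.natDegree = a ∧ A * B ^ q - C κ = E * D ^ p

private theorem E8_rm_pa {K : Type} [Field K] {a : ℕ} {c : Fin a → K} (hc : Function.Injective c)
    (z : K) : (PA c).rootMultiplicity z ≤ 1 := by
  have h : (PA c).Separable := by
    unfold PA
    exact separable_prod_X_sub_C_iff.mpr hc
  exact rootMultiplicity_le_one_of_separable h z

private theorem E8_rm_pa' {K : Type} [Field K] {a : ℕ} {c : Fin a → K} (hc : Function.Injective c)
    (i : Fin a) : (PA c).rootMultiplicity (c i) = 1 := by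
  apply le_antisymm (E8_rm_pa hc _)
  have h0 : PA c ≠ 0 := (pa_monic c).ne_zero
  exact (rootMultiplicity_pos h0).mpr ((pa_eval c (c i)).mpr ⟨i, rfl⟩)

private theorem E8_rm_pow {K : Type} [Field K] {F : K[X]} (z : K) (n : ℕ) :
    (F ^ n).rootMultiplicity z = n * F.rootMultiplicity z := by
  rw [← count_roots, roots_pow, Multiset.count_nsmul, count_roots]

private theorem E8_rm_ne {K : Type} [Field K] {F : K[X]} {z : K} (h : F.eval z ≠ 0) :
    F.rootMultiplicity z = 0 := rootMultiplicity_eq_zero h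

private theorem E8_sqf {K : Type} [Field K] [IsAlgClosed K] {F : K[X]} (h0 : F ≠ 0)
    (h : ∀ z, F.rootMultiplicity z ≤ 1) : Squarefree F := by
  have h1 : F.roots.Nodup := by
    rw [Multiset.nodup_iff_count_le_one]
    intro z
    rw [count_roots]
    exact h z
  exact ((nodup_roots_iff_of_splits h0 (IsAlgClosed.splits F)).mp h1).squarefree

private theorem E8_der {K : Type} [Field K] [CharZero K] {F : K[X]} {z : K} (h0 : F ≠ 0)
    (h : F.eval z = 0) : F.rootMultiplicity z = (derivative F).rootMultiplicity z + 1 := by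
  have h1 : F.IsRoot z := h
  have h2 := derivative_rootMultiplicity_of_root h1
  have h3 := (rootMultiplicity_pos h0).mpr h1
  omega

theorem claim_all {e q s b a : ℕ} (he : 1 ≤ e) (hq : 1 ≤ q) (ha : 1 ≤ a) (h : a * e + 1 = s + b)
    (hn : (2 * e + 1) * (a - 1) < s + q * b) : Claim e q s b a a := by
  have key : ∀ j : ℕ, j ≤ a → Claim e q s b a j := by
    intro j
    induction j with
    | zero =>
      intro _ K _ _ _ v _ _ _ _
      obtain ⟨al, be, c, hs⟩ := sol_exists he hq ha h v
      exact ⟨al, be, c, hs, fun i i' hi => absurd hi (Nat.not_lt_zero _)⟩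
    | succ j ih =>
      intro hj
      have h1 : (2 * e + 1) * j < s + q * b :=
        lt_of_le_of_lt (Nat.mul_le_mul_left _ (by omega)) hn
      exact claim_step he hq ha h (by omega) h1 (ih (by omega))
  exact key a le_rfl

theorem belyi_many (K : Type) [Field K] [IsAlgClosed K] [CharZero K] {e q s b a s' : ℕ} (he : 1 ≤ e) (hq : 1 ≤ q)
    (ha : 1 ≤ a) (h : a * e + 1 = s + b) (hn : (2 * e + 1) * (a - 1) < s + q * b) (hs' : s' + (e + 1) * a = s + q * b) :
    Bel K (e + 1) q s b s' a := by
  obtain ⟨al, be, c, hs, hc'⟩ := claim_all he hq ha h hn K (fun _ => 1) (fun _ => one_ne_zero)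
    (fun _ _ => rfl) (fun i hi => absurd i.2 (not_lt.mpr hi)) (fun i _ hi => absurd i.2 (not_lt.mpr hi))
  have hc : Function.Injective c := fun i i' hii => hc' i i' i.2 i'.2 hii
  have hv : ∀ i : Fin a, (fun _ => (1 : K)) i ≠ 0 := fun _ => one_ne_zero
  have hinj := sol_inj hq hs hv
  have hne := sol_ne hq hs hv
  obtain ⟨hQm, hQd⟩ := qq_deg (q := q) al be
  have hn0 : 0 < s + q * b := by omega
  set F : K[X] := QQ q al be - C 1 with hF
  have hdeg1 : (C (1 : K)).natDegree < (QQ q al be).natDegree := by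
    rw [natDegree_C, hQd]
    exact hn0
  have hFd : F.natDegree = s + q * b := by
    rw [hF, natDegree_sub_eq_left_of_natDegree_lt hdeg1, hQd]
  have hFm : F.Monic := by
    have h1 : (C (1 : K)).degree < (QQ q al be).degree := by
      rw [degree_eq_natDegree hQm.ne_zero, hQd]
      refine lt_of_le_of_lt degree_C_le ?_
      exact_mod_cast hn0
    exact hQm.sub_of_left h1
  have hF0 : F ≠ 0 := hFm.ne_zero
  have hFeval : ∀ z, F.eval z = (QQ q al be).eval z - 1 := by
    intro z
    rw [hF, eval_sub, eval_C]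
  have hn1 : (C ((s + q * b : ℕ) : K) : K[X]) ≠ 0 := by
    rw [Ne, C_eq_zero]
    exact_mod_cast hn0.ne'
  have hB0 : PA be ≠ 0 := (pa_monic be).ne_zero
  have hD0 : PA c ≠ 0 := (pa_monic c).ne_zero
  have hdF : derivative F = PA be ^ (q - 1) * (C ((s + q * b : ℕ) : K) * PA c ^ e) := by
    rw [hF, derivative_sub, derivative_C, sub_zero, qq_deriv hq, hs.der]
  have hrd : ∀ z, (derivative F).rootMultiplicity z =
      (q - 1) * (PA be).rootMultiplicity z + e * (PA c).rootMultiplicity z := by
    intro z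
    have h1 : PA be ^ (q - 1) ≠ 0 := pow_ne_zero _ hB0
    have h2 : PA c ^ e ≠ 0 := pow_ne_zero _ hD0
    have h3 : C ((s + q * b : ℕ) : K) * PA c ^ e ≠ 0 := mul_ne_zero hn1 h2
    rw [hdF, rootMultiplicity_mul (mul_ne_zero h1 h3), rootMultiplicity_mul h3, E8_rm_pow,
      E8_rm_pow, rootMultiplicity_C, zero_add]
  have hFc : ∀ i, F.eval (c i) = 0 := by
    intro i
    rw [hFeval, hs.val i, sub_self]
  have hrc : ∀ i, F.rootMultiplicity (c i) = e + 1 := by
    intro i
    rw [E8_der hF0 (hFc i), hrd, E8_rm_ne (hne i).2, E8_rm_pa' hc]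
    omega
  have hdvd : PA c ^ (e + 1) ∣ F := by
    have h1 : PA c ^ (e + 1) = ∏ i, (X - C (c i)) ^ (e + 1) := by
      rw [Finset.prod_pow]
      rfl
    rw [h1]
    refine Finset.prod_dvd_of_coprime ?_ ?_
    · intro i _ i' _ hii
      exact (isCoprime_X_sub_C_of_isUnit_sub
        (sub_ne_zero_of_ne (fun hh => hii (hc hh))).isUnit).pow
    · intro i _
      rw [← hrc i]
      exact pow_rootMultiplicity_dvd F (c i)
  obtain ⟨E, hE⟩ := hdvd
  have hE' : F = E * PA c ^ (e + 1) := by rw [hE, mul_comm]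
  have hDm : (PA c ^ (e + 1)).Monic := (pa_monic c).pow _
  have hEm : E.Monic := by
    refine Monic.of_mul_monic_left hDm ?_
    rw [← hE]
    exact hFm
  have hE0 : E ≠ 0 := hEm.ne_zero
  have hEd : E.natDegree = s' := by
    have h1 : F.natDegree = E.natDegree + (PA c ^ (e + 1)).natDegree := by
      rw [hE', hEm.natDegree_mul hDm]
    rw [hFd, natDegree_pow, pa_deg] at h1
    omega
  have hrm : ∀ z, F.rootMultiplicity z =
      E.rootMultiplicity z + (e + 1) * (PA c).rootMultiplicity z := by
    intro z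
    have h1 : E * PA c ^ (e + 1) ≠ 0 := by
      rw [← hE']
      exact hF0
    rw [hE', rootMultiplicity_mul h1, E8_rm_pow]
  refine ⟨PA al, PA be, PA c, E, 1, one_ne_zero, pa_monic al, pa_monic be, pa_monic c, hEm, ?_, ?_,
    pa_deg al, pa_deg be, hEd, pa_deg c, ?_⟩
  · have h1 : PA al * PA be = ∏ i, (X - C (Sum.elim al be i)) := by
      rw [Fintype.prod_sum_type]
      rfl
    rw [h1]
    exact (separable_prod_X_sub_C_iff.mpr hinj).squarefree
  · refine E8_sqf (mul_ne_zero hE0 hD0) fun z => ?_
    rw [rootMultiplicity_mul (mul_ne_zero hE0 hD0)]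
    by_cases hz : ∃ i, z = c i
    · obtain ⟨i, rfl⟩ := hz
      have h1 := hrm (c i)
      rw [hrc, E8_rm_pa' hc] at h1
      rw [E8_rm_pa' hc]
      omega
    · have hz0 : (PA c).eval z ≠ 0 := fun hh => hz ((pa_eval c z).mp hh)
      have h0 : (PA c).rootMultiplicity z = 0 := E8_rm_ne hz0
      rw [h0, add_zero]
      by_contra hcon
      push Not at hcon
      have h1 := hrm z
      rw [h0, mul_zero, add_zero] at h1
      have h2 : F.eval z = 0 := by
        have h3 : 0 < F.rootMultiplicity z := by omega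
        exact (rootMultiplicity_pos hF0).mp h3
      have h4 := E8_der hF0 h2
      rw [hrd, h0, mul_zero, add_zero] at h4
      have h5 : (q - 1) * (PA be).rootMultiplicity z ≠ 0 := by omega
      have h6 : 0 < (PA be).rootMultiplicity z :=
        Nat.pos_of_ne_zero fun hh => h5 (by rw [hh, mul_zero])
      have h7 : (PA be).eval z = 0 := (rootMultiplicity_pos hB0).mp h6
      have h8 : (QQ q al be).eval z = 0 := by
        unfold QQ
        rw [eval_mul, eval_pow, h7, zero_pow (by omega), mul_zero]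
      rw [hFeval, h8] at h2
      simp at h2
  · rw [← hE', hF]
    rfl

end Pool.Agent.LibEX36
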