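import Pool.Agent.LibEX36.R2
import Pool.Agent.LibVT36.Ex

/-!
[EX36 Fin] The virtual theorem for the cycles of Gross and Schoen, second version: perfect signatures with an entry divisible by
two or three are included.
-/

open scoped Classical

namespace Pool.Agent.LibEX36

open Pool.Agent.LibBH2
open Pool.Agent.LibCHd (FunF)
open Pool.Agent.LibVT36

/-- there are a nonconstant map `t : X → ℙ¹`, a finite set `S` of points of `ℙ¹` and numbers `n p ≥ 2` dividing all
ramification indices of `t` over `p`, with `∑ (1 - 1 / n p) > 2`, such that two of the `n p` are not coprime or one of them is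
divisible by `2` or `3` -/
def Orb2 (k : Type) [Field k] (L : Type) [Field L] [Algebra k L] : Prop :=
  ∃ (t : L) (S : Finset (Option k)) (n : Option k → ℕ), NC k t ∧ (∀ p ∈ S, 2 ≤ n p ∧ Ram t p (n p)) ∧
    (2 : ℚ) < ∑ p ∈ S, ((1 : ℚ) - 1 / n p) ∧
    ((∃ p ∈ S, ∃ q ∈ S, p ≠ q ∧ ¬ Nat.Coprime (n p) (n q)) ∨ ∃ p ∈ S, 2 ∣ n p ∨ 3 ∣ n p)

variable {k : Type} [Field k]

theorem orb2_of_orb {L : Type} [Field L] [Algebra k L] (h : Orb k L) : Orb2 k L := by
  obtain ⟨t, S, n, h1, h2, h3, h4⟩ := h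
  exact ⟨t, S, n, h1, h2, h3, Or.inl h4⟩

theorem orb2_cyc [IsAlgClosed k] {L : Type} [Field L] [Algebra k L] (h : Cyc k L) : Orb2 k L := orb2_of_orb (orb_cyc h)

theorem virt2 [IsAlgClosed k] [CharZero k] {L : Type} [Field L] [Algebra k L] (hL : FunF k 1 L)
    (h : Orb2 k L ∨ OrbE k L) : Virt k L := by
  rcases h with ⟨t, S, n, ht, h, hs, hc⟩ | h
  · exact reach_virt (virtual2 hL ht S n (fun p hp => (h p hp).1) (fun p hp => (h p hp).2) hs hc)
  · exact virt hL (Or.inr h)

end Pool.Agent.LibEX36
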