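import Pool.Agent.LibEX36.Defs
import Pool.Agent.LibHP2.G6b

/-!
[EX36 P1a] `p1_rho`: `LibHP.G6b_common_zero`, `q - 1` forms `∑ d_i ρ_i^j`, `1 ≤ j ≤ q - 1`, in `q` variables. `p1_T`: for every `i`
`∏_(l ≠ i) (1 - ρ_l X) (1 - (ρ_i X)^(q-1)) = W ∑_(j < q-1) (ρ_i X)^j`. `p1_ne`: `W P' = - T P` for `P = ∏ (1 - ρ_i X)^(d_i)`.
(helper69)
-/

open scoped Classical

namespace Pool.Agent.LibEX36

open Polynomial
open Pool.Agent.LibBH2
open Pool.Agent.LibCHd (FunF)

variable {K : Type} [Field K]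

theorem p1_rho [IsAlgClosed K] [CharZero K] {q : ℕ} (hq : 1 ≤ q) (d : Fin q → ℕ) :
    ∃ ρ : Fin q → K, (∃ i, ρ i ≠ 0) ∧ ∀ j, 1 ≤ j → j < q → ∑ i, (d i : K) * ρ i ^ j = 0 := by
  obtain ⟨n, rfl⟩ : ∃ n, q = n + 1 := ⟨q - 1, by omega⟩
  let f : ℕ → MvPolynomial (Fin (n + 1)) K := fun j =>
    ∑ i, MvPolynomial.C (d i : K) * MvPolynomial.X i ^ j
  have hcard : ((Finset.Icc 1 n).image f).card ≤ n := by
    refine Finset.card_image_le.trans ?_
    simp
  obtain ⟨a, ha, h0⟩ := Pool.Agent.LibHP.G6b_common_zero K n ((Finset.Icc 1 n).image f) hcard (by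
    intro g hg
    obtain ⟨j, hj, rfl⟩ := Finset.mem_image.mp hg
    rw [Finset.mem_Icc] at hj
    refine ⟨j, hj.1, ?_⟩
    refine MvPolynomial.IsHomogeneous.sum _ _ _ (fun i _ => ?_)
    have h1 := (MvPolynomial.isHomogeneous_C (Fin (n + 1)) (d i : K)).mul
      ((MvPolynomial.isHomogeneous_X K i).pow j)
    simpa using h1)
  refine ⟨a, ?_, ?_⟩
  · by_contra hne
    push Not at hne
    exact ha (funext hne)
  · intro j hj1 hj2
    have h2 := h0 (f j) (Finset.mem_image.mpr ⟨j, Finset.mem_Icc.mpr ⟨hj1, by omega⟩, rfl⟩)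
    simpa [f] using h2

theorem p1_T {q : ℕ} (hq : 1 ≤ q) (d : Fin q → ℕ) (ρ : Fin q → K) (h : ∀ j, 1 ≤ j → j < q → ∑ i, (d i : K) * ρ i ^ j = 0) :
    ∃ κ : K, ∑ i, C ((d i : K) * ρ i) * ∏ l ∈ Finset.univ.erase i, (1 - C (ρ l) * X) = C κ * X ^ (q - 1) := by
  set T : K[X] := ∑ i, C ((d i : K) * ρ i) * ∏ l ∈ Finset.univ.erase i, (1 - C (ρ l) * X) with hT
  set G : K[X] := ∑ i, C ((d i : K) * ρ i) * C (ρ i ^ (q - 1)) * ∏ l ∈ Finset.univ.erase i, (1 - C (ρ l) * X) with hG
  set W : K[X] := ∏ l, (1 - C (ρ l) * X) with hW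
  have hgeo : ∀ i, (∏ l ∈ Finset.univ.erase i, (1 - C (ρ l) * X)) * (1 - C (ρ i ^ (q - 1)) * X ^ (q - 1)) =
      W * ∑ j ∈ Finset.range (q - 1), C (ρ i ^ j) * X ^ j := by
    intro i
    have h1 : (1 - C (ρ i ^ (q - 1)) * X ^ (q - 1) : K[X]) =
        (1 - C (ρ i) * X) * ∑ j ∈ Finset.range (q - 1), C (ρ i ^ j) * X ^ j := by
      have h2 := mul_neg_geom_sum (C (ρ i) * X) (q - 1)
      rw [mul_pow, ← C_pow] at h2
      rw [← h2]
      congr 1
      refine Finset.sum_congr rfl (fun j _ => ?_)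
      rw [mul_pow, ← C_pow]
    rw [h1, hW, ← Finset.mul_prod_erase Finset.univ _ (Finset.mem_univ i)]
    ring
  have hkey : T = X ^ (q - 1) * G := by
    have h3 : T - X ^ (q - 1) * G = ∑ i, C ((d i : K) * ρ i) *
        ((∏ l ∈ Finset.univ.erase i, (1 - C (ρ l) * X)) * (1 - C (ρ i ^ (q - 1)) * X ^ (q - 1))) := by
      rw [hT, hG, Finset.mul_sum, ← Finset.sum_sub_distrib]
      refine Finset.sum_congr rfl (fun i _ => ?_)
      ring
    have h4 : ∑ i, C ((d i : K) * ρ i) *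
        ((∏ l ∈ Finset.univ.erase i, (1 - C (ρ l) * X)) * (1 - C (ρ i ^ (q - 1)) * X ^ (q - 1))) = 0 := by
      have h5 : ∀ i, C ((d i : K) * ρ i) *
          ((∏ l ∈ Finset.univ.erase i, (1 - C (ρ l) * X)) * (1 - C (ρ i ^ (q - 1)) * X ^ (q - 1))) =
          ∑ j ∈ Finset.range (q - 1), W * (C ((d i : K) * ρ i ^ (j + 1)) * X ^ j) := by
        intro i
        rw [hgeo i, Finset.mul_sum, Finset.mul_sum]
        refine Finset.sum_congr rfl (fun j _ => ?_)
        rw [show (d i : K) * ρ i ^ (j + 1) = ((d i : K) * ρ i) * ρ i ^ j by ring, C_mul (a := (d i : K) * ρ i)]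
        ring
      rw [Finset.sum_congr rfl (fun i _ => h5 i), Finset.sum_comm]
      refine Finset.sum_eq_zero (fun j hj => ?_)
      rw [Finset.mem_range] at hj
      rw [← Finset.mul_sum, ← Finset.sum_mul, ← map_sum, h (j + 1) (by omega) (by omega)]
      simp
    rw [h4] at h3
    exact sub_eq_zero.mp h3
  have hdeg : T.natDegree ≤ q - 1 := by
    rw [hT]
    refine natDegree_sum_le_of_forall_le _ _ (fun i _ => ?_)
    refine natDegree_C_mul_le _ _ |>.trans ?_
    refine (natDegree_prod_le _ _).trans ?_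
    have h6 : ∑ l ∈ Finset.univ.erase i, (1 - C (ρ l) * X : K[X]).natDegree ≤
        ∑ l ∈ Finset.univ.erase i, 1 := by
      refine Finset.sum_le_sum (fun l _ => ?_)
      refine (natDegree_sub_le _ _).trans ?_
      simp only [natDegree_one, zero_le, sup_of_le_right]
      exact (natDegree_C_mul_le _ _).trans (natDegree_X_le)
    refine h6.trans ?_
    simp
  by_cases hG0 : G = 0
  · exact ⟨0, by rw [hkey, hG0]; simp⟩
  · have h7 : T.natDegree = (q - 1) + G.natDegree := by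
      rw [hkey, natDegree_mul (pow_ne_zero _ X_ne_zero) hG0, natDegree_X_pow]
    have h8 : G.natDegree = 0 := by omega
    obtain ⟨κ, hκ⟩ := natDegree_eq_zero.mp h8
    exact ⟨κ, by rw [hkey, ← hκ, mul_comm]⟩

theorem p1_ne [CharZero K] {q : ℕ} (hq : 1 ≤ q) (d : Fin q → ℕ) (hd : ∀ i, 1 ≤ d i) (ρ : Fin q → K) (h0 : ∃ i, ρ i ≠ 0) {κ : K}
    (h : ∑ i, C ((d i : K) * ρ i) * ∏ l ∈ Finset.univ.erase i, (1 - C (ρ l) * X) = C κ * X ^ (q - 1)) :
    κ ≠ 0 ∧ (∀ i, ρ i ≠ 0) ∧ Function.Injective ρ := by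
  have hκ : κ ≠ 0 := by
    intro hκ0
    rw [hκ0, C_0, zero_mul] at h
    set P : K[X] := ∏ i, (1 - C (ρ i) * X) ^ d i with hP
    have hder : derivative P * ∏ i, (1 - C (ρ i) * X) = -(∑ i, C ((d i : K) * ρ i) *
        ∏ l ∈ Finset.univ.erase i, (1 - C (ρ l) * X)) * P := by
      rw [hP, derivative_prod_finset, Finset.sum_mul, ← Finset.sum_neg_distrib, Finset.sum_mul]
      refine Finset.sum_congr rfl (fun i _ => ?_)
      rw [← Finset.mul_prod_erase Finset.univ (fun i => (1 - C (ρ i) * X : K[X])) (Finset.mem_univ i),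
        ← Finset.mul_prod_erase Finset.univ (fun i => (1 - C (ρ i) * X : K[X]) ^ d i) (Finset.mem_univ i)]
      rw [derivative_pow]
      have h9 : (1 - C (ρ i) * X : K[X]) ^ d i = (1 - C (ρ i) * X) ^ (d i - 1) * (1 - C (ρ i) * X) := by
        rw [← pow_succ]; congr 1; have := hd i; omega
      rw [h9]
      simp only [derivative_sub, derivative_one, derivative_C_mul, derivative_X, mul_one, zero_sub, C_mul, map_natCast]
      ring
    rw [h, neg_zero, zero_mul] at hder
    have hW : (∏ i, (1 - C (ρ i) * X) : K[X]) ≠ 0 := by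
      rw [Finset.prod_ne_zero_iff]
      intro i _ h1
      have h2 := congrArg (fun p => eval 0 p) h1
      simp at h2
    have hP' : derivative P = 0 := by
      rcases mul_eq_zero.mp hder with h1 | h1
      · exact h1
      · exact absurd h1 hW
    have h3 := derivative_eq_zero.mp hP'
    obtain ⟨c, hc⟩ := natDegree_eq_zero.mp h3
    have h4 : P.eval 0 = 1 := by
      rw [hP, eval_prod]
      simp
    obtain ⟨i, hi⟩ := h0
    have h5 : P.eval (ρ i)⁻¹ = 0 := by
      rw [hP, eval_prod]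
      refine Finset.prod_eq_zero (Finset.mem_univ i) ?_
      have := hd i
      simp only [eval_pow, eval_sub, eval_one, eval_mul, eval_C, eval_X]
      rw [mul_inv_cancel₀ hi, sub_self, zero_pow (by omega)]
    rw [← hc] at h4 h5
    simp only [eval_C] at h4 h5
    rw [h4] at h5
    exact one_ne_zero h5
  have hall : ∀ i, ρ i ≠ 0 := by
    intro m hm
    apply hκ
    have h1 := congrArg (fun p => coeff p (q - 1)) h
    simp only [coeff_C_mul, coeff_X_pow, if_true, mul_one, finsetSum_coeff] at h1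
    rw [← h1]
    refine Finset.sum_eq_zero (fun i _ => ?_)
    by_cases him : i = m
    · rw [him, hm]; simp
    · have h2 : (∏ l ∈ Finset.univ.erase i, (1 - C (ρ l) * X) : K[X]).coeff (q - 1) =
          ∏ l ∈ Finset.univ.erase i, (1 - C (ρ l) * X : K[X]).coeff 1 := by
        have h3 := coeff_prod_of_natDegree_le (s := Finset.univ.erase i)
          (f := fun l => (1 - C (ρ l) * X : K[X])) (n := 1) (by
            intro l _
            refine (natDegree_sub_le _ _).trans ?_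
            simp only [natDegree_one, zero_le, sup_of_le_right]
            exact (natDegree_C_mul_le _ _).trans (natDegree_X_le))
        simpa using h3
      have h4 : (1 - C (ρ m) * X : K[X]).coeff 1 = 0 := by
        rw [hm]; simp [coeff_one]
      rw [h2, Finset.prod_eq_zero (i := m) (Finset.mem_erase.mpr ⟨fun h => him h.symm, Finset.mem_univ m⟩) h4, mul_zero]
  refine ⟨hκ, hall, ?_⟩
  intro i l hil
  by_contra hne
  have h1 := congrArg (fun p => eval (ρ i)⁻¹ p) h
  simp only [eval_finsetSum, eval_mul, eval_C, eval_pow, eval_X] at h1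
  have h2 : ∑ m, (d m : K) * ρ m * eval (ρ i)⁻¹ (∏ l ∈ Finset.univ.erase m, (1 - C (ρ l) * X)) = 0 := by
    refine Finset.sum_eq_zero (fun m _ => ?_)
    rw [eval_prod]
    by_cases hm : m = i
    · rw [Finset.prod_eq_zero (i := l) (Finset.mem_erase.mpr ⟨fun h => hne (by rw [← hm, ← h]), Finset.mem_univ l⟩), mul_zero]
      simp only [eval_sub, eval_one, eval_mul, eval_C, eval_X]
      rw [← hil, mul_inv_cancel₀ (hall i), sub_self]
    · rw [Finset.prod_eq_zero (i := i) (Finset.mem_erase.mpr ⟨fun h => hm h.symm, Finset.mem_univ i⟩), mul_zero]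
      simp only [eval_sub, eval_one, eval_mul, eval_C, eval_X]
      rw [mul_inv_cancel₀ (hall i), sub_self]
  rw [h2] at h1
  exact mul_ne_zero hκ (pow_ne_zero _ (inv_ne_zero (hall i))) h1.symm

end Pool.Agent.LibEX36
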