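import Pool.Agent.LibEX36.E8
import Pool.Agent.LibEX36.P1a

/-!
[EX36 P1] One root of multiplicity `q`. `d i = e + 1` for `i < a`, `d i = 1` for the other `i : Fin q`; `n = ∑ d i = q + a e`. P1a: `ρ : Fin q → K` injective, all `≠ 0`, `T = κ X^(q-1)`, `κ ≠ 0`.
`P = ∏ (1 - ρ_i X)^(d_i)`, `W = ∏ (1 - ρ_i X)`: `W P' = - T P = - κ X^(q-1) P`. `z_i = 1/ρ_i`; `P = κ2 ∏ (X - z_i)^(d_i)`, `κ2 = ∏ (-ρ_i)^(d_i)`. `P(0) = 1`, `P - 1` has the root `0` with multiplicity `q` exactly (`P' = - κ X^(q-1) (P / W)`, `P / W` a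
polynomial with value `1` at `0`); the other roots of `P - 1` are simple (the zeros of `P'` are `0` and zeros of `P`).
`B = X`, `A = (P - 1) / (κ2 X^q)`, `D = ∏_(i < a) (X - z_i)`, `E = ∏_(i ≥ a) (X - z_i)`: `A B^q - C (-1/κ2) = E D^(e+1)`. Degrees `a e`, `1`, `q - a`, `a`. `A B`, `E D` squarefree.
-/

open scoped Classical

namespace Pool.Agent.LibEX36

open Polynomial
open Pool.Agent.LibBH2
open Pool.Agent.LibCHd (FunF)

private lemma P1_logder {K : Type} [Field K] {q : ℕ} (d : Fin q → ℕ) (z : Fin q → K) :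
    (∏ i, (X - C (z i))) * derivative (∏ i, (X - C (z i)) ^ d i) =
      (∏ i, (X - C (z i)) ^ d i) * ∑ i, C (d i : K) * ∏ l ∈ Finset.univ.erase i, (X - C (z l)) := by
  rw [derivative_prod_finset, Finset.mul_sum, Finset.mul_sum]
  refine Finset.sum_congr rfl fun i _ => ?_
  rw [← Finset.mul_prod_erase Finset.univ (fun i => X - C (z i)) (Finset.mem_univ i),
    ← Finset.mul_prod_erase Finset.univ (fun i => (X - C (z i)) ^ d i) (Finset.mem_univ i),
    derivative_X_sub_C_pow]
  rcases Nat.eq_zero_or_pos (d i) with h0 | h0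
  · rw [h0]; simp
  · obtain ⟨m, hm⟩ : ∃ m, d i = m + 1 := ⟨d i - 1, by omega⟩
    rw [hm, Nat.add_sub_cancel]
    ring

private lemma P1_sum {K : Type} [Field K] {q : ℕ} (d : Fin q → ℕ) (ρ : Fin q → K) (hρ : ∀ i, ρ i ≠ 0) {κ : K}
    (h : ∑ i, C ((d i : K) * ρ i) * ∏ l ∈ Finset.univ.erase i, (1 - C (ρ l) * X) = C κ * X ^ (q - 1)) :
    ∑ i, C (d i : K) * ∏ l ∈ Finset.univ.erase i, (X - C ((ρ l)⁻¹)) = C (-κ / ∏ l, (-ρ l)) * X ^ (q - 1) := by
  have hR : (∏ l, (-ρ l)) ≠ 0 := Finset.prod_ne_zero_iff.2 fun l _ => neg_ne_zero.2 (hρ l)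
  have h1 : ∀ l, (1 : K[X]) - C (ρ l) * X = C (-ρ l) * (X - C ((ρ l)⁻¹)) := by
    intro l
    rw [mul_sub, ← C_mul, neg_mul, mul_inv_cancel₀ (hρ l), C_neg, C_neg, C_1]
    ring
  have h2 : ∑ i, C ((d i : K) * ρ i) * ∏ l ∈ Finset.univ.erase i, (1 - C (ρ l) * X) =
      C (-∏ l, (-ρ l)) * ∑ i, C (d i : K) * ∏ l ∈ Finset.univ.erase i, (X - C ((ρ l)⁻¹)) := by
    rw [Finset.mul_sum]
    refine Finset.sum_congr rfl fun i _ => ?_
    have h3 : ∏ l ∈ Finset.univ.erase i, ((1 : K[X]) - C (ρ l) * X) =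
        C (∏ l ∈ Finset.univ.erase i, (-ρ l)) * ∏ l ∈ Finset.univ.erase i, (X - C ((ρ l)⁻¹)) := by
      rw [map_prod, ← Finset.prod_mul_distrib]
      exact Finset.prod_congr rfl fun l _ => h1 l
    rw [h3, ← Finset.mul_prod_erase Finset.univ (fun l => -ρ l) (Finset.mem_univ i)]
    simp only [C_mul, C_neg]
    ring
  rw [h2] at h
  have h4 : C (-κ / ∏ l, (-ρ l)) * (X : K[X]) ^ (q - 1) =
      C (-(∏ l, (-ρ l))⁻¹) * (C κ * X ^ (q - 1)) := by
    rw [← mul_assoc, ← C_mul]
    congr 2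
    rw [div_eq_mul_inv]; ring
  rw [h4, ← h, ← mul_assoc, ← C_mul, neg_mul_neg, inv_mul_cancel₀ hR, C_1, one_mul]

private lemma P1_sqf {K : Type} [Field K] [IsAlgClosed K] [CharZero K] {p : K[X]} (hp : p ≠ 0)
    (h : ∀ t, p.rootMultiplicity t ≤ 1) : Squarefree p := by
  have h1 : p.roots.Nodup := by
    rw [Multiset.nodup_iff_count_le_one]
    intro t
    rw [count_roots]
    exact h t
  exact ((nodup_roots_iff_of_splits hp (IsAlgClosed.splits p)).1 h1).squarefree

private lemma P1_core {K : Type} [Field K] [IsAlgClosed K] [CharZero K] {q : ℕ} (hq : 1 ≤ q) {W Q : K[X]} {κ : K} (hκ : κ ≠ 0)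
    (hW : W.eval 0 ≠ 0) (hQ0 : Q.eval 0 ≠ 0) (hder : W * derivative Q = Q * (C κ * X ^ (q - 1))) :
    ∃ A : K[X], A * X ^ q = Q - C (Q.eval 0) ∧ Squarefree (A * X) := by
  obtain ⟨c, hc⟩ : ∃ c, c = Q.eval 0 := ⟨_, rfl⟩
  rw [← hc] at hQ0 ⊢
  have hQne : Q ≠ 0 := by
    rintro rfl
    exact hQ0 (by rw [hc, eval_zero])
  have hWne : W ≠ 0 := by
    rintro rfl
    simp at hW
  have hR : Q * (C κ * X ^ (q - 1)) ≠ 0 :=
    mul_ne_zero hQne (mul_ne_zero (C_ne_zero.2 hκ) (pow_ne_zero _ X_ne_zero))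
  have hdne : derivative Q ≠ 0 := by
    intro h
    rw [h, mul_zero] at hder
    exact hR hder.symm
  have hdP : derivative (Q - C c) = derivative Q := by simp
  have hP0 : Q - C c ≠ 0 := by
    intro h
    rw [h, derivative_zero] at hdP
    exact hdne hdP.symm
  -- multiplicity at zero
  have hm0 : (derivative Q).rootMultiplicity 0 = q - 1 := by
    have h1 := congrArg (rootMultiplicity (0 : K)) hder
    have e1 : W.rootMultiplicity 0 = 0 := rootMultiplicity_eq_zero hW
    have e2 : Q.rootMultiplicity 0 = 0 := by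
      refine rootMultiplicity_eq_zero ?_
      intro h
      exact hQ0 (by rw [hc]; exact h)
    have e3 : (C κ : K[X]).rootMultiplicity 0 = 0 := rootMultiplicity_C _ _
    rw [rootMultiplicity_mul (mul_ne_zero hWne hdne), rootMultiplicity_mul hR,
      rootMultiplicity_mul (mul_ne_zero (C_ne_zero.2 hκ) (pow_ne_zero _ X_ne_zero)),
      e1, e2, e3, zero_add, zero_add, zero_add] at h1
    have h2 : (X ^ (q - 1) : K[X]).rootMultiplicity 0 = q - 1 := by
      have := rootMultiplicity_X_sub_C_pow (0 : K) (q - 1)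
      rwa [C_0, sub_zero] at this
    rw [h1, h2]
  have hroot : (Q - C c).IsRoot 0 := by rw [IsRoot, eval_sub, eval_C, hc, sub_self]
  have hm1 : (Q - C c).rootMultiplicity 0 = q := by
    have h1 := derivative_rootMultiplicity_of_root hroot
    rw [hdP, hm0] at h1
    have h2 : 0 < (Q - C c).rootMultiplicity 0 := (rootMultiplicity_pos hP0).2 hroot
    omega
  have hdvd : X ^ q ∣ Q - C c := by
    have h1 := pow_rootMultiplicity_dvd (Q - C c) 0
    rwa [hm1, C_0, sub_zero] at h1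
  obtain ⟨A, hA⟩ := hdvd
  refine ⟨A, by rw [hA, mul_comm], ?_⟩
  have hAne : A ≠ 0 := by
    rintro rfl
    rw [mul_zero] at hA
    exact hP0 hA
  have hXq : (X ^ q : K[X]) ≠ 0 := pow_ne_zero _ X_ne_zero
  have hmul : ∀ t, (Q - C c).rootMultiplicity t = (X ^ q : K[X]).rootMultiplicity t + A.rootMultiplicity t := by
    intro t
    rw [hA, rootMultiplicity_mul (mul_ne_zero hXq hAne)]
  refine P1_sqf (mul_ne_zero hAne X_ne_zero) fun t => ?_
  rw [rootMultiplicity_mul (mul_ne_zero hAne X_ne_zero)]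
  by_cases ht : t = 0
  · subst ht
    have h1 := hmul 0
    have h2 : (X ^ q : K[X]).rootMultiplicity 0 = q := by
      have := rootMultiplicity_X_sub_C_pow (0 : K) q
      rwa [C_0, sub_zero] at this
    have h3 : (X : K[X]).rootMultiplicity 0 = 1 := by
      have := rootMultiplicity_X_sub_C_pow (0 : K) 1
      rwa [C_0, sub_zero, pow_one] at this
    rw [hm1, h2] at h1
    omega
  · have h1 := hmul t
    have h2 : (X ^ q : K[X]).rootMultiplicity t = 0 :=
      rootMultiplicity_eq_zero (by simp [IsRoot, ht])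
    have h3 : (X : K[X]).rootMultiplicity t = 0 := rootMultiplicity_eq_zero (by simpa [IsRoot] using ht)
    rw [h2, zero_add] at h1
    rw [h3, add_zero, ← h1]
    by_cases hr : (Q - C c).IsRoot t
    · have h4 := derivative_rootMultiplicity_of_root hr
      have hQt : Q.eval t = c := by
        have : (Q - C c).eval t = 0 := hr
        rwa [eval_sub, eval_C, sub_eq_zero] at this
      have h5 : (derivative Q).eval t ≠ 0 := by
        intro h
        have h6 := congrArg (eval t) hder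
        rw [eval_mul, h, mul_zero, eval_mul, hQt, eval_mul, eval_C, eval_pow, eval_X] at h6
        exact mul_ne_zero hQ0 (mul_ne_zero hκ (pow_ne_zero _ ht)) h6.symm
      have h6 : (derivative Q).rootMultiplicity t = 0 := rootMultiplicity_eq_zero (by simpa [IsRoot] using h5)
      rw [hdP, h6] at h4
      omega
    · rw [rootMultiplicity_eq_zero hr]
      exact Nat.zero_le _

theorem belyi_one (K : Type) [Field K] [IsAlgClosed K] [CharZero K] {e q a : ℕ} (he : 1 ≤ e) (hq : 1 ≤ q) (ha : 1 ≤ a)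
    (haq : a ≤ q) : Bel K (e + 1) q (a * e) 1 (q - a) a := by
  set d : Fin q → ℕ := fun i => if (i : ℕ) < a then e + 1 else 1 with hd
  have hd1 : ∀ i, 1 ≤ d i := by
    intro i
    rw [hd]
    dsimp only
    split_ifs <;> omega
  obtain ⟨ρ, h0, hsum⟩ := p1_rho (K := K) hq d
  obtain ⟨κ, hT⟩ := p1_T hq d ρ hsum
  obtain ⟨hκ, hρ, hinj⟩ := p1_ne hq d hd1 ρ h0 hT
  set z : Fin q → K := fun i => (ρ i)⁻¹ with hz
  have hz0 : ∀ i, z i ≠ 0 := fun i => inv_ne_zero (hρ i)
  have hzinj : Function.Injective z := fun i j hij => hinj (inv_injective hij)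
  have hR : (∏ l, (-ρ l)) ≠ 0 := Finset.prod_ne_zero_iff.2 fun l _ => neg_ne_zero.2 (hρ l)
  set W : K[X] := ∏ i, (X - C (z i)) with hW
  set Q : K[X] := ∏ i, (X - C (z i)) ^ d i with hQ
  have hder : W * derivative Q = Q * (C (-κ / ∏ l, (-ρ l)) * X ^ (q - 1)) := by
    rw [hW, hQ, P1_logder d z, hz, P1_sum d ρ hρ hT]
  have hW0 : W.eval 0 ≠ 0 := by
    rw [hW, eval_prod]
    exact Finset.prod_ne_zero_iff.2 fun i _ => by simpa using hz0 i
  have hQ0 : Q.eval 0 ≠ 0 := by
    rw [hQ, eval_prod]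
    exact Finset.prod_ne_zero_iff.2 fun i _ => by
      rw [eval_pow]
      exact pow_ne_zero _ (by simpa using hz0 i)
  obtain ⟨A, hA, hsq⟩ := P1_core hq (div_ne_zero (neg_ne_zero.2 hκ) hR) hW0 hQ0 hder
  set D : K[X] := ∏ i ∈ Finset.univ.filter (fun i : Fin q => (i : ℕ) < a), (X - C (z i)) with hD
  set E : K[X] := ∏ i ∈ Finset.univ.filter (fun i : Fin q => ¬ (i : ℕ) < a), (X - C (z i)) with hE
  have hDE : E * D = W := by
    rw [hE, hD, hW, mul_comm]
    exact Finset.prod_filter_mul_prod_filter_not Finset.univ (fun i : Fin q => (i : ℕ) < a) _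
  have hQE : Q = E * D ^ (e + 1) := by
    rw [hQ, hE, hD, ← Finset.prod_filter_mul_prod_filter_not Finset.univ (fun i : Fin q => (i : ℕ) < a), mul_comm,
      ← Finset.prod_pow]
    congr 1
    · refine Finset.prod_congr rfl fun i hi => ?_
      rw [hd]
      dsimp only
      rw [if_neg (Finset.mem_filter.1 hi).2, pow_one]
    · refine Finset.prod_congr rfl fun i hi => ?_
      rw [hd]
      dsimp only
      rw [if_pos (Finset.mem_filter.1 hi).2]
  have hcard : (Finset.univ.filter fun i : Fin q => (i : ℕ) < a).card = a := by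
    have h1 : (Finset.univ.filter fun i : Fin q => (i : ℕ) < a) =
        (Finset.range a).attachFin (fun n hn => lt_of_lt_of_le (Finset.mem_range.1 hn) haq) := by
      ext i
      simp
    rw [h1, Finset.card_attachFin, Finset.card_range]
  have hcard' : (Finset.univ.filter fun i : Fin q => ¬ (i : ℕ) < a).card = q - a := by
    have h1 := Finset.card_filter_add_card_filter_not (s := (Finset.univ : Finset (Fin q))) (fun i : Fin q => (i : ℕ) < a)
    rw [hcard, Finset.card_univ, Fintype.card_fin] at h1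
    omega
  have hDm : D.Monic := monic_prod_of_monic _ _ fun i _ => monic_X_sub_C _
  have hEm : E.Monic := monic_prod_of_monic _ _ fun i _ => monic_X_sub_C _
  have hDd : D.natDegree = a := by
    rw [hD, natDegree_prod_of_monic _ _ fun i _ => monic_X_sub_C _]
    simp only [natDegree_X_sub_C, Finset.sum_const, smul_eq_mul, mul_one]
    exact hcard
  have hEd : E.natDegree = q - a := by
    rw [hE, natDegree_prod_of_monic _ _ fun i _ => monic_X_sub_C _]
    simp only [natDegree_X_sub_C, Finset.sum_const, smul_eq_mul, mul_one]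
    exact hcard'
  have hQm : Q.Monic := by
    rw [hQE]
    exact hEm.mul (hDm.pow _)
  have hQd : Q.natDegree = q + a * e := by
    rw [hQE, hEm.natDegree_mul (hDm.pow _), hDm.natDegree_pow, hEd, hDd]
    have : (e + 1) * a = a * e + a := by ring
    omega
  have hlt : (C (Q.eval 0)).degree < Q.degree := by
    rw [degree_eq_natDegree hQm.ne_zero, hQd]
    refine lt_of_le_of_lt degree_C_le ?_
    exact_mod_cast (by omega : 0 < q + a * e)
  have hPm : (A * X ^ q).Monic := by
    rw [hA]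
    exact hQm.sub_of_left hlt
  have hAm : A.Monic := (monic_X_pow q).of_mul_monic_right hPm
  have hAd : A.natDegree = a * e := by
    have h1 : (A * X ^ q).natDegree = Q.natDegree := by
      rw [hA]
      exact natDegree_sub_C
    rw [hAm.natDegree_mul (monic_X_pow q), natDegree_X_pow, hQd] at h1
    omega
  refine ⟨A, X, D, E, -Q.eval 0, neg_ne_zero.2 hQ0, hAm, monic_X, hDm, hEm, hsq, ?_, hAd, natDegree_X, hEd, hDd, ?_⟩
  · rw [hDE, hW]
    exact (separable_prod_X_sub_C_iff.2 hzinj).squarefree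
  · rw [hA, ← hQE, C_neg]
    ring

end Pool.Agent.LibEX36
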