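import Pool.Agent.LibVT36.K3
import Pool.Agent.LibPS77.P3
import Pool.Agent.LibEX36.Defs

/-!
[EX36 PB] The pull-back along a polynomial (LibPS77).
-/

open scoped Classical

namespace Pool.Agent.LibEX36

open Polynomial
open Pool.Agent.LibBH2
open Pool.Agent.LibCHd (FunF)
open Pool.Agent.LibVT36

variable {k : Type} [Field k]

/-- the curve `P(x) = t` is unramified over `L` if every ramification index of `t` over `P(α)` is divisible by the multiplicity of `α`,
for all `α`, and the ramification indices over `∞` are divisible by the degree -/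
theorem pull [IsAlgClosed k] [CharZero k] {L : Type} [Field L] [Algebra k L] (hL : FunF k 1 L) {t : L} (ht : NC k t)
    {P : k[X]} (hP : 0 < P.natDegree) (hi : Ram t (none : Option k) P.natDegree)
    (h : ∀ α : k, Ram t (some (P.eval α)) ((P - C (P.eval α)).rootMultiplicity α)) :
    ∃ (L' : Type) (_ : Field L') (_ : Algebra k L') (φ : L →ₐ[k] L') (x : L'), IsEt φ ∧ FunF k 1 L' ∧
      aeval x P = φ t := by
  obtain ⟨L', i1, i2, φ, s, h1, h2, _, h4⟩ := Pool.Agent.LibPS77.pull hL ht hP hi h
  exact ⟨L', i1, i2, φ, s, h1, h2, h4⟩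

theorem pull_ram {L : Type} [Field L] [Algebra k L] {L' : Type} [Field L'] [Algebra k L'] {φ : L →ₐ[k] L'}
    (hφ : IsEt φ) {t : L} (ht : NC k t) {x : L'} {P : k[X]} (hP : 0 < P.natDegree) (hx : aeval x P = φ t) {α : k} {n : ℕ}
    (hR : Ram t (some (P.eval α)) ((P - C (P.eval α)).rootMultiplicity α * n)) : Ram x (some α) n := by
  intro w hw
  have hw' : 0 < w.ord (x - algebraMap k L' α) := hw
  set μ := (P - C (P.eval α)).rootMultiplicity α with hμ
  have hne : P - C (P.eval α) ≠ 0 := by
    intro h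
    have h1 : P = C (P.eval α) := sub_eq_zero.mp h
    rw [h1, natDegree_C] at hP
    exact lt_irrefl _ hP
  obtain ⟨G, hG, hG'⟩ := Polynomial.exists_eq_pow_rootMultiplicity_mul_and_not_dvd (P - C (P.eval α)) hne α
  have hGα : G.eval α ≠ 0 := fun h => hG' (Polynomial.dvd_iff_isRoot.mpr h)
  have hμ1 : 0 < μ := by
    rw [hμ, Polynomial.rootMultiplicity_pos hne]
    simp
  obtain ⟨v, hv⟩ := hφ.restr w
  have h1 : φ (t - algebraMap k L (P.eval α)) = (x - algebraMap k L' α) ^ μ * aeval x G := by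
    have h2 := congrArg (aeval x) hG
    rw [map_sub, hx, aeval_C, map_mul, map_pow, map_sub, aeval_X, aeval_C] at h2
    rw [map_sub, φ.commutes, h2]
  have hxne : x - algebraMap k L' α ≠ 0 := by
    intro h0
    rw [h0, w.ord_zero] at hw'
    exact lt_irrefl _ hw'
  have hval : w.Zer (aeval x G - algebraMap k L' (G.eval α)) := Place.val_aeval (Or.inr hw') G
  have hG0 : w.ord (aeval x G) = 0 := Place.ord_eq_zero_of_val hval hGα
  have hGne : aeval x G ≠ 0 := by
    intro h0
    rw [h0] at h1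
    rw [mul_zero] at h1
    have h3 := (map_eq_zero φ).mp h1
    exact ht.sub_ne (P.eval α) h3
  have h4 : v.ord (t - algebraMap k L (P.eval α)) = μ * w.ord (x - algebraMap k L' α) := by
    rw [hv, h1, w.ord_mul _ _ (pow_ne_zero _ hxne) hGne, w.ord_pow, hG0, add_zero]
  have h5 := hR v (by
    show 0 < v.ord (t - algebraMap k L (P.eval α))
    rw [h4]
    positivity)
  have h6 : ((μ * n : ℕ) : ℤ) ∣ v.ord (t - algebraMap k L (P.eval α)) := h5
  rw [h4] at h6
  push_cast at h6
  exact (mul_dvd_mul_iff_left (by exact_mod_cast hμ1.ne')).1 h6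

theorem pull_nc {L : Type} [Field L] [Algebra k L] {L' : Type} [Field L'] [Algebra k L'] {φ : L →ₐ[k] L'} {t : L}
    (ht : NC k t) {x : L'} {P : k[X]} (hx : aeval x P = φ t) : NC k x := by
  rintro ⟨c, rfl⟩
  apply ht.map φ
  refine ⟨P.eval c, ?_⟩
  rw [← hx, aeval_algebraMap_apply, coe_aeval_eq_eval]

end Pool.Agent.LibEX36
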