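import Pool.Agent.LibEX36.E8
import Pool.Agent.LibEX36.PB

/-!
[EX36 R0] The polynomial `F = κ⁻¹ A B^q`, ramified over `0, 1, ∞` only.
-/

open scoped Classical

namespace Pool.Agent.LibEX36

open Polynomial
open Pool.Agent.LibBH2
open Pool.Agent.LibCHd (FunF)
open Pool.Agent.LibVT36

variable {k : Type} [Field k]

/-- the ramification index of the polynomial at `α` -/
noncomputable def ri (F : k[X]) (α : k) : ℕ := (F - C (F.eval α)).rootMultiplicity α

private theorem R0_sqf {A B : k[X]} (hA : A ≠ 0) (hB : B ≠ 0) (h : Squarefree (A * B)) (α : k) :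
    A.rootMultiplicity α + B.rootMultiplicity α ≤ 1 := by
  rw [← rootMultiplicity_mul (mul_ne_zero hA hB)]
  by_contra hc
  push Not at hc
  have h1 : (X - C α) ^ 2 ∣ A * B := (pow_dvd_pow _ hc).trans (pow_rootMultiplicity_dvd _ _)
  have h2 := h (X - C α) (by rwa [← pow_two])
  exact (irreducible_X_sub_C α).not_isUnit h2

private theorem R0_pow {B : k[X]} (hB : B ≠ 0) (α : k) (q : ℕ) :
    (B ^ q).rootMultiplicity α = q * B.rootMultiplicity α := by
  induction q with
  | zero => simp
  | succ q ih =>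
    rw [pow_succ, rootMultiplicity_mul (mul_ne_zero (pow_ne_zero _ hB) hB), ih]
    ring

theorem card_of_simple [IsAlgClosed k] {A : k[X]} (hA : A ≠ 0) (h : ∀ α, A.rootMultiplicity α ≤ 1) :
    A.roots.toFinset.card = A.natDegree := by
  have h1 : A.roots.Nodup := by
    rw [Multiset.nodup_iff_count_le_one]
    intro α
    rw [count_roots]
    exact h α
  rw [Multiset.toFinset_card_of_nodup h1]
  exact (IsAlgClosed.splits A).natDegree_eq_card_roots.symm

/-- the polynomial -/
theorem bel_poly [IsAlgClosed k] [CharZero k] {p q r s b s' a : ℕ} (hp : 1 ≤ p) (hq : 1 ≤ q) (hr : 0 < r)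
    (hB : Bel k p q s b s' a) (h1 : s + q * b = r) (h2 : s' + p * a = r) (h3 : a * (p - 1) + 1 = s + b) :
    ∃ (F : k[X]) (SA SE SD : Finset k), F.natDegree = r ∧ SA.card = s ∧ SE.card = s' ∧ SD.card = a ∧ Disjoint SE SD ∧
      (∀ α ∈ SA, F.eval α = 0 ∧ ri F α = 1) ∧ (∀ α ∈ SE, F.eval α = 1 ∧ ri F α = 1) ∧
      (∀ α ∈ SD, F.eval α = 1 ∧ ri F α = p) ∧ (∀ α, F.eval α = 0 → ri F α ∣ q) ∧ (∀ α, F.eval α = 1 → ri F α ∣ p) ∧
      ∀ α, F.eval α ≠ 0 → F.eval α ≠ 1 → ri F α = 1 := by
  obtain ⟨A, B, D, E, κ, hκ, hA, hB, hD, hE, hAB, hED, dA, dB, dE, dD, heq⟩ := hB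
  have hκ' : κ⁻¹ ≠ 0 := inv_ne_zero hκ
  set G : k[X] := A * B ^ q with hG
  have hGm : G.Monic := hA.mul (hB.pow q)
  have hGd : G.natDegree = r := by
    rw [hG, hA.natDegree_mul (hB.pow q), hB.natDegree_pow, dA, dB, h1]
  have hGe : G = E * D ^ p + C κ := by rw [← heq]; ring
  set F : k[X] := C κ⁻¹ * G with hF
  have hFd : F.natDegree = r := by rw [hF, natDegree_C_mul hκ', hGd]
  have hF1 : F - C 1 = C κ⁻¹ * (E * D ^ p) := by
    rw [hF, ← heq, mul_sub, ← C_mul, inv_mul_cancel₀ hκ]
  have hC : (C κ⁻¹ : k[X]) ≠ 0 := by rwa [Ne, C_eq_zero]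
  have hrC : ∀ α : k, (C κ⁻¹ : k[X]).rootMultiplicity α = 0 := fun α => by simp
  have m0 : ∀ α, F.eval α = 0 → ri F α = A.rootMultiplicity α + q * B.rootMultiplicity α := by
    intro α hα
    rw [ri, hα, C_0, sub_zero, hF, rootMultiplicity_mul (mul_ne_zero hC hGm.ne_zero), hrC, zero_add, hG,
      rootMultiplicity_mul hGm.ne_zero, R0_pow hB.ne_zero]
  have hEDm : (E * D ^ p).Monic := hE.mul (hD.pow p)
  have m1 : ∀ α, F.eval α = 1 → ri F α = E.rootMultiplicity α + p * D.rootMultiplicity α := by
    intro α hα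
    rw [ri, hα, hF1, rootMultiplicity_mul (mul_ne_zero hC hEDm.ne_zero), hrC, zero_add,
      rootMultiplicity_mul hEDm.ne_zero, R0_pow hD.ne_zero]
  have sAB : ∀ α, A.rootMultiplicity α + B.rootMultiplicity α ≤ 1 := fun α => R0_sqf hA.ne_zero hB.ne_zero hAB α
  have sED : ∀ α, E.rootMultiplicity α + D.rootMultiplicity α ≤ 1 := fun α => R0_sqf hE.ne_zero hD.ne_zero hED α
  have eF0 : ∀ α, F.eval α = κ⁻¹ * (A.eval α * B.eval α ^ q) := by
    intro α
    rw [hF, hG, eval_mul, eval_C, eval_mul, eval_pow]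
  have eF1 : ∀ α, F.eval α - 1 = κ⁻¹ * (E.eval α * D.eval α ^ p) := by
    intro α
    have := congrArg (eval α) hF1
    simpa only [eval_sub, eval_C, eval_mul, eval_pow] using this
  have rpos : ∀ {H : k[X]} (_ : H ≠ 0) {α : k}, H.eval α = 0 → 1 ≤ H.rootMultiplicity α := by
    intro H hH α h
    exact (rootMultiplicity_pos hH).mpr h
  refine ⟨F, A.roots.toFinset, E.roots.toFinset, D.roots.toFinset, hFd, ?_, ?_, ?_, ?_, ?_, ?_, ?_, ?_, ?_, ?_⟩
  · rw [card_of_simple hA.ne_zero fun α => by have := sAB α; omega, dA]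
  · rw [card_of_simple hE.ne_zero fun α => by have := sED α; omega, dE]
  · rw [card_of_simple hD.ne_zero fun α => by have := sED α; omega, dD]
  · rw [Finset.disjoint_left]
    intro α h h'
    rw [Multiset.mem_toFinset, mem_roots hE.ne_zero] at h
    rw [Multiset.mem_toFinset, mem_roots hD.ne_zero] at h'
    have a1 := rpos hE.ne_zero h
    have a2 := rpos hD.ne_zero h'
    have a3 := sED α
    omega
  · intro α h
    rw [Multiset.mem_toFinset, mem_roots hA.ne_zero] at h
    have h' : A.eval α = 0 := h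
    have e : F.eval α = 0 := by rw [eF0, h', zero_mul, mul_zero]
    have a1 := rpos hA.ne_zero h'
    have a3 := sAB α
    refine ⟨e, ?_⟩
    rw [m0 α e]
    have : B.rootMultiplicity α = 0 := by omega
    rw [this]
    omega
  · intro α h
    rw [Multiset.mem_toFinset, mem_roots hE.ne_zero] at h
    have h' : E.eval α = 0 := h
    have e : F.eval α = 1 := by
      have := eF1 α
      rw [h', zero_mul, mul_zero] at this
      exact sub_eq_zero.mp this
    have a1 := rpos hE.ne_zero h'
    have a3 := sED α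
    refine ⟨e, ?_⟩
    rw [m1 α e]
    have : D.rootMultiplicity α = 0 := by omega
    rw [this]
    omega
  · intro α h
    rw [Multiset.mem_toFinset, mem_roots hD.ne_zero] at h
    have h' : D.eval α = 0 := h
    have e : F.eval α = 1 := by
      have := eF1 α
      rw [h', zero_pow (by omega), mul_zero, mul_zero] at this
      exact sub_eq_zero.mp this
    have a1 := rpos hD.ne_zero h'
    have a3 := sED α
    refine ⟨e, ?_⟩
    rw [m1 α e]
    have e1 : D.rootMultiplicity α = 1 := by omega
    have e2 : E.rootMultiplicity α = 0 := by omega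
    rw [e1, e2]
    omega
  · intro α e
    have a3 := sAB α
    rw [m0 α e]
    rcases Nat.lt_or_ge 0 (B.rootMultiplicity α) with h | h
    · have e1 : B.rootMultiplicity α = 1 := by omega
      have e2 : A.rootMultiplicity α = 0 := by omega
      rw [e1, e2]
      simp
    · have e1 : B.rootMultiplicity α = 0 := by omega
      have h5 : A.rootMultiplicity α ≠ 0 := by
        intro h6
        have h7 := m0 α e
        rw [e1, h6, ri, e, C_0, sub_zero] at h7
        have hF0 : F ≠ 0 := by
          intro h0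
          rw [h0, natDegree_zero] at hFd
          omega
        have h8 := rpos hF0 e
        omega
      have e2 : A.rootMultiplicity α = 1 := by omega
      rw [e1, e2]
      simp
  · intro α e
    have a3 := sED α
    rw [m1 α e]
    rcases Nat.lt_or_ge 0 (D.rootMultiplicity α) with h | h
    · have e1 : D.rootMultiplicity α = 1 := by omega
      have e2 : E.rootMultiplicity α = 0 := by omega
      rw [e1, e2]
      simp
    · have e1 : D.rootMultiplicity α = 0 := by omega
      have h5 : E.rootMultiplicity α ≠ 0 := by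
        intro h6
        have h7 := m1 α e
        rw [e1, h6, ri, e] at h7
        have hF0 : F - C 1 ≠ 0 := by
          intro h0
          have h9 : F = C 1 := sub_eq_zero.mp h0
          rw [h9, natDegree_C] at hFd
          omega
        have h8 := rpos hF0 (α := α) (by rw [eval_sub, e, eval_C, sub_self])
        omega
      have e2 : E.rootMultiplicity α = 1 := by omega
      rw [e1, e2]
      simp
  · intro α n0 n1
    have hBα : B.eval α ≠ 0 := by
      intro h
      apply n0
      rw [eF0, h, zero_pow (by omega), mul_zero, mul_zero]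
    have hDα : D.eval α ≠ 0 := by
      intro h
      apply n1
      have := eF1 α
      rw [h, zero_pow (by omega), mul_zero, mul_zero] at this
      exact sub_eq_zero.mp this
    have hcop : IsCoprime B D := by
      refine ⟨C κ⁻¹ * A * B ^ (q - 1), -(C κ⁻¹ * E * D ^ (p - 1)), ?_⟩
      have e1 : B ^ (q - 1) * B = B ^ q := by rw [← pow_succ, Nat.sub_add_cancel hq]
      have e2 : D ^ (p - 1) * D = D ^ p := by rw [← pow_succ, Nat.sub_add_cancel hp]
      have e3 : (C κ⁻¹ : k[X]) * C κ = 1 := by rw [← C_mul, inv_mul_cancel₀ hκ, C_1]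
      linear_combination (C κ⁻¹ * A) * e1 - (C κ⁻¹ * E) * e2 + C κ⁻¹ * heq + e3
    have hd : derivative G ≠ 0 := by
      intro h0
      have h5 := natDegree_derivative G
      rw [h0, natDegree_zero] at h5
      have h6 := derivative_eq_zero.mp h0
      omega
    have d1 : B ^ (q - 1) ∣ derivative G := by
      rw [hG, derivative_mul, derivative_pow]
      refine dvd_add ?_ ?_
      · exact (pow_dvd_pow B (Nat.sub_le q 1)).mul_left _
      · exact Dvd.dvd.mul_left (Dvd.dvd.mul_right (Dvd.dvd.mul_left dvd_rfl _) _) _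
    have d2 : D ^ (p - 1) ∣ derivative G := by
      rw [hGe, derivative_add, derivative_C, add_zero, derivative_mul, derivative_pow]
      refine dvd_add ?_ ?_
      · exact (pow_dvd_pow D (Nat.sub_le p 1)).mul_left _
      · exact Dvd.dvd.mul_left (Dvd.dvd.mul_right (Dvd.dvd.mul_left dvd_rfl _) _) _
    have d3 : B ^ (q - 1) * D ^ (p - 1) ∣ derivative G := (hcop.pow).mul_dvd d1 d2
    obtain ⟨H, hH⟩ := d3
    have hH0 : H ≠ 0 := by
      rintro rfl
      rw [mul_zero] at hH
      exact hd hH
    have hBD : (B ^ (q - 1) * D ^ (p - 1)).Monic := (hB.pow _).mul (hD.pow _)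
    have hdeg : (derivative G).natDegree = r - 1 := by rw [natDegree_derivative, hGd]
    have hHd : H.natDegree = 0 := by
      rw [hH, hBD.natDegree_mul' hH0, (hB.pow _).natDegree_mul (hD.pow _), hB.natDegree_pow, hD.natDegree_pow, dB, dD] at hdeg
      obtain ⟨q', rfl⟩ : ∃ q', q = q' + 1 := ⟨q - 1, by omega⟩
      obtain ⟨p', rfl⟩ : ∃ p', p = p' + 1 := ⟨p - 1, by omega⟩
      simp only [Nat.add_sub_cancel] at hdeg h3
      have e4 : s + (q' + 1) * b = s + b + q' * b := by ring
      have e5 : a * p' = p' * a := mul_comm _ _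
      omega
    have hG'α : (derivative G).eval α ≠ 0 := by
      rw [hH, eval_mul, eval_mul, eval_pow, eval_pow]
      refine mul_ne_zero (mul_ne_zero (pow_ne_zero _ hBα) (pow_ne_zero _ hDα)) ?_
      rw [eq_C_of_natDegree_eq_zero hHd, eval_C]
      intro h0
      apply hH0
      rw [eq_C_of_natDegree_eq_zero hHd, h0, C_0]
    have hFne : F - C (F.eval α) ≠ 0 := by
      intro h0
      have h9 : F = C (F.eval α) := sub_eq_zero.mp h0
      rw [h9, natDegree_C] at hFd
      omega
    have u1 : 1 ≤ ri F α := rpos hFne (by rw [eval_sub, eval_C, sub_self])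
    have u2 : ¬ 1 < ri F α := by
      intro h
      have h8 := ((one_lt_rootMultiplicity_iff_isRoot hFne).mp h).2
      rw [derivative_sub, derivative_C, sub_zero, hF, derivative_C_mul, IsRoot.def, eval_mul, eval_C] at h8
      exact (mul_ne_zero hκ' hG'α) h8
    omega

end Pool.Agent.LibEX36
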