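import Pool.Agent.LibEX36.R0

/-!
[EX36 R1] The signature of the pull-back along the polynomial `F`.
-/

open scoped Classical

namespace Pool.Agent.LibEX36

open Polynomial
open Pool.Agent.LibBH2
open Pool.Agent.LibCHd (FunF)
open Pool.Agent.LibVT36

variable {k : Type} [Field k]

private theorem R1_rep {α β : Type} {R : α → β → Prop} {y : β} :
    ∀ {l : List α} {n : ℕ}, l.length = n → (∀ x ∈ l, R x y) → List.Forall₂ R l (List.replicate n y) := by
  intro l
  induction l with
  | nil =>
    intro n hn _
    rw [List.length_nil] at hn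
    subst hn
    exact List.Forall₂.nil
  | cons x l ih =>
    intro n hn h
    rw [List.length_cons] at hn
    subst hn
    rw [List.replicate_succ]
    exact List.Forall₂.cons (h x List.mem_cons_self) (ih rfl fun z hz => h z (List.mem_cons_of_mem _ hz))

theorem sig_pull [IsAlgClosed k] [CharZero k] {L : Type} [Field L] [Algebra k L] (hL : FunF k 1 L)
    {p q r s b s' a m : ℕ} {l : List ℕ} (hp : 1 ≤ p) (hq : 1 ≤ q) (hr : 0 < r) (hB : Bel k p q s b s' a)
    (h1 : s + q * b = r) (h2 : s' + p * a = r) (h3 : a * (p - 1) + 1 = s + b)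
    (h : Sig k L (p * m :: q :: r :: l)) :
    Reach k L (fun L' _ _ => Sig k L' (List.replicate s q ++ (List.replicate s' (p * m) ++
      (List.replicate a m ++ l.flatMap (List.replicate r))))) := by
  obtain ⟨t0, P0, ht0, hnd, hf⟩ := h
  rw [List.forall₂_cons_right_iff] at hf
  obtain ⟨P1, Q1, hP1, hf1, rfl⟩ := hf
  rw [List.forall₂_cons_right_iff] at hf1
  obtain ⟨P2, Q2, hP2, hf2, rfl⟩ := hf1
  rw [List.forall₂_cons_right_iff] at hf2
  obtain ⟨P3, Q, hP3, hf3, rfl⟩ := hf2
  rw [List.nodup_cons, List.nodup_cons, List.nodup_cons] at hnd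
  obtain ⟨n1, n2, n3, hQ⟩ := hnd
  have h21 : P2 ≠ P1 := fun e => n1 (by rw [← e]; simp)
  have h23 : P2 ≠ P3 := fun e => n2 (by rw [e]; simp)
  have h31 : P3 ≠ P1 := fun e => n1 (by rw [← e]; simp)
  obtain ⟨t, μ, ht, hμ, m2, m3, m1, hram⟩ := mob3 ht0 h23 h21 h31
  have r1 := hram _ _ hP1
  have r2 := hram _ _ hP2
  have r3 := hram _ _ hP3
  rw [m1] at r1
  rw [m2] at r2
  rw [m3] at r3
  obtain ⟨F, SA, SE, SD, hFd, cA, cE, cD, hED, hA, hE, hD, e0, e1, e2⟩ := bel_poly hp hq hr hB h1 h2 h3
  have hF0 : 0 < F.natDegree := by rw [hFd]; exact hr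
  obtain ⟨L', i1, i2, φ, x, hφ, hL', hx⟩ := pull hL ht (P := F) hF0 (by rw [hFd]; exact r3) (by
    intro α
    by_cases c0 : F.eval α = 0
    · have := e0 α c0
      rw [ri] at this
      rw [c0] at this ⊢
      exact r2.dvd this
    by_cases c1 : F.eval α = 1
    · have := e1 α c1
      rw [ri] at this
      rw [c1] at this ⊢
      exact r1.dvd (this.mul_right m)
    · have := e2 α c0 c1
      rw [ri] at this
      rw [this]
      intro w _
      exact one_dvd _)
  refine ⟨L', i1, i2, φ, hφ, hL', ?_⟩
  have hQ' : ∀ c ∈ Q, ∃ v : k, μ c = some v ∧ v ≠ 0 ∧ v ≠ 1 := by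
    intro c hc
    cases e : μ c with
    | none =>
      exfalso
      have : c = P3 := hμ (by rw [e, m3])
      exact n3 (this ▸ hc)
    | some v =>
      refine ⟨v, rfl, ?_, ?_⟩
      · rintro rfl
        have : c = P2 := hμ (by rw [e, m2])
        exact n2 (List.mem_cons_of_mem _ (this ▸ hc))
      · rintro rfl
        have : c = P1 := hμ (by rw [e, m1])
        exact n1 (List.mem_cons_of_mem _ (List.mem_cons_of_mem _ (this ▸ hc)))
  -- the fibre over a point
  obtain ⟨fib, hfib⟩ : ∃ fib : Option k → List k, ∀ c, fib c = (F - C ((μ c).getD 0)).roots.toFinset.toList :=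
    ⟨_, fun _ => rfl⟩
  have hne : ∀ v : k, F - C v ≠ 0 := by
    intro v h0
    have h9 : F = C v := sub_eq_zero.mp h0
    rw [h9, natDegree_C] at hF0
    exact lt_irrefl _ hF0
  have hmem : ∀ (c : Option k) (v : k), μ c = some v → ∀ α, α ∈ fib c ↔ F.eval α = v := by
    intro c v hv α
    rw [hfib, Finset.mem_toList, Multiset.mem_toFinset, mem_roots (hne _), IsRoot.def, eval_sub, eval_C, hv, Option.getD_some,
      sub_eq_zero]
  have hlen : ∀ c ∈ Q, (fib c).length = r := by
    intro c hc
    obtain ⟨v, hv, v0, v1⟩ := hQ' c hc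
    rw [hfib, Finset.length_toList, hv, Option.getD_some, card_of_simple (hne v)]
    · rw [← hFd]
      exact natDegree_sub_C
    · intro α
      by_cases hα : F.eval α = v
      · have := e2 α (by rw [hα]; exact v0) (by rw [hα]; exact v1)
        rw [ri, hα] at this
        exact this.le
      · rw [rootMultiplicity_eq_zero]
        · exact Nat.zero_le _
        · rw [IsRoot.def, eval_sub, eval_C, sub_eq_zero]
          exact hα
  refine ⟨x, SA.toList.map some ++ (SE.toList.map some ++ (SD.toList.map some ++ Q.flatMap fun c => (fib c).map some)),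
    pull_nc ht hx, ?_, ?_⟩
  · -- the points are different
    have vA : ∀ y ∈ SA.toList.map some, F.eval (Option.getD y 0) = 0 := by
      intro y hy
      rw [List.mem_map] at hy
      obtain ⟨α, hα, rfl⟩ := hy
      exact (hA α (Finset.mem_toList.mp hα)).1
    have vE : ∀ y ∈ SE.toList.map some, F.eval (Option.getD y 0) = 1 := by
      intro y hy
      rw [List.mem_map] at hy
      obtain ⟨α, hα, rfl⟩ := hy
      exact (hE α (Finset.mem_toList.mp hα)).1
    have vD : ∀ y ∈ SD.toList.map some, F.eval (Option.getD y 0) = 1 := by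
      intro y hy
      rw [List.mem_map] at hy
      obtain ⟨α, hα, rfl⟩ := hy
      exact (hD α (Finset.mem_toList.mp hα)).1
    have vQ : ∀ y ∈ Q.flatMap (fun c => (fib c).map some), F.eval (Option.getD y 0) ≠ 0 ∧ F.eval (Option.getD y 0) ≠ 1 := by
      intro y hy
      rw [List.mem_flatMap] at hy
      obtain ⟨c, hc, hy⟩ := hy
      rw [List.mem_map] at hy
      obtain ⟨α, hα, rfl⟩ := hy
      obtain ⟨v, hv, v0, v1⟩ := hQ' c hc
      rw [hmem c v hv] at hα
      rw [Option.getD_some, hα]
      exact ⟨v0, v1⟩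
    have hsome : ∀ S : Finset k, (S.toList.map (some : k → Option k)).Nodup := fun S =>
      (List.nodup_map_iff (Option.some_injective k)).mpr S.nodup_toList
    refine List.Nodup.append (hsome SA) (List.Nodup.append (hsome SE) (List.Nodup.append (hsome SD) ?_ ?_) ?_) ?_
    · rw [List.nodup_flatMap]
      refine ⟨?_, ?_⟩
      · intro c _
        rw [hfib]
        exact hsome _
      · refine List.Nodup.pairwise_of_forall_ne hQ ?_
        intro c hc c' hc' hcc
        rw [Function.onFun, List.disjoint_left]
        intro y hy hy'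
        rw [List.mem_map] at hy hy'
        obtain ⟨α, hα, rfl⟩ := hy
        obtain ⟨α', hα', e⟩ := hy'
        have e3 := Option.some.inj e
        subst e3
        obtain ⟨v, hv, _⟩ := hQ' c hc
        obtain ⟨v', hv', _⟩ := hQ' c' hc'
        rw [hmem c v hv] at hα
        rw [hmem c' v' hv'] at hα'
        exact hcc (hμ (by rw [hv, hv', ← hα, ← hα']))
    · rw [List.disjoint_left]
      intro y hy hy'
      exact (vQ y hy').2 (vD y hy)
    · rw [List.disjoint_left]
      intro y hy hy'
      rw [List.mem_append] at hy'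
      rcases hy' with hy' | hy'
      · rw [List.mem_map] at hy hy'
        obtain ⟨α, hα, rfl⟩ := hy
        obtain ⟨α', hα', e⟩ := hy'
        have e3 := Option.some.inj e
        subst e3
        exact Finset.disjoint_left.mp hED (Finset.mem_toList.mp hα) (Finset.mem_toList.mp hα')
      · exact (vQ y hy').2 (vE y hy)
    · rw [List.disjoint_left]
      intro y hy hy'
      have z0 := vA y hy
      rw [List.mem_append, List.mem_append] at hy'
      rcases hy' with hy' | hy' | hy'
      · rw [vE y hy'] at z0
        exact one_ne_zero z0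
      · rw [vD y hy'] at z0
        exact one_ne_zero z0
      · exact (vQ y hy').1 z0
  · -- ramification
    have key : ∀ (α : k) (n : ℕ), Ram t (some (F.eval α)) (ri F α * n) → Ram x (some α) n := by
      intro α n hR
      exact pull_ram hφ ht hF0 hx hR
    refine List.rel_append (R1_rep ?_ ?_) (List.rel_append (R1_rep ?_ ?_) (List.rel_append (R1_rep ?_ ?_) ?_))
    · rw [List.length_map, Finset.length_toList, cA]
    · intro y hy
      rw [List.mem_map] at hy
      obtain ⟨α, hα, rfl⟩ := hy
      obtain ⟨z1, z2⟩ := hA α (Finset.mem_toList.mp hα)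
      refine key α q ?_
      rw [z1, z2, one_mul]
      exact r2
    · rw [List.length_map, Finset.length_toList, cE]
    · intro y hy
      rw [List.mem_map] at hy
      obtain ⟨α, hα, rfl⟩ := hy
      obtain ⟨z1, z2⟩ := hE α (Finset.mem_toList.mp hα)
      refine key α (p * m) ?_
      rw [z1, z2, one_mul]
      exact r1
    · rw [List.length_map, Finset.length_toList, cD]
    · intro y hy
      rw [List.mem_map] at hy
      obtain ⟨α, hα, rfl⟩ := hy
      obtain ⟨z1, z2⟩ := hD α (Finset.mem_toList.mp hα)
      refine key α m ?_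
      rw [z1, z2]
      exact r1
    · have h6 : List.Forall₂ (fun c n => c ∈ Q ∧ Ram t0 c n) Q l := by
        rw [List.forall₂_iff_zip] at hf3 ⊢
        refine ⟨hf3.1, fun {c n} hxn => ⟨(List.of_mem_zip hxn).1, hf3.2 hxn⟩⟩
      refine List.rel_flatMap h6 ?_
      rintro c n ⟨hc, hR⟩
      obtain ⟨v, hv, v0, v1⟩ := hQ' c hc
      refine R1_rep (by rw [List.length_map, hlen c hc]) ?_
      intro y hy
      rw [List.mem_map] at hy
      obtain ⟨α, hα, rfl⟩ := hy
      rw [hmem c v hv] at hα
      refine key α n ?_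
      rw [e2 α (by rw [hα]; exact v0) (by rw [hα]; exact v1), one_mul, hα, ← hv]
      exact hram c n hR

end Pool.Agent.LibEX36
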