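import Pool.Agent.LibEX36.R1
import Pool.Agent.LibEX36.AR
import Pool.Agent.LibVT36.K12

/-!
[EX36 R2] Perfect signatures with an entry divisible by two or three.
-/

open scoped Classical

namespace Pool.Agent.LibEX36

open Pool.Agent.LibBH2
open Pool.Agent.LibCHd (FunF)
open Pool.Agent.LibVT36

variable {k : Type} [Field k]

private theorem R2_flat (r : ℕ) (f : ℕ → ℚ) (l : List ℕ) :
    ((l.flatMap (List.replicate r)).map f).sum = r * (l.map f).sum := by
  induction l with
  | nil => simp
  | cons x l ih =>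
    rw [List.flatMap_cons, List.map_append, List.sum_append, ih, List.map_replicate, List.sum_replicate, List.map_cons,
      List.sum_cons, nsmul_eq_mul]
    ring

private theorem R2_pw {x : ℕ} (hx : 2 ≤ x) {l : List ℕ} (h : [x, x].Sublist l) : ¬ l.Pairwise Nat.Coprime := by
  intro hp
  have h1 := hp.sublist h
  rw [List.pairwise_cons] at h1
  have h2 := h1.1 x (by simp)
  rw [Nat.coprime_self] at h2
  omega

private theorem R2_rep {x n : ℕ} (hn : 2 ≤ n) : [x, x].Sublist (List.replicate n x) := by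
  obtain ⟨n', rfl⟩ : ∃ n', n = n' + 2 := ⟨n - 2, by omega⟩
  rw [List.replicate_succ, List.replicate_succ]
  exact List.Sublist.cons_cons _ (List.Sublist.cons_cons _ (List.nil_sublist _))

theorem vv_step [IsAlgClosed k] [CharZero k] {p q r m : ℕ} {l : List ℕ}
    (hp : p = 2 ∧ 3 ≤ q ∨ p = 3 ∧ 5 ≤ q ∧ Odd q ∧ Odd r) (hm : 1 ≤ m) (hqr : q < r) (hc : Nat.Coprime q r)
    (h2 : ∀ n ∈ l, 2 ≤ n)
    (hs : (2 : ℚ) < ((p * m :: q :: r :: l).map fun n : ℕ => (1 : ℚ) - 1 / n).sum) : VV k (p * m :: q :: r :: l) := by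
  obtain ⟨s, b, s', a, hB, h1, h1', h3, h4⟩ := exists_belyi k hp hqr hc
  have hp2 : 2 ≤ p := by omega
  have hq3 : 3 ≤ q := by omega
  have hr0 : 0 < r := by omega
  have hpm : 2 ≤ p * m := by nlinarith
  intro L _ _ hL hS
  refine Reach.trans (sig_pull hL (by omega) (by omega) hr0 hB h1 h1' h3 hS) fun L' _ _ hL' hS' => ?_
  set f : ℕ → ℚ := fun n : ℕ => (1 : ℚ) - 1 / n with hf
  -- the sum
  have hsum : (2 : ℚ) < s * f q + (s' * f (p * m) + (a * f m + r * (l.map f).sum)) := by
    rw [List.map_cons, List.map_cons, List.map_cons, List.sum_cons, List.sum_cons, List.sum_cons] at hs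
    have q0 : (q : ℚ) ≠ 0 := by positivity
    have r0 : (0 : ℚ) < r := by exact_mod_cast hr0
    have m0 : (m : ℚ) ≠ 0 := by positivity
    have p0 : (p : ℚ) ≠ 0 := by positivity
    have e1 : (s : ℚ) + q * b = r := by exact_mod_cast h1
    have e2 : (s' : ℚ) + p * a = r := by exact_mod_cast h1'
    have e3 : (a : ℚ) * (p - 1) + 1 = s + b := by
      have : ((p - 1 : ℕ) : ℚ) = p - 1 := by
        rw [Nat.cast_sub (by omega)]
        norm_num
      rw [← this]
      exact_mod_cast h3
    have f1 : f q = 1 - 1 / q := rfl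
    have f2 : f (p * m) = 1 - 1 / (p * m) := by
      rw [hf]
      push_cast
      rfl
    have f3 : f m = 1 - 1 / m := rfl
    have f4 : f r = 1 - 1 / r := rfl
    have key : s * f q + (s' * f (p * m) + (a * f m + r * (l.map f).sum)) - 2 =
        r * (f (p * m) + (f q + (f r + (l.map f).sum)) - 2) := by
      rw [f1, f2, f3, f4]
      have g1 : (q : ℚ) * (1 / q) = 1 := by field_simp
      have g2 : (r : ℚ) * (1 / r) = 1 := by field_simp
      have g3 : (1 : ℚ) / m = p * (1 / (p * m)) := by field_simp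
      rw [g3]
      generalize (1 : ℚ) / (p * m) = w at *
      generalize (1 : ℚ) / q = u at *
      generalize (1 : ℚ) / r = z at *
      linear_combination (1 - w) * e2 - u * e1 - e3 + g2 + (b : ℚ) * g1
    nlinarith [mul_pos r0 (sub_pos.mpr hs)]
  have hflat : ∀ n ∈ l.flatMap (List.replicate r), 2 ≤ n := by
    intro n hn
    rw [List.mem_flatMap] at hn
    obtain ⟨n', h5, h6⟩ := hn
    rw [List.eq_of_mem_replicate h6]
    exact h2 n' h5
  have hpair : ∀ l' : List ℕ, ¬ (List.replicate s q ++ (List.replicate s' (p * m) ++ l')).Pairwise Nat.Coprime := by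
    intro l'
    rcases h4 with h4 | h4
    · exact R2_pw (by omega) ((R2_rep h4).trans (List.sublist_append_left _ _))
    · exact R2_pw hpm (((R2_rep h4).trans (List.sublist_append_left _ _)).trans (List.sublist_append_right _ _))
  by_cases hm1 : m = 1
  · have hS'' : Sig k L' (List.replicate s q ++ (List.replicate s' (p * m) ++ l.flatMap (List.replicate r))) := by
      refine sig_sub hS' ?_
      exact List.Sublist.append_left (List.Sublist.append_left (List.sublist_append_right _ _) _) _
    refine vv_all ?_ ?_ (hpair _) L' hL' hS''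
    · intro n hn
      rw [List.mem_append, List.mem_append] at hn
      rcases hn with hn | hn | hn
      · rw [List.eq_of_mem_replicate hn]
        omega
      · rw [List.eq_of_mem_replicate hn]
        exact hpm
      · exact hflat n hn
    · change (2 : ℚ) < (List.map f _).sum
      rw [List.map_append, List.sum_append, List.map_append, List.sum_append, R2_flat, List.map_replicate,
        List.sum_replicate, List.map_replicate, List.sum_replicate, nsmul_eq_mul, nsmul_eq_mul]
      have f3 : f m = 0 := by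
        rw [hf, hm1]
        norm_num
      rw [f3, mul_zero, zero_add] at hsum
      exact hsum
  · refine vv_all ?_ ?_ (hpair _) L' hL' hS'
    · intro n hn
      rw [List.mem_append, List.mem_append, List.mem_append] at hn
      rcases hn with hn | hn | hn | hn
      · rw [List.eq_of_mem_replicate hn]
        omega
      · rw [List.eq_of_mem_replicate hn]
        exact hpm
      · rw [List.eq_of_mem_replicate hn]
        omega
      · exact hflat n hn
    · change (2 : ℚ) < (List.map f _).sum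
      rw [List.map_append, List.sum_append, List.map_append, List.sum_append, List.map_append, List.sum_append, R2_flat,
        List.map_replicate, List.sum_replicate, List.map_replicate, List.sum_replicate, List.map_replicate,
        List.sum_replicate, nsmul_eq_mul, nsmul_eq_mul, nsmul_eq_mul]
      exact hsum

private theorem R2_len {l : List ℕ} : (l.map fun n : ℕ => (1 : ℚ) - 1 / n).sum ≤ l.length := by
  induction l with
  | nil => simp
  | cons x l ih =>
    rw [List.map_cons, List.sum_cons, List.length_cons]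
    push_cast
    have : (0 : ℚ) ≤ 1 / x := by positivity
    linarith

/-- the case with a distinguished entry -/
private theorem R2_main [IsAlgClosed k] [CharZero k] {p n : ℕ} {l : List ℕ} (hp : p = 2 ∨ p = 3 ∧ ∀ x ∈ l, Odd x)
    (hn : p ∣ n) (hn2 : 2 ≤ n) (h2 : ∀ x ∈ l, 2 ≤ x) (hco : ∀ x ∈ l, Nat.Coprime n x) (hpw : l.Pairwise Nat.Coprime)
    (hs : (2 : ℚ) < ((n :: l).map fun n : ℕ => (1 : ℚ) - 1 / n).sum) : VV k (n :: l) := by
  obtain ⟨m, rfl⟩ := hn
  have hm : 1 ≤ m := by
    rcases Nat.eq_zero_or_pos m with h | h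
    · rw [h, mul_zero] at hn2
      omega
    · exact h
  have hlen : 2 ≤ l.length := by
    have h5 := R2_len (l := p * m :: l)
    have h6 : (2 : ℚ) < ((p * m :: l).length : ℚ) := lt_of_lt_of_le hs h5
    have h7 : 2 < (p * m :: l).length := by exact_mod_cast h6
    rw [List.length_cons] at h7
    omega
  obtain ⟨x, l1, rfl⟩ : ∃ x l1, l = x :: l1 := by
    cases l with
    | nil => simp at hlen
    | cons x l1 => exact ⟨x, l1, rfl⟩
  obtain ⟨y, l2, rfl⟩ : ∃ y l2, l1 = y :: l2 := by
    cases l1 with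
    | nil => simp at hlen
    | cons y l2 => exact ⟨y, l2, rfl⟩
  have hx := h2 x (by simp)
  have hy := h2 y (by simp)
  have hxy : Nat.Coprime x y := (List.pairwise_cons.mp hpw).1 y (by simp)
  have hne : x ≠ y := by
    rintro rfl
    rw [Nat.coprime_self] at hxy
    omega
  have hcp : ∀ z ∈ x :: y :: l2, Nat.Coprime p z := fun z hz => Nat.Coprime.coprime_mul_right (hco z hz)
  have hcond : ∀ z ∈ x :: y :: l2, ∀ z' ∈ x :: y :: l2, p = 2 ∧ 3 ≤ z ∨ p = 3 ∧ 5 ≤ z ∧ Odd z ∧ Odd z' := by
    intro z hz z' hz'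
    have c1 := hcp z hz
    have c2 := h2 z hz
    rcases hp with rfl | ⟨rfl, hodd⟩
    · left
      refine ⟨rfl, ?_⟩
      by_contra hlt
      have : z = 2 := by omega
      rw [this] at c1
      norm_num at c1
    · right
      have o1 := hodd z hz
      refine ⟨rfl, ?_, o1, hodd z' hz'⟩
      by_contra hlt
      obtain ⟨w, hw⟩ := o1
      have : z = 3 := by omega
      rw [this] at c1
      norm_num at c1
  have h2' : ∀ z ∈ l2, 2 ≤ z := fun z hz => h2 z (by simp [hz])
  rcases Nat.lt_or_ge x y with hlt | hge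
  · exact vv_step (hcond x (by simp) y (by simp)) hm hlt hxy h2' hs
  · have hperm : (p * m :: x :: y :: l2).Perm (p * m :: y :: x :: l2) := (List.Perm.swap y x l2).cons _
    refine VV.perm ?_ hperm
    refine vv_step (hcond y (by simp) x (by simp)) hm (by omega) hxy.symm h2' ?_
    rw [← (hperm.map _).sum_eq]
    exact hs

theorem vv_new [IsAlgClosed k] [CharZero k] {l : List ℕ} (h2 : ∀ n ∈ l, 2 ≤ n)
    (hs : (2 : ℚ) < (l.map fun n : ℕ => (1 : ℚ) - 1 / n).sum)
    (hc : ¬ l.Pairwise Nat.Coprime ∨ ∃ n ∈ l, 2 ∣ n ∨ 3 ∣ n) : VV k l := by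
  by_cases hpw : l.Pairwise Nat.Coprime
  · obtain ⟨p, n, l1, hp, hn, hperm⟩ : ∃ (p n : ℕ) (l1 : List ℕ), (p = 2 ∨ p = 3 ∧ ∀ x ∈ l1, Odd x) ∧ p ∣ n ∧
        l.Perm (n :: l1) := by
      by_cases he : ∃ n ∈ l, 2 ∣ n
      · obtain ⟨n, hn, h⟩ := he
        exact ⟨2, n, l.erase n, Or.inl rfl, h, List.perm_cons_erase hn⟩
      · obtain ⟨n, hn, h⟩ : ∃ n ∈ l, 3 ∣ n := by
          rcases hc with hc | ⟨n, hn, h | h⟩
          · exact absurd hpw hc
          · exact absurd ⟨n, hn, h⟩ he
          · exact ⟨n, hn, h⟩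
        refine ⟨3, n, l.erase n, Or.inr ⟨rfl, ?_⟩, h, List.perm_cons_erase hn⟩
        intro x hx
        rw [← Nat.not_even_iff_odd, even_iff_two_dvd]
        intro h5
        exact he ⟨x, List.mem_of_mem_erase hx, h5⟩
    have hpw' : (n :: l1).Pairwise Nat.Coprime := hperm.pairwise hpw fun h => h.symm
    rw [List.pairwise_cons] at hpw'
    have h2' : ∀ x ∈ n :: l1, 2 ≤ x := fun x hx => h2 x (hperm.mem_iff.mpr hx)
    refine VV.perm ?_ hperm
    refine R2_main hp hn (h2' n (by simp)) (fun x hx => h2' x (by simp [hx])) hpw'.1 hpw'.2 ?_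
    rw [← (hperm.map _).sum_eq]
    exact hs
  · exact vv_all h2 hs hpw

/-- the virtual theorem, second version -/
theorem virtual2 [IsAlgClosed k] [CharZero k] {L : Type} [Field L] [Algebra k L] (hL : FunF k 1 L) {t : L} (ht : NC k t)
    (S : Finset (Option k)) (n : Option k → ℕ) (h2 : ∀ p ∈ S, 2 ≤ n p) (h : ∀ p ∈ S, Ram t p (n p))
    (hs : (2 : ℚ) < ∑ p ∈ S, ((1 : ℚ) - 1 / n p))
    (hc : (∃ p ∈ S, ∃ q ∈ S, p ≠ q ∧ ¬ Nat.Coprime (n p) (n q)) ∨ ∃ p ∈ S, 2 ∣ n p ∨ 3 ∣ n p) :
    Reach k L (fun L' _ _ => End k L') := by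
  have hv : VV k (S.toList.map n) := by
    apply vv_new
    · intro m hm
      rw [List.mem_map] at hm
      obtain ⟨p, hp, rfl⟩ := hm
      exact h2 p (Finset.mem_toList.mp hp)
    · rw [List.map_map]
      have e1 : (S.toList.map ((fun n : ℕ => (1 : ℚ) - 1 / n) ∘ n)).sum = ∑ p ∈ S, ((1 : ℚ) - 1 / n p) :=
        Finset.sum_map_toList S _
      rw [e1]
      exact hs
    · rcases hc with ⟨p, hp, q, hq, hpq, hne⟩ | ⟨p, hp, h3⟩
      · left
        intro hpw
        rw [List.pairwise_map] at hpw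
        haveI hsym : Std.Symm fun a b => Nat.Coprime (n a) (n b) := ⟨fun a b hab => hab.symm⟩
        exact hne (hpw.forall (Finset.mem_toList.mpr hp) (Finset.mem_toList.mpr hq) hpq)
      · right
        exact ⟨n p, List.mem_map.mpr ⟨p, Finset.mem_toList.mpr hp, rfl⟩, h3⟩
  exact hv L hL (sig_all ht S n h)

end Pool.Agent.LibEX36
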